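import Mathlib
import Pool.Agent.Helper599.Source

/-!
A fixed counter machine to which every recursively enumerable set reduces.
-/

set_option autoImplicit false

namespace Pool.Agent.Y669.TA.SysU

open Pool.Agent.Helper599.Core Pool.Agent.Helper599.Source
open Turing Turing.PartrecToTM2
open Nat.Partrec (Code)

/-- A fixed finite counter machine whose halting set is universal. -/
theorem exists_sys' : ∃ (Q : Type) (_ : Finite Q) (M : Sys Q Bool) (q0 : Q) (N : ℕ → ℕ),
    Computable N ∧ ∀ n, M.Halts (some q0) (ini (N n)) ↔ (u n).Dom := by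
  classical
  obtain ⟨Λ, i1, i2, M, hM⟩ := exists_machine
  have fK : Finite PartrecToTM2.K' := by
    refine Finite.of_injective (fun k : PartrecToTM2.K' => match k with
      | .main => (0 : Fin 4) | .rev => 1 | .aux => 2 | .stack => 3) ?_
    intro a b h
    cases a <;> cases b <;> simp_all
  have fG : Finite (TM2to1.Γ' PartrecToTM2.K' (fun _ => PartrecToTM2.Γ')) :=
    inferInstanceAs (Finite (Bool × (PartrecToTM2.K' → Option PartrecToTM2.Γ')))
  let _ : Fintype (TM2to1.Γ' PartrecToTM2.K' (fun _ => PartrecToTM2.Γ')) := Fintype.ofFinite _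
  let N : ℕ → ℕ := fun n => enc (sym true .cons :: (trNat n).reverse.map (sym false))
  refine ⟨Λ, i2, sys M, default, N, ?_, ?_⟩
  · have h1 := digits_computable (fun a => kap (sym false a))
    have h2 : Computable (fun n : ℕ => ((trNat n).map (fun a => kap (sym false a))).reverse) :=
      Primrec.list_reverse.to_comp.comp h1
    have h3 := (foldr_computable
      (bas (TM2to1.Γ' PartrecToTM2.K' (fun _ => PartrecToTM2.Γ')))).comp h2
    have h4 : Computable (fun x : ℕ => kap (sym true .cons) +
        (bas (TM2to1.Γ' PartrecToTM2.K' (fun _ => PartrecToTM2.Γ'))) * x) :=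
      (Primrec.nat_add.comp (Primrec.const _)
        (Primrec.nat_mul.comp (Primrec.const _) Primrec.id)).to_comp
    refine (h4.comp h3).of_eq ?_
    intro n
    have e : ∀ l : List PartrecToTM2.Γ', enc (l.map (sym false)) =
        (l.map (fun a => kap (sym false a))).foldr (fun d acc => d +
          (bas (TM2to1.Γ' PartrecToTM2.K' (fun _ => PartrecToTM2.Γ'))) * acc) 0 := by
      intro l
      induction l with
      | nil => rfl
      | cons a l ih =>
        simp only [List.map_cons, enc, List.foldr_cons, ih]
    simp only [N, enc]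
    rw [e, List.map_reverse]
  · intro n
    rw [← hM n]
    apply halts_iff
    constructor
    · have := rep_enc (sym true .cons :: (trNat n).reverse.map (sym false))
      have e : (Tape.mk₁ (sym true PartrecToTM2.Γ'.cons :: (trNat n).reverse.map
          (sym false))).right₀ = ListBlank.mk (sym true .cons ::
            (trNat n).reverse.map (sym false)) := by
        unfold Tape.mk₁ Tape.mk₂
        rw [Tape.mk'_right₀]
      simp only [TM0.init, e]
      exact this
    · exact rep_zero

/-- Every recursively enumerable set is many-one reducible to the halting set. -/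
theorem universal {S : ℕ → Prop} (hS : REPred S) : ∃ g : ℕ → ℕ, Computable g ∧
    ∀ n, S n ↔ (u (g n)).Dom := by
  have hf : Partrec (fun m : ℕ => (Part.assert (S (Nat.unpair m).1) fun _ => Part.some ()).map
      (fun _ => 0)) :=
    Partrec.map (Partrec.comp hS (Computable.fst.comp Computable.unpair)) (Computable.const 0).to₂
  obtain ⟨c, hc⟩ := Code.exists_code.1 (Partrec.nat_iff.1 hf)
  refine ⟨fun n => Encodable.encode (Code.curry c n),
    Computable.encode.comp (Code.primrec₂_curry.comp (Primrec.const c) Primrec.id).to_comp,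
    fun n => ?_⟩
  unfold u
  rw [Denumerable.ofNat_encode, Code.eval_curry, hc]
  simp [Part.map, Part.assert]


/-- the halting set as a reduction target -/
theorem exists_sys_re : ∃ (Q : Type) (_ : Finite Q) (M : Sys Q Bool) (q0 : Q),
    (∃ N0, M.Halts (some q0) (ini N0)) ∧
    ∀ W : ℕ → Prop, REPred W → ∃ N : ℕ → ℕ, Computable N ∧
      ∀ n, M.Halts (some q0) (ini (N n)) ↔ W n := by
  obtain ⟨Q, hQ, M, q0, r, hr, hT⟩ := exists_sys'
  have key : ∀ W : ℕ → Prop, REPred W → ∃ N : ℕ → ℕ, Computable N ∧
      ∀ n, M.Halts (some q0) (ini (N n)) ↔ W n := by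
    intro W hW
    obtain ⟨g, hg, h⟩ := universal hW
    exact ⟨fun n => r (g n), hr.comp hg, fun n => (hT _).trans (h n).symm⟩
  refine ⟨Q, hQ, M, q0, ?_, key⟩
  obtain ⟨N, -, h⟩ := key (fun _ => True) (by
    have : Computable fun _ : ℕ => true := Computable.const true
    exact ComputablePred.to_re (ComputablePred.computable_iff.2 ⟨_, this, by funext n; simp⟩))
  exact ⟨N 0, (h 0).2 trivial⟩

/-- a recursively enumerable set whose complement is not -/
theorem exists_re_not_co : ∃ W : ℕ → Prop, REPred W ∧ ¬ REPred fun n => ¬ W n := by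
  refine ⟨fun n => (u n).Dom, u_partrec.dom_re, fun h => ?_⟩
  exact u_not_computable (ComputablePred.computable_iff_re_compl_re'.2 ⟨u_partrec.dom_re, h⟩)

end Pool.Agent.Y669.TA.SysU
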