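import Pool.Agent.Helper270.WPB
import Pool.Agent.Y669.TA.SysU

/-!
A finitely presented group to whose word problem every recursively enumerable set reduces.
-/

set_option autoImplicit false

namespace Pool.Agent.Y669.TA.WPU

open Turing Turing.PartrecToTM2
open Pool.Agent.Helper270.WPSource Pool.Agent.Helper270.WP Pool.Agent.Helper270.WPA

/-- A fixed finite counter machine with undecidable halting problem. -/
theorem exists_sys' : ∃ (Q : Type) (_ : Finite Q) (M : Sys Q Bool) (q0 : Q) (N : ℕ → ℕ),
    2 ≤ M.B ∧ (∀ q r j, M.nxt q r ≠ none → 0 < M.a q r j) ∧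
    Computable N ∧ ∀ n, M.Halts (some q0) (ini (N n)) ↔ (u n).Dom := by
  classical
  obtain ⟨Λ, i1, i2, M, hM⟩ := exists_machine
  have fK : Finite PartrecToTM2.K' := by
    refine Finite.of_injective (fun k : PartrecToTM2.K' => match k with
      | .main => (0 : Fin 4) | .rev => 1 | .aux => 2 | .stack => 3) ?_
    intro a b h
    cases a <;> cases b <;> simp_all
  have fG : Finite (TM2to1.Γ' PartrecToTM2.K' (fun _ => PartrecToTM2.Γ')) :=
    inferInstanceAs (Finite (Bool × (PartrecToTM2.K' → Option PartrecToTM2.Γ')))
  let _ : Fintype (TM2to1.Γ' PartrecToTM2.K' (fun _ => PartrecToTM2.Γ')) := Fintype.ofFinite _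
  let N : ℕ → ℕ := fun n => enc (sym true .cons :: (trNat n).reverse.map (sym false))
  refine ⟨Λ, i2, sys M, default, N, ?_, sys_pos M, ?_, ?_⟩
  · change 2 ≤ bas _
    have : 0 < Fintype.card (TM2to1.Γ' PartrecToTM2.K' (fun _ => PartrecToTM2.Γ')) :=
      Fintype.card_pos
    unfold bas
    omega
  · have h1 := digits_computable (fun a => kap (sym false a))
    have h2 : Computable (fun n : ℕ => ((trNat n).map (fun a => kap (sym false a))).reverse) :=
      Primrec.list_reverse.to_comp.comp h1
    have h3 := (foldr_computable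
      (bas (TM2to1.Γ' PartrecToTM2.K' (fun _ => PartrecToTM2.Γ')))).comp h2
    have h4 : Computable (fun x : ℕ => kap (sym true .cons) +
        (bas (TM2to1.Γ' PartrecToTM2.K' (fun _ => PartrecToTM2.Γ'))) * x) :=
      (Primrec.nat_add.comp (Primrec.const _)
        (Primrec.nat_mul.comp (Primrec.const _) Primrec.id)).to_comp
    refine (h4.comp h3).of_eq ?_
    intro n
    have e : ∀ l : List PartrecToTM2.Γ', enc (l.map (sym false)) =
        (l.map (fun a => kap (sym false a))).foldr (fun d acc => d +
          (bas (TM2to1.Γ' PartrecToTM2.K' (fun _ => PartrecToTM2.Γ'))) * acc) 0 := by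
      intro l
      induction l with
      | nil => rfl
      | cons a l ih =>
        simp only [List.map_cons, enc, List.foldr_cons, ih]
    simp only [N, enc]
    rw [e, List.map_reverse]
  · intro n
    rw [← hM n]
    apply halts_iff
    constructor
    · have := rep_enc (sym true .cons :: (trNat n).reverse.map (sym false))
      have e : (Tape.mk₁ (sym true PartrecToTM2.Γ'.cons :: (trNat n).reverse.map
          (sym false))).right₀ = ListBlank.mk (sym true .cons ::
            (trNat n).reverse.map (sym false)) := by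
        unfold Tape.mk₁ Tape.mk₂
        rw [Tape.mk'_right₀]
      simp only [TM0.init, e]
      exact this
    · exact rep_zero

/-- The Novikov-Boone theorem: a finitely presented group with undecidable word problem. -/
theorem word_problem' : ∃ (m : ℕ) (R : Finset (FreeGroup (Fin m))) (W : ℕ → List (Fin m × Bool)),
    Computable W ∧ ∀ n, FreeGroup.mk (W n) ∈
      Subgroup.normalClosure (R : Set (FreeGroup (Fin m))) ↔ (u n).Dom := by
  classical
  obtain ⟨Q, hQ, M, q0, N, hB, hpos, hN, hu⟩ := exists_sys'
  have : Finite (Option Q × (Bool → Fin M.B)) := inferInstance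
  have : Finite (Gen (Option Q) (Option Q × (Bool → Fin M.B))) :=
    Finite.of_equiv _ (genEquiv _ _).symm
  obtain ⟨m, ⟨e⟩⟩ := Finite.exists_equiv_fin (Gen (Option Q) (Option Q × (Bool → Fin M.B)))
  let D := mrules M hpos
  let E := FreeGroup.freeGroupCongr e
  let R' : Set (FreeGroup (Fin m)) := E '' rels D none
  have hR' : R'.Finite := (rels_finite D none).image _
  refine ⟨m, hR'.toFinset, fun n => twl (e .k) (e (.t (some q0))) (e (.x true)) (N n),
    twl_computable _ _ _ N hN, ?_⟩
  intro n
  rw [← hu n]
  have h1 : M.Halts (some q0) (ini (N n)) ↔ Acc D none (some q0) (toV (ini (N n))) :=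
    ⟨acc_of_halts M hpos hB, fun h => halts_of_acc M hpos h _ rfl⟩
  rw [h1, ← mem_normalClosure_iff D none (acc_forward M hpos)]
  have h2 : FreeGroup.mk (twl (e .k) (e (.t (some q0))) (e (.x true)) (N n)) =
      E (tw (some q0) (toV (ini (N n)))) := by
    rw [mk_twl, tw, Tw, Xw]
    simp only [map_mul, map_inv, map_zpow, gk, gt, gx, E, FreeGroup.freeGroupCongr_apply,
      FreeGroup.map.of, toV, ini]
    simp
  rw [h2]
  have h3 : Subgroup.normalClosure ((hR'.toFinset : Finset _) : Set (FreeGroup (Fin m))) =
      (Subgroup.normalClosure (rels D none)).map E.toMonoidHom := by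
    rw [Set.Finite.coe_toFinset]
    exact (Subgroup.map_normalClosure _ E.toMonoidHom E.surjective).symm
  rw [h3]
  constructor
  · rintro ⟨y, hy, hyE⟩
    have := E.injective hyE
    rwa [this] at hy
  · intro h
    exact ⟨_, h, rfl⟩


/-- Every recursively enumerable set is reduced to the word problem of one group. -/
theorem word_problem_re : ∃ (m : ℕ) (R : Finset (FreeGroup (Fin m))),
    ∀ S : ℕ → Prop, REPred S → ∃ W : ℕ → List (Fin m × Bool), Computable W ∧
      ∀ n, FreeGroup.mk (W n) ∈ Subgroup.normalClosure (R : Set (FreeGroup (Fin m))) ↔ S n := by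
  obtain ⟨m, R, W, hW, h⟩ := word_problem'
  refine ⟨m, R, fun S hS => ?_⟩
  obtain ⟨g, hg, hgS⟩ := Pool.Agent.Y669.TA.SysU.universal hS
  exact ⟨fun n => W (g n), hW.comp hg, fun n => (h (g n)).trans (hgS n).symm⟩

end Pool.Agent.Y669.TA.WPU
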