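import Pool.Agent.Helper270.FIN
import Pool.Agent.Y669.TA.WPU

/-!
Subgroups generated by fixed words and one variable word.
-/

set_option autoImplicit false

namespace Pool.Agent.Y669.TA.Mcg

open Pool.Agent.Helper270.Red Pool.Agent.Helper270.Split
open Pool.Agent.Helper270.FIN

variable {M : Type} [Group M]

/-- All words but one are fixed; every recursively enumerable set reduces. -/
theorem fixed_words (D : ∀ m, Frame m M) : ∃ E : Set M, E.Finite ∧
    ∀ (k : ℕ) (s : Fin k → M), E ⊆ Subgroup.closure (Set.range s) →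
      ∃ F : List (List (Fin k × Bool)), ∀ S : ℕ → Prop, REPred S →
        ∃ w : ℕ → List (Fin k × Bool), Computable w ∧ ∀ n,
          (FreelyIndecomposable (subgroupOfWords s (w n :: F)) ↔ S n) ∧
          (SplitsOverZ (subgroupOfWords s (w n :: F)) ↔ ¬ S n) := by
  classical
  obtain ⟨m, R, hWP⟩ := Pool.Agent.Y669.TA.WPU.word_problem_re
  let Dm := D m
  refine ⟨Set.range (fun i : I m => Dm.δ (FreeGroup.of i, FreeGroup.of i)) ∪
    Set.range (fun i : I m => Dm.δ (1, FreeGroup.of i)) ∪ {Dm.ε gc, Dm.z * Dm.ε gd}, ?_, ?_⟩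
  · exact ((Set.finite_range _).union (Set.finite_range _)).union (by simp)
  intro k s hs
  have hdiag : ∀ i : I m, ∃ w, evalWord s w = Dm.δ (FreeGroup.of i, FreeGroup.of i) :=
    fun i => exists_word s (hs (Or.inl (Or.inl ⟨i, rfl⟩)))
  have hsnd : ∀ i : I m, Dm.δ (1, FreeGroup.of i) ∈ Subgroup.closure (Set.range s) :=
    fun i => hs (Or.inl (Or.inr ⟨i, rfl⟩))
  have hlet : ∀ x : I m × Bool, ∃ w, evalWord s w =
      if x.2 then Dm.δ (1, FreeGroup.of x.1) else (Dm.δ (1, FreeGroup.of x.1))⁻¹ := by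
    rintro ⟨i, b⟩
    apply exists_word
    cases b
    · exact inv_mem (hsnd i)
    · exact hsnd i
  obtain ⟨wc, hwc⟩ := exists_word s (hs (Or.inr (Or.inl rfl)))
  obtain ⟨wz, hwz⟩ := exists_word s (hs (Or.inr (Or.inr rfl)))
  choose wd hwd using hdiag
  choose V hV using hlet
  -- the substitution
  let δ2 : F m →* M := Dm.δ.comp (MonoidHom.inr _ _)
  have hsub : ∀ w : List (I m × Bool), evalWord s (w.flatMap V) = δ2 (FreeGroup.mk w) := by
    intro w
    rw [evalWord_flatMap s (fun i => Dm.δ (1, FreeGroup.of i)) V (fun a b => hV (a, b))]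
    have : FreeGroup.lift (fun i => Dm.δ (1, FreeGroup.of i)) = δ2 := by
      apply FreeGroup.ext_hom
      intro i
      simp [δ2]
    rw [this]
  -- the fixed words
  let fixed : List (List (Fin k × Bool)) :=
    (Finset.univ : Finset (I m)).toList.map wd ++
      (R.toList.map fun r => (em r).toWord.flatMap V) ++ [wz]
  refine ⟨fixed, fun S hS => ?_⟩
  obtain ⟨W, hW, hWS⟩ := hWP S hS
  let Fw : ℕ → List (List (Fin k × Bool)) := fun n => ((rw' (W n)).flatMap V ++ wc) :: fixed
  have hF : Computable fun n => (rw' (W n)).flatMap V ++ wc := by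
    have h1 : Primrec (fun w : List (Fin m × Bool) => (rw' w).flatMap V ++ wc) := by
      apply Primrec.list_append.comp _ (Primrec.const _)
      apply Primrec.list_flatMap rw_primrec
      exact ((Primrec.dom_finite V).comp Primrec.snd).to₂
    exact h1.to_comp.comp hW
  have hH : ∀ n, subgroupOfWords s (Fw n) = H Dm (R : Set (FreeGroup (Fin m)))
      (FreeGroup.mk (W n)) := by
    intro n
    rw [subgroupOfWords, H]
    congr 1
    ext x
    have hr : ∀ r : FreeGroup (Fin m), evalWord s ((em r).toWord.flatMap V) =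
        Dm.δ (1, em r) := by
      intro r
      rw [hsub, FreeGroup.mk_toWord]
      rfl
    have hrho : evalWord s ((rw' (W n)).flatMap V ++ wc) =
        Dm.δ (1, rho (FreeGroup.mk (W n))) * Dm.ε gc := by
      rw [evalWord_append, hsub, mk_rw, hwc]
      rfl
    simp only [Set.mem_ofPred_eq, Fw, fixed, List.mem_cons, List.mem_append, List.mem_map,
      Finset.mem_toList, Finset.mem_univ, true_and, gens, Set.mem_union, Set.mem_range,
      Set.mem_image, Set.mem_insert_iff, Set.mem_singleton_iff, Finset.mem_coe]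
    constructor
    · rintro ⟨w, rfl | ((⟨i, rfl⟩ | ⟨r, hr', rfl⟩) | (rfl | h)), rfl⟩
      · exact Or.inr (Or.inl hrho)
      · exact Or.inl (Or.inl ⟨i, (hwd i).symm⟩)
      · exact Or.inl (Or.inr ⟨r, hr', (hr r).symm⟩)
      · exact Or.inr (Or.inr hwz)
      · simp at h
    · rintro ((⟨i, rfl⟩ | ⟨r, hr', rfl⟩) | rfl | rfl)
      · exact ⟨wd i, Or.inr (Or.inl (Or.inl ⟨i, rfl⟩)), (hwd i).symm⟩
      · exact ⟨_, Or.inr (Or.inl (Or.inr ⟨r, hr', rfl⟩)), (hr r).symm⟩
      · exact ⟨_, Or.inl rfl, hrho.symm⟩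
      · exact ⟨_, Or.inr (Or.inr (Or.inl rfl)), hwz.symm⟩
  refine ⟨fun n => (rw' (W n)).flatMap V ++ wc, hF, fun n => ?_⟩
  have e : subgroupOfWords s (((rw' (W n)).flatMap V ++ wc) :: fixed) =
      H Dm (R : Set (FreeGroup (Fin m))) (FreeGroup.mk (W n)) := hH n
  rw [e]
  exact ⟨(main_iff Dm).1.trans (hWS n), (main_iff Dm).2.trans (not_congr (hWS n))⟩


end Pool.Agent.Y669.TA.Mcg
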