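import Pool.Agent.Helper948.Tile.Final
import Pool.Agent.Y669.TA.SysU

/-!
The family of tile sets for a universal machine.
-/

set_option autoImplicit false

namespace Pool.Agent.Y669.TA.TileU

open Pool.Agent.Helper948 Pool.Agent.Helper948.Tile
open Turing

/-- The computable family of tile sets. -/
theorem family' : ∃ (K : ℕ → ℕ) (W : ℕ → List (ℕ × ℕ × ℕ × ℕ)),
    Computable K ∧ Computable W ∧ (∀ m, ∀ t ∈ W m, Bdd (K m) t) ∧
    ∀ m n, 2 ≤ n → (HasContTiling (tileSet (tilesN n (K m) (W m))) ↔ (Erode.u m).Dom) := by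
  classical
  obtain ⟨Λ, i1, i2, M, hM⟩ := Erode.exists_machine
  have fG : Finite (TM2to1.Γ' PartrecToTM2.K' (fun _ => PartrecToTM2.Γ')) := by
    have fK : Finite PartrecToTM2.K' := by
      refine Finite.of_injective (fun k : PartrecToTM2.K' => match k with
        | .main => (0 : Fin 4) | .rev => 1 | .aux => 2 | .stack => 3) ?_
      intro a b h
      cases a <;> cases b <;> simp_all
    exact inferInstanceAs (Finite (Bool × (PartrecToTM2.K' → Option PartrecToTM2.Γ')))
  obtain ⟨a, ⟨eG⟩⟩ := Finite.exists_equiv_fin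
    (TM2to1.Γ' PartrecToTM2.K' (fun _ => PartrecToTM2.Γ'))
  obtain ⟨b, ⟨eL⟩⟩ := Finite.exists_equiv_fin Λ
  obtain ⟨cst, hcst⟩ := exists_cst eG eL M (Erode.sym true .cons)
  let lm : ℕ → List (TM2to1.Γ' PartrecToTM2.K' (fun _ => PartrecToTM2.Γ')) := fun m =>
    Erode.sym true .cons :: (PartrecToTM2.trNat m).reverse.map (Erode.sym false)
  let lw : ℕ → List ℕ := fun m => (lm m).map (fun x => cv eG eL (.sy x))
  have hlw : Computable lw := by
    have h1 := Erode.digits_computable (fun x => cv eG eL (.sy (Erode.sym false x)))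
    have h2 := Primrec.list_reverse.to_comp.comp h1
    have h3 : Computable (fun v : List ℕ => cv eG eL (.sy (Erode.sym true .cons)) :: v) :=
      (Primrec.list_cons.comp (Primrec.const _) Primrec.id).to_comp
    refine (h3.comp h2).of_eq ?_
    intro m
    simp only [lw, lm, List.map_cons, List.map_reverse, List.map_map]
    rfl
  let W : ℕ → List (ℕ × ℕ × ℕ × ℕ) := fun m => allW cst b (cv eG eL (.sy default)) (lw m)
  let K : ℕ → ℕ := fun m => bnd a b (lw m)
  have hW : ∀ m t, t ∈ W m ↔ ∃ e n w s, WT M (lm m) e n w s ∧ t = cd eG eL e n w s :=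
    fun m t => mem_allW eG eL M (Erode.sym true .cons) cst hcst (lm m) rfl (lw m) rfl t
  have hB : ∀ m, ∀ t ∈ W m, Bdd (K m) t := by
    intro m t ht
    obtain ⟨e, n, w, s, h1, rfl⟩ := (hW m t).1 ht
    exact WT_bd eG eL M (lm m) h1 (lw m) (by simp only [lw, List.length_map])
  refine ⟨K, W, ?_, ?_, hB, ?_⟩
  · exact (bnd_pr a b).to_comp.comp hlw
  · exact (allW_pr cst b _).to_comp.comp hlw
  · intro m n hn
    change _ ↔ (Erode.u m).Dom
    rw [← hM m]
    have hlen : 0 < (lm m).length := by simp [lm]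
    exact ⟨fun h => halts_of_cont eG eL M (lm m) (K m) (W m) hlen (hW m) (hB m) hn h,
      fun h => cont_of_halts eG eL M (lm m) (K m) (W m) hlen (hW m) (hB m) hn h⟩


end Pool.Agent.Y669.TA.TileU
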