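import Mathlib.Computability.Halting
import Mathlib.Computability.Reduce

/-! Arithmetical sets of natural numbers. A set to which every arithmetical set is many-one
reducible is not arithmetical. -/

namespace Pool.Agent.Y669.TA

open Nat.Partrec

/-- The arithmetical sets of natural numbers: the least class which contains the computable sets
and is closed under complement, intersection and projection. -/
inductive Arithmetical : (ℕ → Prop) → Prop
  | comp (p : ℕ → Prop) : ComputablePred p → Arithmetical p
  | compl (p : ℕ → Prop) : Arithmetical p → Arithmetical (fun n => ¬ p n)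
  | inter (p q : ℕ → Prop) : Arithmetical p → Arithmetical q → Arithmetical (fun n => p n ∧ q n)
  | proj (p : ℕ → Prop) : Arithmetical p → Arithmetical (fun n => ∃ m, p (Nat.pair n m))

theorem Arithmetical.of_iff {p q : ℕ → Prop} (h : ∀ n, p n ↔ q n) (hp : Arithmetical p) :
    Arithmetical q := by
  have : p = q := funext fun n => propext (h n)
  rwa [← this]

theorem Arithmetical.pre {p : ℕ → Prop} (hp : Arithmetical p) :
    ∀ {f : ℕ → ℕ}, Computable f → Arithmetical (fun n => p (f n)) := by
  induction hp with
  | comp p hp =>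
    intro f hf
    obtain ⟨g, hg, rfl⟩ := ComputablePred.computable_iff.1 hp
    exact .comp _ (ComputablePred.computable_iff.2 ⟨fun n => g (f n), hg.comp hf, rfl⟩)
  | compl p _ ih => intro f hf; exact .compl _ (ih hf)
  | inter p q _ _ ih1 ih2 => intro f hf; exact .inter _ _ (ih1 hf) (ih2 hf)
  | proj p _ ih =>
    intro f hf
    have hg : Computable (fun x : ℕ => Nat.pair (f x.unpair.1) x.unpair.2) :=
      Primrec₂.natPair.to_comp.comp (hf.comp (Computable.fst.comp Computable.unpair))
        (Computable.snd.comp Computable.unpair)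
    refine Arithmetical.of_iff (fun n => ?_) (.proj _ (ih hg))
    simp

theorem Arithmetical.ex2 {p : ℕ → Prop} (hp : Arithmetical p) :
    Arithmetical (fun n => ∃ m k, p (Nat.pair (Nat.pair n m) k)) :=
  .proj _ (.proj _ hp)

/-- A set to which all arithmetical sets are many-one reducible is not arithmetical. -/
theorem not_arithmetical {T : ℕ → Prop} (h : ∀ A : ℕ → Prop, Arithmetical A → A ≤₀ T) :
    ¬ Arithmetical T := by
  intro hT
  -- `E (pair (pair e m) k)`: the program `e` on input `e` outputs `m` within `k` steps
  have hE : Arithmetical (fun x : ℕ => x.unpair.1.unpair.2 ∈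
      Code.evaln x.unpair.2 (Denumerable.ofNat Code x.unpair.1.unpair.1) x.unpair.1.unpair.1) := by
    refine .comp _ (ComputablePred.computable_iff.2 ⟨fun x : ℕ => decide
      (Code.evaln x.unpair.2 (Denumerable.ofNat Code x.unpair.1.unpair.1) x.unpair.1.unpair.1 =
        some x.unpair.1.unpair.2), ?_, ?_⟩)
    · have h1 : Primrec (fun x : ℕ => x.unpair.1.unpair.1) :=
        Primrec.fst.comp (Primrec.unpair.comp (Primrec.fst.comp Primrec.unpair))
      have h2 : Primrec (fun x : ℕ => x.unpair.1.unpair.2) :=
        Primrec.snd.comp (Primrec.unpair.comp (Primrec.fst.comp Primrec.unpair))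
      have h3 : Primrec (fun x : ℕ => x.unpair.2) := Primrec.snd.comp Primrec.unpair
      have h4 : Primrec (fun x : ℕ =>
          Code.evaln x.unpair.2 (Denumerable.ofNat Code x.unpair.1.unpair.1) x.unpair.1.unpair.1) :=
        Code.primrec_evaln.comp (Primrec.pair (Primrec.pair h3 ((Primrec.ofNat Code).comp h1)) h1)
      exact (PrimrecRel.decide (Primrec.eq (α := Option ℕ))).comp h4 (Primrec.option_some.comp h2) |>.to_comp
    · funext x
      simp [Option.mem_def]
  have hf : Computable (fun x : ℕ => x.unpair.1.unpair.2) :=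
    Computable.snd.comp (Computable.unpair.comp (Computable.fst.comp Computable.unpair))
  have hA : Arithmetical (fun e => ¬ ∃ m, m ∈ Code.eval (Denumerable.ofNat Code e) e ∧ T m) := by
    refine .compl _ (Arithmetical.of_iff (fun e => ?_) (Arithmetical.ex2 (.inter _ _ hE (hT.pre hf))))
    simp only [Nat.unpair_pair]
    constructor
    · rintro ⟨m, k, h1, h2⟩
      exact ⟨m, Code.evaln_complete.2 ⟨k, h1⟩, h2⟩
    · rintro ⟨m, h1, h2⟩
      obtain ⟨k, hk⟩ := Code.evaln_complete.1 h1
      exact ⟨m, k, hk, h2⟩
  obtain ⟨f, hf, hfT⟩ := h _ hA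
  obtain ⟨c, hc⟩ := Code.exists_code.1 (Partrec.nat_iff.1 hf)
  have key : f (Encodable.encode c) ∈ Code.eval (Denumerable.ofNat Code (Encodable.encode c))
      (Encodable.encode c) := by
    rw [Denumerable.ofNat_encode, hc]
    exact Part.mem_some _
  have h1 : (¬ ∃ m, m ∈ Code.eval (Denumerable.ofNat Code (Encodable.encode c))
      (Encodable.encode c) ∧ T m) ↔ T (f (Encodable.encode c)) := hfT (Encodable.encode c)
  have h2 : (∃ m, m ∈ Code.eval (Denumerable.ofNat Code (Encodable.encode c)) (Encodable.encode c) ∧
      T m) ↔ T (f (Encodable.encode c)) := by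
    constructor
    · rintro ⟨m, hm, hT⟩
      rwa [← Part.mem_unique hm key]
    · intro hT
      exact ⟨_, key, hT⟩
  rw [h2] at h1
  tauto

end Pool.Agent.Y669.TA
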