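import Pool.Agent.Helper967.RD9
import Pool.Agent.Y669.TA.DC967
set_option autoImplicit false
open NumberField

/-! One formula defines the naturals in all rings of integers of totally real fields; every
arithmetical set is many-one reducible, by one and the same function, to the theories of all
these rings. -/

namespace Pool.Agent.Y669.TA.Real

open FirstOrder FirstOrder.Language
open Pool.Agent.Helper967.ArithDef Pool.Agent.Helper967.ModelDef
open Pool.Agent.Helper967.TR hiding InG NatDef strO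
open Pool.Agent.Helper967.RD
open Pool.Agent.Y669.TA

attribute [local instance] Pool.Agent.Helper967.RD.strO

/-- the rings of integers -/
abbrev MK : IntermediateField ℚ Qtr → Type := fun K => 𝓞 K
/-- no parameters -/
abbrev pr : ∀ K : IntermediateField ℚ Qtr, Empty → MK K := fun _ e => e.elim
/-- uniform definability -/
abbrev DF (R : ∀ K : IntermediateField ℚ Qtr, (ℕ → MK K) → Prop) : Prop :=
  DM (M := MK) Language.ring pr R
/-- the naturals -/
noncomputable abbrev nuF : ∀ K : IntermediateField ℚ Qtr, ℕ → MK K := fun _ n => (n : MK _)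

theorem dm_subF {R : ∀ K, MK K → Prop} (hR : DF (fun K v => R K (v 0)))
    (t : Language.ring.Term (Empty ⊕ ℕ)) :
    DF (fun K v => R K (t.realize (Sum.elim (pr K) v))) := by
  refine DM.iff (R := fun K v => ∃ a, a = t.realize (Sum.elim (pr K) v) ∧ R K a)
    (fun i v => by simp) ?_
  refine DM.ex (S := fun K a v => a = t.realize (Sum.elim (pr K) v) ∧ R K a) (DM.and ?_ hR)
  refine DM.iff ?_ (DM.term (tv 0) (t.relabel (Sum.map id (fun n => n + 1))))
  intro i v
  rw [Term.realize_relabel]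
  have : Sum.elim (pr i) v ∘ Sum.map id (fun n => n + 1) = Sum.elim (pr i) (fun n => v (n+1)) := by
    funext s; rcases s with e | n
    · exact e.elim
    · rfl
  rw [this]
  rfl

/-- totally negative integers of a totally real field, uniformly -/
theorem ng_iff' (K : IntermediateField ℚ Qtr) (z : 𝓞 K) : Ng (evK K) z ↔
    (∀ a b : 𝓞 K, a*a - 4*z*(b*b) = 1 → b = 0) ∧ ¬ ∃ m : 𝓞 K, z = m * m := by
  have hsq : Ng (evK K) z → ¬ ∃ m : 𝓞 K, z = m * m := by
    rintro h ⟨m, rfl⟩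
    have := h 1
    rw [map_mul] at this
    nlinarith [mul_self_nonneg (evK K 1 m)]
  by_cases hK : K = ⊥
  · subst hK
    constructor
    · intro h
      refine ⟨?_, hsq h⟩
      intro a b hab
      obtain ⟨x, rfl⟩ := int_of_bot a
      obtain ⟨y, rfl⟩ := int_of_bot b
      by_contra hy
      have hy0 : y ≠ 0 := by
        rintro rfl
        exact hy (by simp)
      have h1 := congrArg (evK ⊥ 1) hab
      simp only [map_sub, map_mul, map_intCast, map_one, map_ofNat] at h1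
      have hz := h 1
      obtain ⟨n, rfl⟩ := int_of_bot z
      rw [map_intCast] at h1 hz
      have hn : n < 0 := by exact_mod_cast hz
      have h2 : x * x - 4 * n * (y * y) = 1 := by exact_mod_cast h1
      have h3 : 0 < y * y := mul_self_pos.2 hy0
      nlinarith [mul_self_nonneg x]
    · rintro ⟨h1, h2⟩ σ
      obtain ⟨n, rfl⟩ := int_of_bot z
      rw [map_intCast]
      by_contra hcon
      push Not at hcon
      have hn0 : 0 ≤ n := by exact_mod_cast hcon
      have hns : ¬ IsSquare n := by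
        rintro ⟨m, rfl⟩
        exact h2 ⟨(m : 𝓞 (⊥ : IntermediateField ℚ Qtr)), by push_cast; ring⟩
      have hn1 : 0 < n := by
        rcases hn0.lt_or_eq with h | h
        · exact h
        · exact absurd ⟨0, by rw [← h]; rfl⟩ hns
      have h4 : ¬ IsSquare (4 * n) := by
        rintro ⟨k, hk⟩
        have hk2 : (2 : ℤ) ∣ k := by
          have : (2 : ℤ) ∣ k * k := ⟨2 * n, by rw [← hk]; ring⟩
          rcases Int.prime_two.dvd_mul.1 this with h | h <;> exact h
        obtain ⟨m, rfl⟩ := hk2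
        exact hns ⟨m, by linarith [show 4 * n = 4 * (m * m) by rw [hk]; ring]⟩
      obtain ⟨x, y, hxy, hy⟩ := Pell.exists_of_not_isSquare (by linarith : 0 < 4 * n) h4
      have := h1 (x : 𝓞 (⊥ : IntermediateField ℚ Qtr)) y (by
        have h5 : x * x - 4 * n * (y * y) = 1 := by rw [← hxy]; ring
        exact_mod_cast congrArg (fun t : ℤ => (t : 𝓞 (⊥ : IntermediateField ℚ Qtr))) h5)
      have h6 := congrArg (evK ⊥ σ) this
      rw [map_intCast, map_zero] at h6
      exact hy (by exact_mod_cast h6)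
  · rw [ng_iff K hK]
    constructor
    · intro h
      exact ⟨h, hsq ((ng_iff K hK z).2 h)⟩
    · exact fun h => h.1

theorem ordF : DF (fun K v => Ng (evK K) (v 0)) := by
  refine DM.iff (R := fun (K : IntermediateField ℚ Qtr) v => (∀ a b : 𝓞 K, a*a + -((1 + 1 + (1 + 1))*(v 0)*(b*b)) = 1 → b = 0) ∧
    ¬ ∃ m : 𝓞 K, v 0 = m * m) (fun K v => ?_) ?_
  · rw [ng_iff' K]
    have e : ∀ a b : 𝓞 K, a*a + -((1 + 1 + (1 + 1))*(v 0)*(b*b)) = a*a - 4*(v 0)*(b*b) := by
      intro a b; ring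
    simp only [e]
  · exact DM.and (DM.all (DM.all (DM.imp (DM.term (tA (tM (tv 1) (tv 1))
      (tN (tM (tM (tA (tA t1 t1) (tA t1 t1)) (tv 2)) (tM (tv 0) (tv 0))))) t1)
      (DM.term (tv 0) t0)))) (DM.not (DM.ex (DM.term (tv 1) (tM (tv 0) (tv 0)))))

theorem dm_inGF : DF (fun K v => InG (evK K) (v 0) (v 1) (v 2) (v 3) (v 4) (v 5) (v 6)) := by
  unfold InG
  refine DM.and ?_ (DM.and ?_ ?_)
  · refine DM.iff (fun K v => ?_) (dm_subF ordF (tA (tN t1) (tN (tv 6))))
    show Ng (evK K) (-1 + -(v 6)) ↔ Ng (evK K) (-1 - v 6)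
    rw [← sub_eq_add_neg]
  · refine DM.iff (fun K v => ?_) (dm_subF ordF (tA (tv 6) (tN (tv 5))))
    show Ng (evK K) (v 6 + -(v 5)) ↔ Ng (evK K) (v 6 - v 5)
    rw [sub_eq_add_neg]
  · refine DM.ex (S := fun K f v => Ng (evK K) (v 0 - v 2*f) ∧ Ng (evK K) (v 2*f - v 1) ∧
      ∃ y, v 6 = v 4 + (1 + v 3*(f+1))*y) ?_
    refine DM.and ?_ (DM.and ?_ ?_)
    · refine DM.iff (fun K v => ?_) (dm_subF ordF (tA (tv 1) (tN (tM (tv 3) (tv 0)))))
      show Ng (evK K) (v 1 + -(v 3 * v 0)) ↔ Ng (evK K) (v 1 - v 3 * v 0)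
      rw [sub_eq_add_neg]
    · refine DM.iff (fun K v => ?_) (dm_subF ordF (tA (tM (tv 3) (tv 0)) (tN (tv 2))))
      show Ng (evK K) (v 3 * v 0 + -(v 2)) ↔ Ng (evK K) (v 3 * v 0 - v 2)
      rw [sub_eq_add_neg]
    · exact DM.ex (DM.term (tv 8) (tA (tv 6) (tM (tA t1 (tM (tv 5) (tA (tv 1) t1))) (tv 0))))

theorem dm_natDefF : DF (fun K v => NatDef (evK K) (v 0)) := by
  unfold NatDef
  have hG : ∀ a0 a1 a2 a3 a4 a5 a6 : ℕ,
      DF (fun K v => InG (evK K) (v a0) (v a1) (v a2) (v a3) (v a4) (v a5) (v a6)) :=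
    fun a0 a1 a2 a3 a4 a5 a6 =>
    DM.ren (R := fun K v => InG (evK K) (v 0) (v 1) (v 2) (v 3) (v 4) (v 5) (v 6))
      (fun n => match n with | 0 => a0 | 1 => a1 | 2 => a2 | 3 => a3 | 4 => a4 | 5 => a5 | _ => a6)
      dm_inGF
  refine DM.ex (DM.ex (DM.ex (DM.ex (DM.ex (DM.ex ?_)))))
  refine DM.and (hG 5 4 3 2 1 0 6) ?_
  refine DM.all (S := fun K x v => InG (evK K) (v 5) (v 4) (v 3) (v 2) (v 1) (v 0) x →
    x = 0 ∨ InG (evK K) (v 5) (v 4) (v 3) (v 2) (v 1) (v 0) (x + -1)) ?_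
  refine DM.imp (hG 6 5 4 3 2 1 0) (DM.or (DM.term (tv 0) t0) ?_)
  refine DM.iff (R := fun K v => ∃ z, z = v 0 + -1 ∧
    InG (evK K) (v 6) (v 5) (v 4) (v 3) (v 2) (v 1) z) (fun i v => by simp) ?_
  exact DM.ex (DM.and (DM.term (tv 0) (tA (tv 1) (tN t1))) (hG 7 6 5 4 3 2 0))

theorem interpF : Interp (L := Language.ring) (M := MK) pr nuF where
  rng := DM.iff (fun K v => (tdK K).natDef_iff (boxesK K) (v 0)) dm_natDefF
  add := ⟨fun _ v => v 0 + v 1 = v 2, DM.term (tA (tv 0) (tv 1)) (tv 2), fun K w => by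
    simp only [nuF]
    rw [← Nat.cast_add]
    exact ⟨fun hh => (tdK K).natCast_inj hh, fun hh => by rw [hh]⟩⟩
  mul := ⟨fun _ v => v 0 * v 1 = v 2, DM.term (tM (tv 0) (tv 1)) (tv 2), fun K w => by
    simp only [nuF]
    rw [← Nat.cast_mul]
    exact ⟨fun hh => (tdK K).natCast_inj hh, fun hh => by rw [hh]⟩⟩

/-- uniform reduction -/
theorem exists_formula {A : ℕ → Prop} (hA : Arithmetical A) :
    ∃ Ψ : Language.ring.BoundedFormula Empty 1, ∀ (K : IntermediateField ℚ Qtr) (n : ℕ),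
    TrueIn (𝓞 K) (sig Ψ n) ↔ A n := by
  obtain ⟨ψ, hψ⟩ := DC967.dc_arith (DN.closed interpF) hA
  let g : Empty ⊕ ℕ → Empty ⊕ Fin 1 := fun s => match s with
    | .inl e => e.elim
    | .inr _ => .inr 0
  refine ⟨BoundedFormula.relabel (n := 1) g ψ, fun K n => ?_⟩
  unfold TrueIn sig Sentence.Realize Formula.Realize
  rw [BoundedFormula.realize_all]
  simp only [BoundedFormula.realize_imp]
  refine Iff.trans ?_ (hψ K (fun _ => n))
  have key : ∀ (v0 : Empty → 𝓞 K) (x0 : Fin 0 → 𝓞 K) (a : 𝓞 K),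
      (BoundedFormula.relabel (n := 1) g ψ : Language.ring.BoundedFormula Empty 1).Realize v0
        (Fin.snoc x0 a : Fin 1 → 𝓞 K) ↔ ψ.Realize (Sum.elim (pr K) (fun _ => a)) := by
    intro v0 x0 a
    rw [BoundedFormula.realize_relabel]
    have h1 : (Sum.elim v0 ((Fin.snoc x0 a : Fin 1 → 𝓞 K) ∘ Fin.castAdd 0) ∘ g) =
        Sum.elim (pr K) (fun _ => a) := by
      funext s
      rcases s with e | k
      · exact e.elim
      · rfl
    rw [h1]
    unfold Formula.Realize
    exact iff_of_eq (congrArg (BoundedFormula.Realize ψ _) (Subsingleton.elim _ _))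
  constructor
  · intro hh
    refine (key _ _ _).1 (hh (n : 𝓞 K) ?_)
    show _ = _
    rw [realize_num]
    rfl
  · intro hh a ha
    refine (key _ _ _).2 ?_
    have h1 : a = (n : 𝓞 K) := Eq.trans (b := _) ha (realize_num n _)
    rw [h1]
    exact hh

/-- uniform reduction, as a function -/
theorem reducible {A : ℕ → Prop} (hA : Arithmetical A) :
    ∃ σ : ℕ → Language.ring.Sentence, Computable (fun n => code (σ n)) ∧
      ∀ (K : IntermediateField ℚ Qtr) (n : ℕ), TrueIn (𝓞 K) (σ n) ↔ A n := by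
  obtain ⟨Ψ, hΨ⟩ := exists_formula hA
  exact ⟨fun n => sig Ψ n, (primrec_sig Ψ).to_comp, hΨ⟩

/-- one formula defines the integers in all these rings -/
theorem int_def : ∃ ζ : Language.ring.Formula (Fin 1), ∀ (K : IntermediateField ℚ Qtr) (x : 𝓞 K),
    (letI := (FirstOrder.Ring.compatibleRingOfRing (𝓞 K)).toStructure; ζ.Realize (fun _ => x)) ↔
      ∃ m : ℤ, x = m := by
  have h : DF (fun K v => ∃ m : ℤ, v 0 = (m : 𝓞 K)) := by
    refine DM.iff (R := fun (K : IntermediateField ℚ Qtr) v =>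
      (∃ n : ℕ, v 0 = (n : 𝓞 K)) ∨ ∃ n : ℕ, -(v 0) = (n : 𝓞 K))
      (fun K v => ?_) (DM.or interpF.rng (dm_subF (R := fun (K : IntermediateField ℚ Qtr) x => ∃ n : ℕ, x = (n : 𝓞 K))
        interpF.rng (tN (tv 0))))
    constructor
    · rintro (⟨n, hn⟩ | ⟨n, hn⟩)
      · exact ⟨n, by rw [hn]; simp⟩
      · exact ⟨-n, by rw [← neg_neg (v 0), hn]; simp⟩
    · rintro ⟨m, hm⟩
      obtain ⟨n, rfl | rfl⟩ := Int.eq_nat_or_neg m
      · exact Or.inl ⟨n, by rw [hm]; simp⟩
      · exact Or.inr ⟨n, by rw [hm]; simp⟩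
  obtain ⟨φ, hφ⟩ := h
  refine ⟨φ.relabel (fun s => match s with
    | .inl e => e.elim
    | .inr _ => 0), fun K x => ?_⟩
  rw [Formula.realize_relabel]
  refine Iff.trans (iff_of_eq (congrArg φ.Realize ?_)) (hφ K (fun _ => x))
  funext s
  rcases s with e | k
  · exact e.elim
  · rfl

end Pool.Agent.Y669.TA.Real
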