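import Pool.Agent.Helper462.OneRule.Comp
import Pool.Agent.Y669.TA.SysU

/-!
Single linear rules and a universal counter machine.
-/

set_option autoImplicit false

namespace Pool.Agent.Y669.TA.OneRule

open Turing Turing.PartrecToTM2
open Pool.Agent.Helper462.OneRule Pool.Agent.Helper462.OneRule.Term

/-- A fixed finite counter machine whose halting set is universal. -/
theorem exists_sys' : ∃ (Q : Type) (_ : Finite Q) (M : Sys Q Bool) (q0 : Q) (N : ℕ → ℕ),
    Computable N ∧ ∀ n, M.Halts (some q0) (ini (N n)) ↔ (u n).Dom := by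
  classical
  obtain ⟨Λ, i1, i2, M, hM⟩ := exists_machine
  have fK : Finite PartrecToTM2.K' := by
    refine Finite.of_injective (fun k : PartrecToTM2.K' => match k with
      | .main => (0 : Fin 4) | .rev => 1 | .aux => 2 | .stack => 3) ?_
    intro a b h
    cases a <;> cases b <;> simp_all
  have fG : Finite (TM2to1.Γ' PartrecToTM2.K' (fun _ => PartrecToTM2.Γ')) :=
    inferInstanceAs (Finite (Bool × (PartrecToTM2.K' → Option PartrecToTM2.Γ')))
  let _ : Fintype (TM2to1.Γ' PartrecToTM2.K' (fun _ => PartrecToTM2.Γ')) := Fintype.ofFinite _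
  let N : ℕ → ℕ := fun n => enc (sym true .cons :: (trNat n).reverse.map (sym false))
  refine ⟨Λ, i2, sys M, default, N, ?_, ?_⟩
  · have h1 := digits_computable (fun a => kap (sym false a))
    have h2 : Computable (fun n : ℕ => ((trNat n).map (fun a => kap (sym false a))).reverse) :=
      Primrec.list_reverse.to_comp.comp h1
    have h3 := (foldr_computable
      (bas (TM2to1.Γ' PartrecToTM2.K' (fun _ => PartrecToTM2.Γ')))).comp h2
    have h4 : Computable (fun x : ℕ => kap (sym true .cons) +
        (bas (TM2to1.Γ' PartrecToTM2.K' (fun _ => PartrecToTM2.Γ'))) * x) :=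
      (Primrec.nat_add.comp (Primrec.const _)
        (Primrec.nat_mul.comp (Primrec.const _) Primrec.id)).to_comp
    refine (h4.comp h3).of_eq ?_
    intro n
    have e : ∀ l : List PartrecToTM2.Γ', enc (l.map (sym false)) =
        (l.map (fun a => kap (sym false a))).foldr (fun d acc => d +
          (bas (TM2to1.Γ' PartrecToTM2.K' (fun _ => PartrecToTM2.Γ'))) * acc) 0 := by
      intro l
      induction l with
      | nil => rfl
      | cons a l ih =>
        simp only [List.map_cons, enc, List.foldr_cons, ih]
    simp only [N, enc]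
    rw [e, List.map_reverse]
  · intro n
    rw [← hM n]
    apply halts_iff
    constructor
    · have := rep_enc (sym true .cons :: (trNat n).reverse.map (sym false))
      have e : (Tape.mk₁ (sym true PartrecToTM2.Γ'.cons :: (trNat n).reverse.map
          (sym false))).right₀ = ListBlank.mk (sym true .cons ::
            (trNat n).reverse.map (sym false)) := by
        unfold Tape.mk₁ Tape.mk₂
        rw [Tape.mk'_right₀]
      simp only [TM0.init, e]
      exact this
    · exact rep_zero


/-- the map from numbers to coded rules -/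
theorem exists_rules' : ∃ (m : ℕ → ℕ) (l r : ∀ k, Term (sg (m k))),
    Computable (fun k => (m k, (l k).code, (r k).code)) ∧
    (∀ k, IsRule (l k) (r k) ∧ Linear (l k) ∧ Linear (r k)) ∧
    ∀ k, ¬ Terminating (l k) (r k) ↔ (u k).Dom := by
  classical
  obtain ⟨Q, hQ, M, q0, N, hN, hU⟩ := exists_sys'
  let S := LSt (Ctl Q M.B)
  have hfin : Finite (S × Sy) := inferInstance
  let n := Nat.card (S × Sy)
  let eq : S × Sy ≃ Fin n := Finite.equivFin (S × Sy)
  let qs : S := .scan .LR
  let pr : ℕ → S × Sy := fun p => if h : p < n then eq.symm ⟨p, h⟩ else (qs, none)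
  have hsur : ∀ x, ∃ p < n, pr p = x := by
    intro x
    refine ⟨(eq x).1, (eq x).2, ?_⟩
    simp only [pr, dif_pos (eq x).2]
    exact eq.symm_apply_apply x
  have hinj : ∀ p < n, ∀ p' < n, pr p = pr p' → p = p' := by
    intro p hp p' hp' h
    simp only [pr, dif_pos hp, dif_pos hp'] at h
    have := eq.symm.injective h
    simpa using this
  have h2 : 2 ≤ n := by
    obtain ⟨p, hp, e1⟩ := hsur (qs, none)
    obtain ⟨p', hp', e2⟩ := hsur (qs, some (Tok.U, true))
    have hne : p ≠ p' := by
      rintro rfl
      rw [e1] at e2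
      simp at e2
    omega
  have hK : 0 < n + 1 := by omega
  refine ⟨fun k => ar (lowm M q0 (N k) (n + 1) hK) n, fun k => lt (lowm M q0 (N k) (n + 1) hK) n,
    fun k => rt (lowm M q0 (N k) (n + 1) hK) n pr qs, ?_, ?_, ?_⟩
  · have h1 : Primrec (fun N => ar (lowm M q0 N (n + 1) hK) n) := prim_ar M q0 (n + 1) hK n
    have h3 : Primrec (fun N => (ar (lowm M q0 N (n + 1) hK) n,
        (lt (lowm M q0 N (n + 1) hK) n).code, (rt (lowm M q0 N (n + 1) hK) n pr qs).code)) :=
      Primrec.pair h1 (Primrec.pair (prim_lt M q0 (n + 1) hK n)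
        (prim_rt M q0 (n + 1) hK n pr qs (by omega)))
    exact h3.to_comp.comp hN
  · intro k
    refine ⟨isRule h2, linear_lt ?_, linear_rt h2⟩
    have := ar_lt (A := lowm M q0 (N k) (n + 1) hK) (n := n) (i := 0) (p := 0) (by omega)
      (by omega)
    omega
  · intro k
    rw [← hU k]
    constructor
    · intro h
      by_contra hM
      exact h (terminating_of M q0 (N k) (n + 1) hK n pr qs h2 (by omega) hsur hinj hM)
    · intro h
      exact not_terminating_of M q0 (N k) (n + 1) hK n pr qs h2 (by omega) hsur hinj h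


end Pool.Agent.Y669.TA.OneRule
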