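import Pool.Agent.Helper877.Chou.Main

/-!
Extension theorems for Chou's property `P`.
-/

set_option autoImplicit false

namespace Pool.Agent.Y669.TA.Chou

open Pool.Agent.Helper877.Chou

variable {G : Type} [Group G]

/-- The subgroup `N` has tiles which are invariant under conjugation in `G`: every finite subset of
`N` is contained in a finite subset `S` of `N` for which there is a set `X ⊆ N` such that the left
translates `x S`, `x ∈ X`, are disjoint and `N = S (r X r⁻¹)` for every `r ∈ G`. -/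
def GTile (N : Subgroup G) : Prop :=
  ∀ F : Finset G, (∀ f ∈ F, f ∈ N) → ∃ (S : Finset G) (X : Set G), F ⊆ S ∧
    (∀ s ∈ S, s ∈ N) ∧ (∀ x ∈ X, x ∈ N) ∧
    (∀ x₁ ∈ X, ∀ x₂ ∈ X, x₁ ≠ x₂ → ∀ s₁ ∈ S, ∀ s₂ ∈ S, x₁ * s₁ ≠ x₂ * s₂) ∧
    ∀ r : G, ∀ n ∈ N, ∃ s ∈ S, ∃ x ∈ X, s * (r * x * r⁻¹) = n

/-- **Extension theorem.** -/
theorem propP_ext (N : Subgroup G) [N.Normal] (hN : GTile N) (hQ : PropP (G ⧸ N)) : PropP G := by
  classical
  intro F
  obtain ⟨T, Y, hFT, hT1, hT2⟩ := hQ (F.image (QuotientGroup.mk : G → G ⧸ N))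
  let σ : G ⧸ N → G := Quotient.out
  have hσ : ∀ q : G ⧸ N, (QuotientGroup.mk (σ q) : G ⧸ N) = q := fun q => QuotientGroup.out_eq' q
  obtain ⟨S', X', h1, h2, h3, h4, h5⟩ :=
    hN (F.image fun f => f * (σ (QuotientGroup.mk f))⁻¹) (by
      intro f hf
      obtain ⟨g, -, rfl⟩ := Finset.mem_image.1 hf
      rw [← QuotientGroup.eq_one_iff]
      rw [QuotientGroup.mk_mul, QuotientGroup.mk_inv, hσ, mul_inv_cancel])
  have hmk : ∀ n ∈ N, (QuotientGroup.mk n : G ⧸ N) = 1 := fun n hn =>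
    (QuotientGroup.eq_one_iff n).2 hn
  refine ⟨(S' ×ˢ T).image fun p => p.1 * σ p.2, {x | ∃ a ∈ Y, ∃ y ∈ X', x = σ a * y}, ?_, ?_, ?_⟩
  · intro f hf
    refine Finset.mem_image.2 ⟨(f * (σ (QuotientGroup.mk f))⁻¹, QuotientGroup.mk f),
      Finset.mem_product.2 ⟨h1 (Finset.mem_image.2 ⟨f, hf, rfl⟩),
        hFT (Finset.mem_image.2 ⟨f, hf, rfl⟩)⟩, ?_⟩
    simp
  · rintro x₁ ⟨a₁, ha₁, y₁, hy₁, rfl⟩ x₂ ⟨a₂, ha₂, y₂, hy₂, rfl⟩ hne s₁ hs₁ s₂ hs₂ he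
    obtain ⟨⟨u₁, t₁⟩, hp₁, rfl⟩ := Finset.mem_image.1 hs₁
    obtain ⟨⟨u₂, t₂⟩, hp₂, rfl⟩ := Finset.mem_image.1 hs₂
    obtain ⟨hu₁, ht₁⟩ := Finset.mem_product.1 hp₁
    obtain ⟨hu₂, ht₂⟩ := Finset.mem_product.1 hp₂
    simp only at hu₁ ht₁ hu₂ ht₂ he
    have e1 : a₁ * t₁ = a₂ * t₂ := by
      have := congrArg (QuotientGroup.mk : G → G ⧸ N) he
      simpa only [QuotientGroup.mk_mul, hσ, hmk _ (h3 _ hy₁), hmk _ (h3 _ hy₂), hmk _ (h2 _ hu₁),
        hmk _ (h2 _ hu₂), mul_one, one_mul] using this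
    have ea : a₁ = a₂ := by
      by_contra h
      exact hT1 a₁ ha₁ a₂ ha₂ h t₁ ht₁ t₂ ht₂ e1
    subst ea
    have et : t₁ = t₂ := mul_left_cancel e1
    subst et
    have e2 : y₁ * u₁ = y₂ * u₂ := by
      have h6 : σ a₁ * (y₁ * u₁) * σ t₁ = σ a₁ * (y₂ * u₂) * σ t₁ := by
        simpa only [mul_assoc] using he
      exact mul_left_cancel (mul_right_cancel h6)
    have ey : y₁ = y₂ := by
      by_contra h
      exact h4 y₁ hy₁ y₂ hy₂ h u₁ hu₁ u₂ hu₂ e2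
    exact hne (by rw [ey])
  · intro g
    obtain ⟨t, ht, a, ha, hta⟩ := hT2 (QuotientGroup.mk g)
    obtain ⟨u, hu, y, hy, huy⟩ := h5 (σ t * σ a) (g * (σ t * σ a)⁻¹) (by
      rw [← QuotientGroup.eq_one_iff, QuotientGroup.mk_mul, QuotientGroup.mk_inv,
        QuotientGroup.mk_mul, hσ, hσ, hta, mul_inv_cancel])
    refine ⟨u * σ t, Finset.mem_image.2 ⟨(u, t), Finset.mem_product.2 ⟨hu, ht⟩, rfl⟩, σ a * y,
      ⟨a, ha, y, hy, rfl⟩, ?_⟩
    have h6 : u * (σ t * σ a * y * (σ t * σ a)⁻¹) * (σ t * σ a) = g := by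
      rw [huy]; group
    rw [← h6]; group

/-- central subgroups -/
theorem gtile_central (N : Subgroup G) (hN : N ≤ Subgroup.center G) : GTile N := by
  classical
  intro F hF
  have hPN : PropP N := @propP_comm N
    { (inferInstance : Group N) with
      mul_comm := fun a b => Subtype.ext (by
        have := Subgroup.mem_center_iff.1 (hN b.2) a.1
        exact this) }
  obtain ⟨F', hF'⟩ : ∃ F' : Finset N, ∀ f (hf : f ∈ F), (⟨f, hF f hf⟩ : N) ∈ F' :=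
    ⟨F.attach.image (fun f : {f // f ∈ F} => (⟨f.1, hF f.1 f.2⟩ : N)), fun f hf =>
      Finset.mem_image.2 ⟨⟨f, hf⟩, Finset.mem_attach _ _, rfl⟩⟩
  obtain ⟨S, X, h1, h2, h3⟩ := hPN F'
  refine ⟨S.image Subtype.val, Subtype.val '' X, ?_, ?_, ?_, ?_, ?_⟩
  · intro f hf
    exact Finset.mem_image.2 ⟨⟨f, hF f hf⟩, h1 (hF' f hf), rfl⟩
  · intro s hs
    obtain ⟨s', -, rfl⟩ := Finset.mem_image.1 hs
    exact s'.2
  · rintro _ ⟨x', -, rfl⟩
    exact x'.2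
  · rintro _ ⟨x₁, hx₁, rfl⟩ _ ⟨x₂, hx₂, rfl⟩ hne s₁ hs₁ s₂ hs₂ he
    obtain ⟨s₁', hs₁', rfl⟩ := Finset.mem_image.1 hs₁
    obtain ⟨s₂', hs₂', rfl⟩ := Finset.mem_image.1 hs₂
    exact h2 x₁ hx₁ x₂ hx₂ (fun h => hne (by rw [h])) s₁' hs₁' s₂' hs₂' (Subtype.ext he)
  · intro r n hn
    obtain ⟨s, hs, x, hx, hsx⟩ := h3 ⟨n, hn⟩
    refine ⟨s.1, Finset.mem_image.2 ⟨s, hs, rfl⟩, x.1, ⟨x, hx, rfl⟩, ?_⟩
    have h4 := Subgroup.mem_center_iff.1 (hN x.2) r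
    rw [h4, mul_inv_cancel_right]
    exact congrArg Subtype.val hsx

/-- every finite subset of `N` embeds in a finite section `K / M` of `N` with `K` and `M` normal
in `G` -/
def GSections (N : Subgroup G) : Prop :=
  ∀ F : Finset G, (∀ f ∈ F, f ∈ N) → ∃ M K : Subgroup G, M.Normal ∧ K.Normal ∧ M ≤ K ∧ K ≤ N ∧
    (∀ f ∈ F, f ∈ K) ∧ (∀ f₁ ∈ F, ∀ f₂ ∈ F, f₁⁻¹ * f₂ ∈ M → f₁ = f₂) ∧ M.relIndex K ≠ 0

theorem gtile_sections (N : Subgroup G) [N.Normal] (hN : GSections N) : GTile N := by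
  classical
  intro F hF
  obtain ⟨M, K, hM, hK, hMK, hKN, hFK, hinj, hrel⟩ := hN F hF
  have hfin : ((K.map (QuotientGroup.mk' M) : Subgroup (G ⧸ M)) : Set (G ⧸ M)).Finite := by
    haveI : (M.subgroupOf K).FiniteIndex := ⟨hrel⟩
    haveI : Finite (K ⧸ (M.subgroupOf K)) := Subgroup.finite_quotient_of_finiteIndex
    let f : K ⧸ (M.subgroupOf K) → G ⧸ M := fun x =>
      Quotient.liftOn' x (fun k : K => ((k : G) : G ⧸ M)) (by
        intro a b hab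
        have h1 := QuotientGroup.leftRel_apply.mp hab
        rw [Subgroup.mem_subgroupOf] at h1
        exact QuotientGroup.eq.mpr h1)
    apply Set.Finite.subset (Set.finite_range f)
    rintro _ ⟨k, hk, rfl⟩
    exact ⟨((⟨k, hk⟩ : K) : K ⧸ (M.subgroupOf K)), rfl⟩
  have hsec : ∀ q : G ⧸ M, ∃ g : G, (QuotientGroup.mk g : G ⧸ M) = q ∧
      ((∃ f ∈ F, (QuotientGroup.mk f : G ⧸ M) = q) → g ∈ F) := by
    intro q
    by_cases hq : ∃ f ∈ F, (QuotientGroup.mk f : G ⧸ M) = q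
    · obtain ⟨f, hf, hfq⟩ := hq
      exact ⟨f, hfq, fun _ => hf⟩
    · exact ⟨q.out, QuotientGroup.out_eq' q, fun h => absurd h hq⟩
  choose σ hσ1 hσ2 using hsec
  have hσF : ∀ f ∈ F, σ (QuotientGroup.mk f) = f := by
    intro f hf
    have h1 : σ (QuotientGroup.mk f) ∈ F := hσ2 _ ⟨f, hf, rfl⟩
    exact hinj _ h1 _ hf (QuotientGroup.eq.1 (hσ1 _))
  have hσK : ∀ k ∈ K, σ (QuotientGroup.mk k) ∈ K := by
    intro k hk
    have h1 : (σ (QuotientGroup.mk k))⁻¹ * k ∈ M := QuotientGroup.eq.1 (hσ1 _)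
    have h2 : σ (QuotientGroup.mk k) = k * ((σ (QuotientGroup.mk k))⁻¹ * k)⁻¹ := by group
    rw [h2]
    exact K.mul_mem hk (K.inv_mem (hMK h1))
  -- representatives of the cosets of `K`
  let τ : G ⧸ K → G := fun q => q.out
  have hτ : ∀ g : G, g * (τ (QuotientGroup.mk g))⁻¹ ∈ K := by
    intro g
    have h1 : (τ (QuotientGroup.mk g))⁻¹ * g ∈ K := QuotientGroup.eq.1 (QuotientGroup.out_eq' _)
    have h2 := hK.conj_mem _ h1 (τ (QuotientGroup.mk g))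
    have h3 : τ (QuotientGroup.mk g) * ((τ (QuotientGroup.mk g))⁻¹ * g) *
        (τ (QuotientGroup.mk g))⁻¹ = g * (τ (QuotientGroup.mk g))⁻¹ := by group
    rwa [h3] at h2
  refine ⟨hfin.toFinset.image σ, {x | x ∈ N ∧ x * (τ (QuotientGroup.mk x))⁻¹ ∈ M}, ?_, ?_,
    fun x hx => hx.1, ?_, ?_⟩
  · intro f hf
    refine Finset.mem_image.2 ⟨QuotientGroup.mk f, ?_, hσF f hf⟩
    rw [Set.Finite.mem_toFinset]
    exact ⟨f, hFK f hf, rfl⟩
  · intro s hs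
    obtain ⟨q, hq, rfl⟩ := Finset.mem_image.1 hs
    rw [Set.Finite.mem_toFinset] at hq
    obtain ⟨k, hk, rfl⟩ := hq
    exact hKN (hσK k hk)
  · rintro x₁ ⟨hx₁, hm₁⟩ x₂ ⟨hx₂, hm₂⟩ hne s₁ hs₁ s₂ hs₂ he
    obtain ⟨q₁, hq₁, rfl⟩ := Finset.mem_image.1 hs₁
    obtain ⟨q₂, hq₂, rfl⟩ := Finset.mem_image.1 hs₂
    rw [Set.Finite.mem_toFinset] at hq₁ hq₂
    obtain ⟨k₁, hk₁, rfl⟩ := hq₁
    obtain ⟨k₂, hk₂, rfl⟩ := hq₂
    have hS1 : σ (QuotientGroup.mk k₁) ∈ K := hσK k₁ hk₁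
    have hS2 : σ (QuotientGroup.mk k₂) ∈ K := hσK k₂ hk₂
    simp only [QuotientGroup.mk'_apply] at he
    have e1 : (QuotientGroup.mk x₁ : G ⧸ K) = QuotientGroup.mk x₂ := by
      have := congrArg (QuotientGroup.mk : G → G ⧸ K) he
      rwa [QuotientGroup.mk_mul_of_mem _ hS1, QuotientGroup.mk_mul_of_mem _ hS2] at this
    rw [e1] at hm₁
    set ρ := τ (QuotientGroup.mk x₂) with hρ
    have e2 : ρ * (σ (QuotientGroup.mk k₁) * (σ (QuotientGroup.mk k₂))⁻¹) * ρ⁻¹ ∈ M := by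
      have h6 : ρ * (σ (QuotientGroup.mk k₁) * (σ (QuotientGroup.mk k₂))⁻¹) * ρ⁻¹ =
          (x₁ * ρ⁻¹)⁻¹ * (x₂ * ρ⁻¹) := by
        have h7 : σ (QuotientGroup.mk k₁) = x₁⁻¹ * (x₂ * σ (QuotientGroup.mk k₂)) := by
          rw [← he]; group
        rw [h7]; group
      rw [h6]
      exact M.mul_mem (M.inv_mem hm₁) hm₂
    have e3 : σ (QuotientGroup.mk k₁) * (σ (QuotientGroup.mk k₂))⁻¹ ∈ M := by
      have := hM.conj_mem _ e2 ρ⁻¹
      have h8 : ρ⁻¹ * (ρ * (σ (QuotientGroup.mk k₁) * (σ (QuotientGroup.mk k₂))⁻¹) * ρ⁻¹) *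
        ρ⁻¹⁻¹ = σ (QuotientGroup.mk k₁) * (σ (QuotientGroup.mk k₂))⁻¹ := by group
      rwa [h8] at this
    have e4 : (QuotientGroup.mk k₁ : G ⧸ M) = QuotientGroup.mk k₂ := by
      have h9 : (QuotientGroup.mk (σ (QuotientGroup.mk k₁) * (σ (QuotientGroup.mk k₂))⁻¹) :
          G ⧸ M) = 1 := (QuotientGroup.eq_one_iff _).2 e3
      rw [QuotientGroup.mk_mul, QuotientGroup.mk_inv, hσ1, hσ1, mul_inv_eq_one] at h9
      exact h9
    rw [e4] at he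
    exact hne (mul_right_cancel he)
  · intro r n hn
    let n' := r⁻¹ * n * r
    have hn' : n' ∈ N := by
      have := Subgroup.Normal.conj_mem (inferInstance : N.Normal) n hn r⁻¹
      simpa [n'] using this
    let ρ := τ (QuotientGroup.mk n')
    let k := n' * ρ⁻¹
    have hk : k ∈ K := hτ n'
    have hk' : r * k * r⁻¹ ∈ K := hK.conj_mem _ hk r
    let s := σ (QuotientGroup.mk (r * k * r⁻¹))
    have hs : s⁻¹ * (r * k * r⁻¹) ∈ M := QuotientGroup.eq.1 (hσ1 _)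
    have hsK : s ∈ K := hσK _ hk'
    refine ⟨s, Finset.mem_image.2 ⟨QuotientGroup.mk (r * k * r⁻¹), ?_, rfl⟩,
      r⁻¹ * s⁻¹ * n * r, ⟨?_, ?_⟩, ?_⟩
    · rw [Set.Finite.mem_toFinset]
      exact ⟨_, hk', rfl⟩
    · have h1 : s⁻¹ * n ∈ N := N.mul_mem (N.inv_mem (hKN hsK)) hn
      have := Subgroup.Normal.conj_mem (inferInstance : N.Normal) _ h1 r⁻¹
      simpa [mul_assoc] using this
    · have e1 : (QuotientGroup.mk (r⁻¹ * s⁻¹ * n * r) : G ⧸ K) = QuotientGroup.mk n' := by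
        have h2 : r⁻¹ * s⁻¹ * n * r = (r⁻¹ * s⁻¹ * r) * n' := by simp only [n']; group
        have h3 : r⁻¹ * s⁻¹ * r ∈ K := by
          have := hK.conj_mem _ (K.inv_mem hsK) r⁻¹
          simpa using this
        have h4 : (QuotientGroup.mk (r⁻¹ * s⁻¹ * r) : G ⧸ K) = 1 :=
          (QuotientGroup.eq_one_iff _).2 h3
        rw [h2, QuotientGroup.mk_mul, h4, one_mul]
      rw [e1]
      have h5 := hM.conj_mem _ hs r⁻¹
      have h6 : r⁻¹ * (s⁻¹ * (r * k * r⁻¹)) * r⁻¹⁻¹ = r⁻¹ * s⁻¹ * n * r * ρ⁻¹ := by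
        simp only [k, n']
        group
      rw [h6] at h5
      exact h5
    · group

/-- central extensions -/
theorem propP_central (N : Subgroup G) [N.Normal] (hN : N ≤ Subgroup.center G)
    (hQ : PropP (G ⧸ N)) : PropP G := propP_ext N (gtile_central N hN) hQ

theorem propP_sections (N : Subgroup G) [N.Normal] (hN : GSections N)
    (hQ : PropP (G ⧸ N)) : PropP G := propP_ext N (gtile_sections N hN) hQ

theorem propP_subsingleton (G : Type) [Group G] [Subsingleton G] : PropP G := by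
  apply propP_locally_finite
  intro F
  exact Finite.of_subsingleton

/-- nilpotent groups -/
theorem propP_nilpotent (G : Type) [Group G] [Group.IsNilpotent G] : PropP G := by
  refine Group.nilpotent_center_quotient_ind (P := fun G _ _ => PropP G) G ?_ ?_
  · intro G _ _
    exact propP_subsingleton G
  · intro G _ _ h
    exact propP_central (Subgroup.center G) le_rfl h

end Pool.Agent.Y669.TA.Chou
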