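import Pool.Agent.Y669.TA.Chou

/-!
Finitely generated residually finite kernels.
-/

set_option autoImplicit false

namespace Pool.Agent.Y669.TA.Chou

open Pool.Agent.Helper877.Chou

/-- the intersection of the kernels of all actions on `k` points -/
def Ck (N : Type) [Group N] (k : ℕ) : Subgroup N := ⨅ φ : N →* Equiv.Perm (Fin k), φ.ker

theorem ck_finiteIndex (N : Type) [Group N] [Group.FG N] (k : ℕ) : (Ck N k).FiniteIndex := by
  obtain ⟨S, hS, hfin⟩ := Group.fg_iff.1 (inferInstance : Group.FG N)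
  have : Finite S := hfin.to_subtype
  have : Finite (N →* Equiv.Perm (Fin k)) := by
    apply Finite.of_injective (fun (φ : N →* Equiv.Perm (Fin k)) (s : S) => φ s)
    intro φ ψ h
    apply MonoidHom.eq_of_eqOn_dense hS
    intro s hs
    exact congrFun h ⟨s, hs⟩
  exact Subgroup.finiteIndex_iInf fun φ => inferInstance

theorem ck_hom {N : Type} [Group N] {k : ℕ} (α : N →* N) {x : N} (hx : x ∈ Ck N k) :
    α x ∈ Ck N k := by
  unfold Ck at *
  rw [Subgroup.mem_iInf] at *
  intro φ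
  have := hx (φ.comp α)
  rwa [MonoidHom.mem_ker] at *

theorem ck_sep (N : Type) [Group N] [Group.ResiduallyFinite N] (x : N) (hx : x ≠ 1) :
    ∃ k, x ∉ Ck N k := by
  obtain ⟨H, hH⟩ := Group.exists_finiteIndexNormalSubgroup_notMem x hx
  have : H.toSubgroup.Normal := inferInstance
  have hf : H.toSubgroup.FiniteIndex := inferInstance
  have : Finite (N ⧸ H.toSubgroup) := Subgroup.finite_quotient_of_finiteIndex
  obtain ⟨k, ⟨e⟩⟩ := Finite.exists_equiv_fin (N ⧸ H.toSubgroup)
  refine ⟨k, fun h => hH ?_⟩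
  unfold Ck at h
  rw [Subgroup.mem_iInf] at h
  have h1 := h ((e.permCongrHom.toMonoidHom.comp (MulAction.toPermHom (N ⧸ H.toSubgroup)
    (N ⧸ H.toSubgroup))).comp (QuotientGroup.mk' H.toSubgroup))
  rw [MonoidHom.mem_ker] at h1
  have h2 : MulAction.toPermHom (N ⧸ H.toSubgroup) (N ⧸ H.toSubgroup)
      (QuotientGroup.mk' H.toSubgroup x) = 1 := by
    apply e.permCongrHom.injective
    rw [map_one]
    exact h1
  have h3 : (QuotientGroup.mk' H.toSubgroup x) = 1 := by
    have := congrArg (fun p : Equiv.Perm (N ⧸ H.toSubgroup) => p 1) h2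
    simpa using this
  exact (QuotientGroup.eq_one_iff x).1 h3

variable {G : Type} [Group G]

theorem gsections_rf (N : Subgroup G) [N.Normal] [Group.FG N] [Group.ResiduallyFinite N] :
    GSections N := by
  classical
  intro F hF
  have hk : ∀ x : N, ∃ k, x ≠ 1 → x ∉ Ck N k := by
    intro x
    by_cases hx : x = 1
    · exact ⟨0, fun h => absurd hx h⟩
    · obtain ⟨k, hk⟩ := ck_sep N x hx
      exact ⟨k, fun _ => hk⟩
  choose κ hκ using hk
  obtain ⟨C, hC⟩ : ∃ C : Subgroup N, C = ⨅ q : F × F,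
      Ck N (κ (⟨(q.1 : G), hF _ q.1.2⟩⁻¹ * ⟨(q.2 : G), hF _ q.2.2⟩)) := ⟨_, rfl⟩
  have hCf : C.FiniteIndex := by
    rw [hC]
    exact Subgroup.finiteIndex_iInf fun q => ck_finiteIndex N _
  refine ⟨C.map N.subtype, N, ⟨?_⟩, inferInstance, Subgroup.map_subtype_le C, le_rfl, hF, ?_, ?_⟩
  · rintro _ ⟨x, hx, rfl⟩ g
    refine ⟨MulAut.conjNormal g x, ?_, ?_⟩
    · have hx' : x ∈ C := hx
      rw [hC, Subgroup.mem_iInf] at hx'
      change _ ∈ C
      rw [hC, Subgroup.mem_iInf]
      intro q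
      exact ck_hom (MulAut.conjNormal g : MulAut N).toMonoidHom (hx' q)
    · simp
  · intro f₁ h₁ f₂ h₂ hf
    obtain ⟨x, hx, hxe⟩ := hf
    have hx' : x = ⟨f₁, hF _ h₁⟩⁻¹ * ⟨f₂, hF _ h₂⟩ := Subtype.ext hxe
    by_contra hne
    have h3 : x ∈ Ck N (κ (⟨f₁, hF _ h₁⟩⁻¹ * ⟨f₂, hF _ h₂⟩)) := by
      have hx2 : x ∈ C := hx
      rw [hC, Subgroup.mem_iInf] at hx2
      exact hx2 (⟨f₁, h₁⟩, ⟨f₂, h₂⟩)
    rw [hx'] at h3
    refine hκ _ ?_ h3
    intro h4
    apply hne
    have := congrArg (fun z : N => (z : G)) h4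
    exact (inv_mul_eq_one.1 this)
  · have : (C.map N.subtype).relIndex N = C.index := by
      unfold Subgroup.relIndex Subgroup.subgroupOf
      rw [Subgroup.comap_map_eq_self_of_injective (Subgroup.subtype_injective N)]
    rw [this]
    exact hCf.index_ne_zero

/-- (finitely generated residually finite)-by-`P` groups -/
theorem propP_rf_ext (N : Subgroup G) [N.Normal] [Group.FG N] [Group.ResiduallyFinite N]
    (hQ : PropP (G ⧸ N)) : PropP G := propP_sections N (gsections_rf N) hQ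

end Pool.Agent.Y669.TA.Chou
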