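import Pool.Agent.Y669.TA.Chou2

/-!
Direct products.
-/

set_option autoImplicit false

namespace Pool.Agent.Y669.TA.Chou

open Pool.Agent.Helper877.Chou

/-- finite direct products -/
theorem propP_pi_fin {ι : Type} [Finite ι] (G : ι → Type) [∀ i, Group (G i)]
    (h : ∀ i, PropP (G i)) : PropP (∀ i, G i) := by
  classical
  let _ : Fintype ι := Fintype.ofFinite ι
  intro F
  have h' := fun i => h i (F.image fun f => f i)
  choose S X h1 h2 h3 using h'
  refine ⟨Fintype.piFinset S, {x | ∀ i, x i ∈ X i}, ?_, ?_, ?_⟩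
  · intro f hf
    rw [Fintype.mem_piFinset]
    intro i
    exact h1 i (Finset.mem_image.2 ⟨f, hf, rfl⟩)
  · intro x₁ hx₁ x₂ hx₂ hne s₁ hs₁ s₂ hs₂ he
    rw [Fintype.mem_piFinset] at hs₁ hs₂
    apply hne
    funext i
    by_contra hi
    exact h2 i (x₁ i) (hx₁ i) (x₂ i) (hx₂ i) hi (s₁ i) (hs₁ i) (s₂ i) (hs₂ i) (congrFun he i)
  · intro g
    have h4 := fun i => h3 i (g i)
    choose s hs x hx hsx using h4
    refine ⟨s, Fintype.mem_piFinset.2 hs, x, hx, funext hsx⟩

/-- Subgroups of direct products which project onto all finite subproducts. -/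
theorem propP_pi {ι : Type} (G : ι → Type) [∀ i, Group (G i)] (h : ∀ i, PropP (G i))
    (H : Subgroup (∀ i, G i))
    (hH : ∀ (J : Finset ι) (x : ∀ i, G i), ∃ y ∈ H, ∀ i ∈ J, y i = x i) : PropP H := by
  classical
  apply propP_of_residually
  intro F
  -- coordinates which separate `F`
  have hsep : ∀ p : H × H, ∃ i : Option ι, p.1 ≠ p.2 → ∃ j, i = some j ∧
      (p.1 : ∀ i, G i) j ≠ (p.2 : ∀ i, G i) j := by
    intro p
    by_cases hp : p.1 = p.2
    · exact ⟨none, fun h => absurd hp h⟩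
    · have : (p.1 : ∀ i, G i) ≠ p.2 := fun h => hp (Subtype.ext h)
      obtain ⟨j, hj⟩ := Function.ne_iff.1 this
      exact ⟨some j, fun _ => ⟨j, rfl, hj⟩⟩
  choose c hc using hsep
  let J : Finset ι := ((F ×ˢ F).image c).eraseNone
  refine ⟨∀ j : J, G j, inferInstance,
    { toFun := fun y j => (y : ∀ i, G i) j
      map_one' := rfl
      map_mul' := fun _ _ => rfl }, ?_, ?_, ?_⟩
  · intro x
    obtain ⟨y, hy, hyx⟩ := hH J (fun i => if hi : i ∈ J then x ⟨i, hi⟩ else 1)
    refine ⟨⟨y, hy⟩, ?_⟩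
    funext j
    have := hyx j j.2
    simpa using this
  · intro a ha b hb hab
    by_contra hne
    obtain ⟨j, hj, hj2⟩ := hc (a, b) hne
    apply hj2
    have hJ : j ∈ J := by
      rw [Finset.mem_eraseNone]
      exact Finset.mem_image.2 ⟨(a, b), Finset.mem_product.2 ⟨ha, hb⟩, hj⟩
    exact congrFun hab ⟨j, hJ⟩
  · exact propP_pi_fin (fun j : J => G j) fun j => h j

end Pool.Agent.Y669.TA.Chou
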