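import Pool.Agent.Y669.TA.Chou3

/-!
Wreath products.
-/

set_option autoImplicit false

namespace Pool.Agent.Y669.TA.Chou

open Pool.Agent.Helper877.Chou

/-- The functions `Q → A` with finite support. -/
def Fs (Q A : Type) [CommGroup A] : Subgroup (Q → A) where
  carrier := {x | {i | x i ≠ 1}.Finite}
  one_mem' := by simp
  mul_mem' := by
    intro x y hx hy
    refine (hx.union hy).subset ?_
    intro i hi
    by_contra h
    simp only [Set.mem_union, Set.mem_ofPred_eq, not_or, not_not] at h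
    exact hi (by simp [h.1, h.2])
  inv_mem' := by
    intro x hx
    refine Set.Finite.subset hx ?_
    intro i hi
    simpa using hi

theorem propP_equiv {G H : Type} [Group G] [Group H] (e : G ≃* H) (h : PropP H) : PropP G := by
  apply propP_of_residually
  intro F
  exact ⟨H, inferInstance, e.toMonoidHom, e.surjective, e.injective.injOn, h⟩

section

variable {Q A : Type} [Group Q] [CommGroup A]

/-- the class products -/
noncomputable def Ph (cl : Q → Q) (n : Fs Q A) (t : Q) : A := by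
  classical
  exact ∏ᶠ q, if cl q = t then (n : Q → A) q else 1

theorem ph_mul (cl : Q → Q) (n m : Fs Q A) (t : Q) : Ph cl (n * m) t = Ph cl n t * Ph cl m t := by
  classical
  unfold Ph
  have hf : ∀ n : Fs Q A, (Function.mulSupport fun q => if cl q = t then (n : Q → A) q else 1).Finite := by
    intro n
    refine Set.Finite.subset n.2 ?_
    intro q hq
    rw [Function.mem_mulSupport] at hq
    intro h
    apply hq
    have h' : (n : Q → A) q = 1 := h
    simp [h']
  rw [← finprod_mul_distrib (hf n) (hf m)]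
  congr 1
  funext q
  by_cases h : cl q = t
  · simp [h]
  · simp [h]

theorem ph_inv (cl : Q → Q) (n : Fs Q A) (t : Q) : Ph cl n⁻¹ t = (Ph cl n t)⁻¹ := by
  rw [eq_inv_iff_mul_eq_one, ← ph_mul, inv_mul_cancel]
  unfold Ph
  simp

theorem ph_single (cl : Q → Q) (n : Fs Q A) (t p : Q) (hp : cl p = t)
    (h : ∀ q, cl q = t → q ≠ p → (n : Q → A) q = 1) : Ph cl n t = (n : Q → A) p := by
  classical
  unfold Ph
  rw [finprod_eq_single _ p]
  · simp [hp]
  · intro q hq
    by_cases hq2 : cl q = t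
    · simp [hq2, h q hq2 hq]
    · simp [hq2]

theorem gtile_wreath {G : Type} [Group G] (π : G →* Q) (ι : Fs Q A →* G)
    (hι : Function.Injective ι) (hex : ι.range = π.ker)
    (hact : ∀ (r : G) (f f' : Fs Q A), (∀ q, (f' : Q → A) q = (f : Q → A) ((π r)⁻¹ * q)) →
      r * ι f * r⁻¹ = ι f') (hQ : PropP Q) : GTile π.ker := by
  classical
  intro F hF
  have hc : ∀ f : G, ∃ n : Fs Q A, f ∈ π.ker → ι n = f := by
    intro f
    by_cases hf : f ∈ π.ker
    · rw [← hex] at hf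
      obtain ⟨n, hn⟩ := hf
      exact ⟨n, fun _ => hn⟩
    · exact ⟨1, fun h => absurd h hf⟩
  choose c hc using hc
  have hU : ({q : Q | ∃ f ∈ F, (c f : Q → A) q ≠ 1}).Finite := by
    have : {q : Q | ∃ f ∈ F, (c f : Q → A) q ≠ 1} =
        ⋃ f ∈ (F : Set G), {q | (c f : Q → A) q ≠ 1} := by
      ext q; simp
    rw [this]
    exact F.finite_toSet.biUnion fun f _ => (c f).2
  obtain ⟨T, Y, hT, hTY, hYT⟩ := (propP_iff Q).1 hQ (hU.toFinset.image fun q => q⁻¹)
  -- the classes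
  have hcl : ∀ q : Q, ∃ t ∈ T, t⁻¹ * q ∈ Y := by
    intro q
    obtain ⟨⟨t, y⟩, ⟨ht, hy, hty⟩, -⟩ := hTY q
    refine ⟨t, ht, ?_⟩
    simp only at ht hy hty
    rw [← hty, inv_mul_cancel_left]
    exact hy
  choose cl hclT hclY using hcl
  have hclu : ∀ q t : Q, t ∈ T → t⁻¹ * q ∈ Y → cl q = t := by
    intro q t ht hy
    have h1 := (hTY q).unique (y₁ := (cl q, (cl q)⁻¹ * q)) (y₂ := (t, t⁻¹ * q))
      ⟨hclT q, hclY q, by simp⟩ ⟨ht, hy, by simp⟩
    exact congrArg Prod.fst h1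
  let E : Finset Q := T.image fun t => t⁻¹
  -- the points of `b E` in the classes
  have hpt : ∀ b t : Q, ∃ e : Q, t ∈ T → (e ∈ E ∧ cl (b * e) = t ∧
      ∀ e' ∈ E, cl (b * e') = t → e' = e) := by
    intro b t
    by_cases ht : t ∈ T
    · obtain ⟨⟨y, u⟩, ⟨hy, hu, hyu⟩, -⟩ := hYT (t⁻¹ * b)
      simp only at hy hu hyu
      refine ⟨u⁻¹, fun _ => ⟨Finset.mem_image.2 ⟨u, hu, rfl⟩, ?_, ?_⟩⟩
      · apply hclu _ _ ht
        have : t⁻¹ * (b * u⁻¹) = y := by rw [← mul_assoc, ← hyu]; group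
        rw [this]; exact hy
      · intro e' he' hcl'
        obtain ⟨u', hu', rfl⟩ := Finset.mem_image.1 he'
        have h1 := hclY (b * u'⁻¹)
        rw [hcl'] at h1
        have h2 := (hYT (t⁻¹ * b)).unique (y₁ := (y, u)) (y₂ := (t⁻¹ * (b * u'⁻¹), u'))
          ⟨hy, hu, hyu⟩ ⟨h1, hu', by simp only; group⟩
        have h3 : u = u' := congrArg Prod.snd h2
        rw [h3]
    · exact ⟨1, fun h => absurd h ht⟩
  choose e he using hpt
  -- the tile of `A`
  obtain ⟨SA, XA, hV, hSX, hXS⟩ := (propP_iff A).1 (propP_comm A)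
    (insert 1 ((F ×ˢ E).image fun p => (c p.1 : Q → A) p.2))
  let ex : (E → SA) → Fs Q A := fun g =>
    ⟨fun q => if h : q ∈ E then (g ⟨q, h⟩ : A) else 1, by
      refine E.finite_toSet.subset ?_
      intro q hq
      by_contra h
      have h' : q ∉ E := h
      exact hq (by simp [h'])⟩
  have exE : ∀ (g : E → SA) (q : Q) (h : q ∈ E), (ex g : Q → A) q = g ⟨q, h⟩ := by
    intro g q h
    simp [ex, h]
  have exN : ∀ (g : E → SA) (q : Q), q ∉ E → (ex g : Q → A) q = 1 := by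
    intro g q h
    simp [ex, h]
  refine ⟨Finset.univ.image fun g : E → SA => ι (ex g),
    {x | ∃ n : Fs Q A, x = ι n ∧ ∀ t ∈ T, Ph cl n t ∈ XA}, ?_, ?_, ?_, ?_, ?_⟩
  · intro f hf
    have hgA : ∀ q : E, (c f : Q → A) q ∈ SA := fun q => hV (Finset.mem_insert_of_mem
      (Finset.mem_image.2 ⟨(f, q.1), Finset.mem_product.2 ⟨hf, q.2⟩, rfl⟩))
    obtain ⟨g, hg⟩ : ∃ g : E → SA, ∀ q : E, (g q : A) = (c f : Q → A) q :=
      ⟨fun q => ⟨_, hgA q⟩, fun _ => rfl⟩
    have hgf : ex g = c f := by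
      apply Subtype.ext
      funext q
      by_cases hq : q ∈ E
      · rw [exE g q hq, hg]
      · rw [exN g q hq]
        by_contra h1
        apply hq
        have h2 : q ∈ {q : Q | ∃ f ∈ F, (c f : Q → A) q ≠ 1} := ⟨f, hf, fun h => h1 h.symm⟩
        refine Finset.mem_image.2 ⟨q⁻¹, hT (Finset.mem_image.2 ⟨q, ?_, rfl⟩), inv_inv q⟩
        rwa [Set.Finite.mem_toFinset]
    exact Finset.mem_image.2 ⟨g, Finset.mem_univ _, (congrArg ι hgf).trans (hc f (hF f hf))⟩
  · intro s hs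
    obtain ⟨g, -, rfl⟩ := Finset.mem_image.1 hs
    rw [← hex]
    exact ⟨_, rfl⟩
  · rintro x ⟨n, rfl, -⟩
    rw [← hex]
    exact ⟨_, rfl⟩
  · rintro x₁ ⟨n₁, rfl, hn₁⟩ x₂ ⟨n₂, rfl, hn₂⟩ hne s₁ hs₁ s₂ hs₂ heq
    obtain ⟨g₁, -, rfl⟩ := Finset.mem_image.1 hs₁
    obtain ⟨g₂, -, rfl⟩ := Finset.mem_image.1 hs₂
    rw [← map_mul, ← map_mul] at heq
    have h1 : n₁ * ex g₁ = n₂ * ex g₂ := hι heq
    have hphi : ∀ (g : E → SA) (t : Q), t ∈ T → ∃ h : e 1 t ∈ E, Ph cl (ex g) t = g ⟨e 1 t, h⟩ := by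
      intro g t ht
      obtain ⟨a1, a2, a3⟩ := he 1 t ht
      refine ⟨a1, ?_⟩
      rw [← exE g (e 1 t) a1]
      apply ph_single
      · simpa using a2
      · intro q hq hq2
        apply exN
        intro hqE
        exact hq2 (a3 q hqE (by simpa using hq))
    have h2 : ex g₁ = ex g₂ := by
      apply Subtype.ext
      funext q
      by_cases hq : q ∈ E
      · have ht := hclT q
        obtain ⟨a1, a2, a3⟩ := he 1 (cl q) ht
        have hqe : q = e 1 (cl q) := a3 q hq (by simp)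
        obtain ⟨b1, b2⟩ := hphi g₁ (cl q) ht
        obtain ⟨b3, b4⟩ := hphi g₂ (cl q) ht
        have h3 := congrArg (fun n => Ph cl n (cl q)) h1
        simp only [ph_mul, b2, b4] at h3
        have h4 := (hXS (Ph cl n₁ (cl q) * g₁ ⟨e 1 (cl q), b1⟩)).unique
          (y₁ := (Ph cl n₁ (cl q), (g₁ ⟨e 1 (cl q), b1⟩ : A)))
          (y₂ := (Ph cl n₂ (cl q), (g₂ ⟨e 1 (cl q), b1⟩ : A)))
          ⟨hn₁ _ ht, (g₁ _).2, rfl⟩ ⟨hn₂ _ ht, (g₂ _).2, h3.symm⟩
        have h5 := congrArg Prod.snd h4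
        simp only at h5
        rw [exE g₁ q hq, exE g₂ q hq]
        have h6 : (⟨q, hq⟩ : E) = ⟨e 1 (cl q), b1⟩ := Subtype.ext hqe
        rw [h6]
        exact h5
      · rw [exN _ q hq, exN _ q hq]
    rw [h2] at h1
    exact hne (by rw [mul_right_cancel h1])
  · intro r n hn
    rw [← hex] at hn
    obtain ⟨ν, rfl⟩ := hn
    let b : Q := (π r)⁻¹
    -- translates
    have htr : ∀ f : Fs Q A, ∃ f' : Fs Q A, (∀ q, (f' : Q → A) q = (f : Q → A) (b⁻¹ * q)) := by
      intro f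
      refine ⟨⟨fun q => (f : Q → A) (b⁻¹ * q), ?_⟩, fun q => rfl⟩
      have : {i | (f : Q → A) (b⁻¹ * i) ≠ 1} = (fun q => b⁻¹ * q) ⁻¹' {i | (f : Q → A) i ≠ 1} := rfl
      refine Set.Finite.preimage ?_ f.2
      exact (mul_right_injective b⁻¹).injOn
    obtain ⟨ν', hν'⟩ := htr ν
    have hν2 : r⁻¹ * ι ν * r = ι ν' := by
      have := hact r⁻¹ ν ν' (fun q => by rw [hν' q]; simp [b])
      simpa using this
    have hs : ∀ t : Q, ∃ s : SA, (s : A)⁻¹ * Ph cl ν' t ∈ XA := by
      intro t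
      obtain ⟨⟨s, x⟩, ⟨hs, hx, hsx⟩, -⟩ := hSX (Ph cl ν' t)
      simp only at hs hx hsx
      refine ⟨⟨s, hs⟩, ?_⟩
      simp only
      rw [← hsx, inv_mul_cancel_left]
      exact hx
    choose s hs using hs
    let g : E → SA := fun q => s (cl (b * q))
    obtain ⟨σ', hσ'⟩ := htr (ex g)
    have hσ2 : r⁻¹ * ι (ex g) * r = ι σ' := by
      have := hact r⁻¹ (ex g) σ' (fun q => by rw [hσ' q]; simp [b])
      simpa using this
    refine ⟨ι (ex g), Finset.mem_image.2 ⟨g, Finset.mem_univ _, rfl⟩, ι (σ'⁻¹ * ν'),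
      ⟨σ'⁻¹ * ν', rfl, ?_⟩, ?_⟩
    · intro t ht
      obtain ⟨a1, a2, a3⟩ := he b t ht
      have h1 : Ph cl σ' t = s t := by
        rw [ph_single cl σ' t (b * e b t) a2]
        · rw [hσ', inv_mul_cancel_left, exE g _ a1]
          simp only [g]
          rw [a2]
        · intro q hq hq2
          rw [hσ']
          apply exN
          intro hqE
          have h2 := a3 (b⁻¹ * q) hqE (by rw [mul_inv_cancel_left]; exact hq)
          apply hq2
          rw [← h2, mul_inv_cancel_left]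
      rw [ph_mul, ph_inv, h1]
      exact hs t
    · have h3 : ι (ex g) = r * ι σ' * r⁻¹ := by rw [← hσ2]; group
      have h4 : ι ν = r * ι ν' * r⁻¹ := by rw [← hν2]; group
      rw [h3, h4, map_mul, map_inv]
      group

/-- extensions of a group with `P` by the restricted direct power of an abelian group with the
regular action -/
theorem propP_wreath {G : Type} [Group G] (π : G →* Q) (hπ : Function.Surjective π)
    (ι : Fs Q A →* G) (hι : Function.Injective ι) (hex : ι.range = π.ker)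
    (hact : ∀ (r : G) (f f' : Fs Q A), (∀ q, (f' : Q → A) q = (f : Q → A) ((π r)⁻¹ * q)) →
      r * ι f * r⁻¹ = ι f') (hQ : PropP Q) : PropP G :=
  propP_ext π.ker (gtile_wreath π ι hι hex hact hQ)
    (propP_equiv (QuotientGroup.quotientKerEquivOfSurjective π hπ) hQ)

end

end Pool.Agent.Y669.TA.Chou
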