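import Pool.Agent.Helper180.ArithDef
import Pool.Agent.Y669.TA.Arith

/-! Arithmetical sets belong to every class of predicates closed under definability. -/

namespace Pool.Agent.Y669.TA.DC180

open Pool.Agent.Helper180.ArithDef Pool.Agent.Y669.TA

theorem dc_arith {D : ((ℕ → ℕ) → Prop) → Prop} (h : DC D) {A : ℕ → Prop}
    (hA : Arithmetical A) : D (fun w => A (w 0)) := by
  induction hA with
  | comp p hp =>
    obtain ⟨g, hg, rfl⟩ := ComputablePred.computable_iff.1 hp
    have hf : Nat.Partrec (fun n => ((if g n = true then 0 else 1 : ℕ) : Part ℕ)) := by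
      have h1 : Computable (fun n => if g n = true then 0 else 1) :=
        (Computable.cond hg (Computable.const 0) (Computable.const 1)).of_eq
          (fun n => by cases g n <;> rfl)
      exact Partrec.nat_iff.1 h1
    refine h.iff (fun w => ?_) (h.app2
      (R := fun x y => y ∈ ((if g x = true then 0 else 1 : ℕ) : Part ℕ)) (h.partrec hf)
      (h.tvar 0) h.tzero)
    by_cases hg0 : g (w 0) = true <;> simp [hg0]
  | compl p _ ih => exact h.not ih
  | inter p q _ _ ih1 ih2 => exact h.and ih1 ih2
  | proj p _ ih =>
    exact h.ex' (S := fun a w => p (Nat.pair (w 0) a))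
      (h.app1 (R := p) ih (h.tpair (h.tvar 1) (h.tvar 0)))

end Pool.Agent.Y669.TA.DC180
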