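import Pool.Agent.H476R3.DiagCode3
import Pool.Agent.Y669.TA.SysU

/-!
Diagram groups over one fixed presentation: trivial or infinite cyclic.
-/

set_option autoImplicit false

namespace Pool.Agent.Y669.TA.DiagFix

open Pool.Agent.H476R3.Diag

universe u

variable {α : Type u} {R : Set (List α × List α)} {w : List α}

theorem sgn_pinv (L : List (Edge α)) : sgn (pinv L) = - sgn L := by
  induction L with
  | nil => rfl
  | cons e L ih =>
    rw [pinv_cons, sgn_append, ih, sgn_cons, sgn_cons]
    rcases e with ⟨a, r, b, f⟩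
    cases f <;> simp [Edge.inv, sgn]

/-- the signed length as a homomorphism -/
def sg : DiagramGroup R w →* Multiplicative ℤ where
  toFun := Quotient.lift (fun L : Loop R w => Multiplicative.ofAdd (sgn L.1))
    (fun _ _ h => congrArg Multiplicative.ofAdd (Htpy.sgn_eq h))
  map_one' := rfl
  map_mul' := by
    intro x y
    induction x using Quotient.inductionOn
    induction y using Quotient.inductionOn
    rename_i x y
    change Multiplicative.ofAdd (sgn (x.1 ++ y.1)) = _
    rw [sgn_append]
    rfl

theorem sg_mk (L : Loop R w) : sg (DiagramGroup.mk L) = Multiplicative.ofAdd (sgn L.1) := rfl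

/-- powers of a loop -/
theorem mk_conj_pow {z : List α} {A Z : List (Edge α)} (hA : IsPath R w A z)
    (hZ : IsPath R z Z z) (m : ℕ) :
    ∃ h : IsPath R w (A ++ (List.replicate m Z).flatten ++ pinv A) w,
      DiagramGroup.mk ⟨_, h⟩ =
        (DiagramGroup.mk ⟨A ++ Z ++ pinv A, (hA.append hZ).append hA.pinv⟩ : DiagramGroup R w) ^ m := by
  have hpow : ∀ k : ℕ, IsPath R z (List.replicate k Z).flatten z := by
    intro k
    induction k with
    | zero => exact isPath_nil.2 rfl
    | succ k ih =>
      rw [List.replicate_succ, List.flatten_cons]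
      exact hZ.append ih
  induction m with
  | zero =>
    refine ⟨(hA.append (hpow 0)).append hA.pinv, ?_⟩
    rw [pow_zero, DiagramGroup.mk_one, DiagramGroup.mk_eq]
    simpa using htpy_mul_pinv hA
  | succ m ih =>
    obtain ⟨h, e⟩ := ih
    refine ⟨(hA.append (hpow (m + 1))).append hA.pinv, ?_⟩
    rw [pow_succ', ← e, DiagramGroup.mk_mul, DiagramGroup.mk_eq]
    simp only
    have h1 : Htpy R z z (pinv A ++ A) [] := htpy_pinv_mul hA
    have h2 : Htpy R w w ((A ++ Z) ++ ((pinv A ++ A) ++ ((List.replicate m Z).flatten ++ pinv A)))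
        ((A ++ Z) ++ ([] ++ ((List.replicate m Z).flatten ++ pinv A))) :=
      (h1.append_right ((hpow m).append hA.pinv)).append_left (hA.append hZ)
    have h3 := Htpy.symm _ _ h2
    simpa [List.replicate_succ, List.append_assoc] using h3

variable {Valid : List α → Prop}

/-- If a forward path leads from the base point to a forward cycle, then the diagram group is
infinite cyclic. -/
theorem cyclic (D : Det R Valid) (hw : Valid w) {z : List α} {A Z : List (Edge α)}
    (hA : FPath R w A z) (hZ : FPath R z Z z) (hne : Z ≠ []) :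
    Nonempty (DiagramGroup R w ≃* Multiplicative ℤ) := by
  classical
  have hz : Valid z := D.path hA.1 hw
  -- a shortest cycle at z
  have hex : ∃ n : ℕ, ∃ Z' : List (Edge α), Z' ≠ [] ∧ FPath R z Z' z ∧ Z'.length = n :=
    ⟨_, Z, hne, hZ, rfl⟩
  obtain ⟨Z0, hZ0, hZp, hZl⟩ := Nat.find_spec hex
  have hmin : ∀ Y : List (Edge α), Y ≠ [] → FPath R z Y z → Z0.length ≤ Y.length := by
    intro Y hY hY2
    rw [hZl]
    exact Nat.find_min' hex ⟨Y, hY, hY2, rfl⟩
  have hcyc : ∀ (n : ℕ) (Y : List (Edge α)), Y.length ≤ n → FPath R z Y z →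
      ∃ j : ℕ, Y = (List.replicate j Z0).flatten := by
    intro n
    induction n with
    | zero =>
      intro Y hY _
      exact ⟨0, by simpa using hY⟩
    | succ n ih =>
      intro Y hY hY2
      by_cases h0 : Y = []
      · exact ⟨0, by simpa using h0⟩
      · obtain ⟨Y', hY'⟩ := D.nested hZp hY2 hz (hmin Y h0 hY2)
        subst hY'
        obtain ⟨z', q1, q2⟩ := isPath_append.1 hY2.1
        have : z' = z := q1.tgt_unique hZp.1
        subst this
        have hl : 1 ≤ Z0.length := List.length_pos_iff.2 hZ0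
        obtain ⟨j, hj⟩ := ih Y' (by simp at hY; omega)
          ⟨q2, fun e he => hY2.2 e (List.mem_append_right _ he)⟩
        exact ⟨j + 1, by rw [List.replicate_succ, List.flatten_cons, ← hj]⟩
  have hpow : ∀ k : ℕ, FPath R z (List.replicate k Z0).flatten z := by
    intro k
    induction k with
    | zero => exact FPath.nil _
    | succ k ih =>
      rw [List.replicate_succ, List.flatten_cons]
      exact hZp.append ih
  have hlen : ∀ k : ℕ, k ≤ (List.replicate k Z0).flatten.length := by
    intro k
    have : 1 ≤ Z0.length := List.length_pos_iff.2 hZ0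
    simp only [List.length_flatten, List.map_replicate, List.sum_replicate, smul_eq_mul]
    nlinarith
  -- the generator
  let g : DiagramGroup R w :=
    DiagramGroup.mk ⟨A ++ Z0 ++ pinv A, (hA.1.append hZp.1).append hA.1.pinv⟩
  have hsurj : ∀ x : DiagramGroup R w, ∃ k : ℤ, x = g ^ k := by
    intro x
    obtain ⟨L, rfl⟩ := DiagramGroup.exists_rep x
    obtain ⟨y, C, B, h1, h2, h3⟩ := D.claim hw L.1 w w w [] [] L.2 (FPath.nil w) (FPath.nil w)
    simp only [pinv_nil, List.append_nil, List.nil_append] at h3
    -- extend both paths to `z`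
    let m := C.length + A.length
    have hAm : FPath R w (A ++ (List.replicate m Z0).flatten) z := hA.append (hpow m)
    have hlm := hlen m
    obtain ⟨T, hT⟩ := D.nested h1 hAm hw (by simp only [List.length_append]; omega)
    have hTp : FPath R y T z := by
      have h4 := hAm.1
      rw [hT] at h4
      obtain ⟨y', q1, q2⟩ := isPath_append.1 h4
      have : y' = y := q1.tgt_unique h1.1
      subst this
      exact ⟨q2, fun e he => hAm.2 e (by rw [hT]; exact List.mem_append_right _ he)⟩
    have hTl : A.length ≤ T.length := by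
      have := congrArg List.length hT
      simp only [List.length_append] at this
      omega
    have hBT : FPath R w (B ++ T) z := h2.append hTp
    obtain ⟨Y, hY⟩ := D.nested hA hBT hw (by simp only [List.length_append]; omega)
    have hYp : FPath R z Y z := by
      have h4 := hBT.1
      rw [hY] at h4
      obtain ⟨z', q1, q2⟩ := isPath_append.1 h4
      have : z' = z := q1.tgt_unique hA.1
      subst this
      exact ⟨q2, fun e he => hBT.2 e (by rw [hY]; exact List.mem_append_right _ he)⟩
    obtain ⟨j, hj⟩ := hcyc _ Y le_rfl hYp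
    obtain ⟨p1, e1⟩ := mk_conj_pow hA.1 hZp.1 m
    obtain ⟨p2, e2⟩ := mk_conj_pow hA.1 hZp.1 j
    refine ⟨(m : ℤ) - j, ?_⟩
    rw [zpow_sub, zpow_natCast, zpow_natCast]
    change _ = g ^ m * (g ^ j)⁻¹
    rw [← e1, ← e2, DiagramGroup.mk_inv, DiagramGroup.mk_mul, DiagramGroup.mk_eq]
    simp only
    refine Htpy.trans _ _ _ h3 (Htpy.symm _ _ ?_)
    -- (A Zᵐ A⁻¹)(A Zʲ A⁻¹)⁻¹ ~ A Zᵐ (A Zʲ)⁻¹ = C T (B T)⁻¹ ~ C B⁻¹
    have s1 : Htpy R w w ((A ++ (List.replicate m Z0).flatten) ++ ((pinv A ++ A) ++
        pinv (A ++ (List.replicate j Z0).flatten)))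
        ((A ++ (List.replicate m Z0).flatten) ++ ([] ++
          pinv (A ++ (List.replicate j Z0).flatten))) :=
      ((htpy_pinv_mul hA.1).append_right (hA.append (hpow j)).1.pinv).append_left hAm.1
    have s2 : Htpy R w w (C ++ ((T ++ pinv T) ++ pinv B)) (C ++ ([] ++ pinv B)) :=
      ((htpy_mul_pinv hTp.1).append_right h2.1.pinv).append_left h1.1
    have t1 : A ++ (List.replicate m Z0).flatten ++ pinv A ++
        pinv (A ++ (List.replicate j Z0).flatten ++ pinv A) =
        (A ++ (List.replicate m Z0).flatten) ++ ((pinv A ++ A) ++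
        pinv (A ++ (List.replicate j Z0).flatten)) := by
      simp [List.append_assoc]
    have t2 : (A ++ (List.replicate m Z0).flatten) ++ ([] ++
          pinv (A ++ (List.replicate j Z0).flatten)) = C ++ ((T ++ pinv T) ++ pinv B) := by
      rw [hT, ← hj, ← hY]
      simp [List.append_assoc]
    rw [t1]
    refine Htpy.trans _ _ _ s1 ?_
    rw [t2]
    simpa using s2
  have hsg : ∀ k : ℤ, sg (g ^ k) = Multiplicative.ofAdd (k * (Z0.length : ℤ)) := by
    intro k
    rw [map_zpow]
    have : sg g = Multiplicative.ofAdd (Z0.length : ℤ) := by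
      rw [sg_mk]
      congr 1
      simp only [sgn_append, sgn_pinv, hZp.sgn_eq]
      ring
    rw [this, ← ofAdd_zsmul, smul_eq_mul]
  refine ⟨(MulEquiv.ofBijective (zpowersHom _ g) ⟨?_, ?_⟩).symm⟩
  · rw [injective_iff_map_eq_one]
    intro k hk
    have h1 := hsg (Multiplicative.toAdd k)
    have h2 : g ^ (Multiplicative.toAdd k) = 1 := hk
    rw [h2, map_one] at h1
    have h3 : (Multiplicative.toAdd k) * (Z0.length : ℤ) = 0 := (Multiplicative.ofAdd.injective h1).symm
    have h4 : (Z0.length : ℤ) ≠ 0 := by
      have : 1 ≤ Z0.length := List.length_pos_iff.2 hZ0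
      omega
    have h5 := (mul_eq_zero.1 h3).resolve_right h4
    exact Multiplicative.toAdd.injective h5
  · intro x
    obtain ⟨k, hk⟩ := hsurj x
    exact ⟨Multiplicative.ofAdd k, hk.symm⟩

end Pool.Agent.Y669.TA.DiagFix
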