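import Pool.Agent.Y669.TA.DiagFix

/-!
One fixed presentation, the base word is the input.
-/

set_option autoImplicit false

namespace Pool.Agent.Y669.TA.DiagFix

open Pool.Agent.H476R3.Diag Pool.Agent.H476R3.DiagMach
open Pool.Agent.Helper599.Core Pool.Agent.Helper599.Source

/-- One fixed finite semigroup presentation; every r.e. set is reduced to the nontriviality of its
diagram groups, which are trivial or infinite cyclic. -/
theorem exists_fixed : ∃ (k : ℕ) (R : List (List ℕ × List ℕ)),
    (∀ r ∈ R, r.1 ≠ [] ∧ r.2 ≠ [] ∧ (∀ x ∈ r.1, x < k) ∧ (∀ x ∈ r.2, x < k)) ∧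
    ∀ W : ℕ → Prop, REPred W → ∃ f : ℕ → List ℕ, Computable f ∧
      (∀ n, f n ≠ [] ∧ ∀ x ∈ f n, x < k) ∧
      (∀ n, W n → Nonempty (DiagramGroup {r | r ∈ R} (f n) ≃* Multiplicative ℤ)) ∧
      (∀ n, ¬ W n → Subsingleton (DiagramGroup {r | r ∈ R} (f n))) := by
  classical
  obtain ⟨Q, hQ, M, q0, ⟨N0, hN0⟩, hW⟩ := Pool.Agent.Y669.TA.SysU.exists_sys_re
  have hfin := sym_finite Q M.B
  obtain ⟨k, ⟨e⟩⟩ := Finite.exists_equiv_fin (Pool.Agent.H476R3.DiagMach.Sym Q M.B)
  let code : Pool.Agent.H476R3.DiagMach.Sym Q M.B → ℕ := fun s => (e s : ℕ)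
  have hc : Function.Injective code := fun s t h => e.injective (Fin.ext h)
  have hk : ∀ s, code s < k := fun s => (e s).2
  let F : List (List ℕ × List ℕ) := (fixedSet_finite M q0 code).toFinset.toList
  have hF : ∀ ρ, ρ ∈ F ↔ ρ ∈ fixedSet M q0 code := by
    intro ρ
    simp [F]
  have hR : {ρ | ρ ∈ inp M q0 code N0 :: F} = rels M q0 N0 code := rels_eq M q0 code N0 F hF
  refine ⟨k, inp M q0 code N0 :: F, ?_, ?_⟩
  · intro r hr
    have hr' : r ∈ rels M q0 N0 code := by
      rw [← hR]
      exact hr
    obtain ⟨s, y, w, h, rfl⟩ := hr'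
    refine ⟨?_, ?_, ?_, ?_⟩
    · unfold lhs
      split_ifs <;> simp
    · intro h0
      have h1 := (δ_act N0 s y w h).2.2
      have h2 : w = [] := by simpa using h0
      rw [h2] at h1
      simp at h1
    · intro x hx
      obtain ⟨t, -, rfl⟩ := List.mem_map.1 hx
      exact hk t
    · intro x hx
      obtain ⟨t, -, rfl⟩ := List.mem_map.1 hx
      exact hk t
  · intro W hWre
    obtain ⟨N, hN, hNW⟩ := hW W hWre
    rw [hR]
    have hcfg : ∀ N' : ℕ, (cfg M q0 (ini N') 0).map code =
        [code .dol, code (.R q0 (z0 M))] ++ (List.range N').map (fun _ => code .one) ++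
          [code .hsh, code .pct] := by
      intro N'
      rw [replicate_eq]
      simp [cfg, ini]
    refine ⟨fun n => (cfg M q0 (ini (N n)) 0).map code, ?_, ?_, ?_, ?_⟩
    · have h1 : Computable fun N' : ℕ =>
          [code .dol, code (.R q0 (z0 M))] ++ (List.range N').map (fun _ => code .one) ++
          [code .hsh, code .pct] := by
        apply Primrec.to_comp
        refine Primrec.list_append.comp (Primrec.list_append.comp (Primrec.const _) ?_)
          (Primrec.const _)
        exact Primrec.list_map Primrec.list_range (Primrec.const _).to₂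
      exact (h1.comp hN).of_eq fun n => (hcfg (N n)).symm
    · intro n
      refine ⟨by simp [cfg], ?_⟩
      intro x hx
      obtain ⟨t, -, rfl⟩ := List.mem_map.1 hx
      exact hk t
    all_goals
      intro n hn
      have hv : Valid M code ((cfg M q0 (ini (N n)) 0).map code) := by
        unfold Valid
        rw [countP_map hc]
        simp [cfg, Pool.Agent.H476R3.DiagMach.Sym.act, List.countP_cons, List.countP_append, List.countP_replicate]
      have hD := det (M := M) (q0 := q0) (N := N0) hc
    · -- the machine stops: a cycle through `X %` is reached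
      obtain ⟨e1, he1⟩ := ts_fpath (code := code) (start_step (M := M) (q0 := q0) N0)
      obtain ⟨L1, hL1⟩ := rt_fpath (code := code)
        (halts_reach (q0 := q0) (N := N0) hN0 q0 rfl 0)
      obtain ⟨L, hL⟩ := rt_fpath (code := code)
        (halts_reach (q0 := q0) (N := N0) ((hNW n).2 hn) q0 rfl 0)
      exact cyclic hD hv hL (he1.append hL1) (by simp)
    · -- the machine runs forever
      have hh : ¬ M.Halts (some q0) (ini (N n)) := fun h => hn ((hNW n).1 h)
      have h1 := hD.trivial hv (hD.no_cycle hv (fun v => v.count (code .clk)) (by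
        intro K
        obtain ⟨q, m, -, h2⟩ := not_halts_reach (q0 := q0) (N := N0) hh K
        obtain ⟨L, hL⟩ := rt_fpath (code := code) h2
        refine ⟨_, L, hL, ?_⟩
        have : (List.map code (cfg M q m K)).count (code .clk) = (cfg M q m K).count .clk :=
          List.count_map_of_injective _ code hc _
        rw [this]
        unfold cfg
        simp [List.count_cons, List.count_append, List.count_replicate]))
      exact ⟨fun x y => (h1 x).trans (h1 y).symm⟩

end Pool.Agent.Y669.TA.DiagFix
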