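import Pool.Agent.H476R3.DiagCode3

set_option autoImplicit false

namespace Pool.Agent.H476R3.DiagMach

open Pool.Agent.H476R3.Diag
open Pool.Agent.Helper599.Core Pool.Agent.Helper599.Source

variable {Q : Type} {M : Sys Q Bool} {q0 : Q} {N : ℕ}

theorem rep_ne (n : ℕ) (l l' : List (Sym Q M.B)) (h : 3 ≤ l.length) (h' : l'.length = 2) :
    List.replicate n .one ++ l ≠ l' := by
  intro e
  have := congrArg List.length e
  simp at this
  omega

theorem rep_ne' (n : ℕ) (t s y : Sym Q M.B) (ht : t.lft = false) (hta : t.act = true)
    (hy : y.act = false) :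
    List.replicate n .one ++ [t] ≠ lhs s y := by
  intro e
  have hl := congrArg List.length e
  have : n = 1 := by
    unfold lhs at hl
    split_ifs at hl <;> simpa using hl
  subst this
  unfold lhs at e
  split_ifs at e with h
  · simp at e
    rw [e.2, h] at ht
    exact absurd ht (by simp)
  · simp at e
    rw [← e.2, hta] at hy
    exact absurd hy (by simp)

/-- no right side is a left side -/
theorem rhs_ne_lhs (s y : Sym Q M.B) (w : List (Sym Q M.B)) (h : δ M q0 N s y = some w)
    (s' y' : Sym Q M.B) (hs : s'.act = true) (hy : y'.act = false) : w ≠ lhs s' y' := by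
  have hlen : (lhs s' y').length = 2 := by unfold lhs; split_ifs <;> rfl
  have h1 : ∀ x : Sym Q M.B, [x] ≠ lhs s' y' := by
    intro x e
    have := congrArg List.length e
    rw [hlen] at this
    simp at this
  have h2 : ∀ x z : Sym Q M.B, x.lft = true → [x, z] ≠ lhs s' y' := by
    intro x z hx e
    unfold lhs at e
    split_ifs at e with h
    · simp only [List.cons.injEq, and_true] at e
      rw [← e.1] at hy
      cases x <;> simp_all [Sym.lft, Sym.act]
    · simp only [List.cons.injEq, and_true] at e
      rw [← e.1, hx] at h
      exact h rfl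
  have h3 : ∀ x z : Sym Q M.B, z.lft = false → z.act = true → [x, z] ≠ lhs s' y' := by
    intro x z hz hza e
    unfold lhs at e
    split_ifs at e with h
    · simp only [List.cons.injEq, and_true] at e
      rw [← e.2, hz] at h
      exact absurd h (by simp)
    · simp only [List.cons.injEq, and_true] at e
      rw [← e.2, hza] at hy
      exact absurd hy (by simp)
  cases s <;> cases y <;> simp only [δ, reduceCtorEq] at h
  all_goals try split_ifs at h
  all_goals try (simp only [Option.some.injEq] at h; subst h)
  all_goals first
    | exact h1 _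
    | exact h2 _ _ rfl
    | exact h3 _ _ rfl rfl
    | exact rep_ne' _ _ _ _ rfl rfl hy
    | exact rep_ne _ _ _ (by simp) hlen
    | skip
  · rw [Option.map_eq_some_iff] at h
    obtain ⟨q', -, rfl⟩ := h
    exact rep_ne _ _ _ (by simp) hlen
  · intro e
    have := congrArg List.length e
    rw [hlen] at this
    simp at this

end Pool.Agent.H476R3.DiagMach
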