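import Pool.Agent.Y669.TA.DiagFix
import Pool.Agent.H333R3.DG.Rank

/-!
Diagram groups of one fixed presentation with infinite rank of the abelianisation.
-/

set_option autoImplicit false

namespace Pool.Agent.Y669.TA.DiagFix

open Pool.Agent.H476R3.Diag

universe u

section mono

variable {α : Type u} {R R' : Set (List α × List α)}

theorem IsPath.mono (h : R ⊆ R') {u v : List α} {L : List (Edge α)} (hL : IsPath R u L v) :
    IsPath R' u L v := by
  induction L generalizing u with
  | nil => exact hL
  | cons e L ih => exact ⟨h hL.1, hL.2.1, ih hL.2.2⟩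

theorem Htpy.mono (h : R ⊆ R') {u v : List α} {L L' : List (Edge α)} (hL : Htpy R u v L L') :
    Htpy R' u v L L' := by
  induction hL with
  | refl L h1 => exact Htpy.refl _ (IsPath.mono h h1)
  | elem L L' h1 h2 e => exact Htpy.elem _ _ (IsPath.mono h h1) (IsPath.mono h h2) e
  | symm L L' _ ih => exact Htpy.symm _ _ ih
  | trans L L' L'' _ _ ih ih' => exact Htpy.trans _ _ _ ih ih'

/-- if the new relations apply nowhere in the component then nothing changes -/
theorem trivial_mono (h : R ⊆ R') {w : List α} (ht : ∀ x : DiagramGroup R w, x = 1)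
    (hc : ∀ (v : List α) (L : List (Edge α)), IsPath R w L v → ∀ e : Edge α, e.r ∈ R' →
      e.src = v → e.r ∈ R) : ∀ x : DiagramGroup R' w, x = 1 := by
  have key : ∀ (L : List (Edge α)) (u v : List α) (L0 : List (Edge α)), IsPath R w L0 u →
      IsPath R' u L v → IsPath R u L v := by
    intro L
    induction L with
    | nil => intro u v L0 _ h2; exact h2
    | cons e L ih =>
      rintro u v L0 h1 ⟨h2, h3, h4⟩
      have h5 := hc u L0 h1 e h2 h3
      refine ⟨h5, h3, ih e.tgt v (L0 ++ [e]) (h1.append ⟨h5, h3, rfl⟩) h4⟩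
  intro x
  obtain ⟨L, rfl⟩ := DiagramGroup.exists_rep x
  have h1 : IsPath R w L.1 w := key L.1 w w [] rfl L.2
  have h2 := ht (DiagramGroup.mk ⟨L.1, h1⟩)
  rw [DiagramGroup.mk_one] at h2 ⊢
  exact DiagramGroup.mk_eq.2 (Htpy.mono h (DiagramGroup.mk_eq.1 h2))

/-- an edge in a larger context -/
def shift (a b : List α) (e : Edge α) : Edge α := ⟨a ++ e.a, e.r, e.b ++ b, e.fwd⟩

theorem FPath.shift (a b : List α) {u v : List α} {L : List (Edge α)} (h : FPath R u L v) :
    FPath R (a ++ u ++ b) (L.map (shift a b)) (a ++ v ++ b) := by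
  induction L generalizing u with
  | nil =>
    have : u = v := h.1
    subst this
    exact FPath.nil _
  | cons e L ih =>
    obtain ⟨⟨h1, h2, h3⟩, h4⟩ := h
    have ih' := ih (u := e.tgt) ⟨h3, fun x hx => h4 x (List.mem_cons_of_mem _ hx)⟩
    have e1 : (DiagFix.shift a b e).src = a ++ u ++ b := by
      rw [← h2]
      simp [DiagFix.shift, Edge.src]
    have e2 : (DiagFix.shift a b e).tgt = a ++ e.tgt ++ b := by
      simp [DiagFix.shift, Edge.tgt]
    refine ⟨⟨h1, e1, ?_⟩, ?_⟩
    · rw [e2]; exact ih'.1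
    · intro x hx
      rcases List.mem_cons.1 hx with rfl | hx
      · exact h4 e List.mem_cons_self
      · exact ih'.2 x hx

/-- If no forward cycle is reachable from `w` then no word containing `z` is connected to `w`,
where a forward cycle leads through `z`. -/
theorem not_reach {Valid : List α → Prop} (D : Det R Valid) {w : List α} (hw : Valid w)
    (hc : ∀ (z : List α) (A Z : List (Edge α)), FPath R w A z → FPath R z Z z → Z = [])
    {z : List α} {Z : List (Edge α)} (hZ : FPath R z Z z) (hne : Z ≠ []) (a b : List α)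
    (L : List (Edge α)) : ¬ IsPath R w L (a ++ z ++ b) := by
  intro hL
  have hv : Valid (a ++ z ++ b) := D.path hL hw
  obtain ⟨z', C, A, h1, h2, -⟩ := D.claim hw L w (a ++ z ++ b) w [] [] hL (FPath.nil w)
    (FPath.nil w)
  have hZ' := FPath.shift a b hZ
  have hne' : Z.map (DiagFix.shift a b) ≠ [] := by simpa using hne
  have hpow : ∀ k : ℕ, FPath R (a ++ z ++ b)
      (List.replicate k (Z.map (DiagFix.shift a b))).flatten (a ++ z ++ b) := by
    intro k
    induction k with
    | zero => exact FPath.nil _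
    | succ k ih =>
      rw [List.replicate_succ, List.flatten_cons]
      exact hZ'.append ih
  have hlen : ∀ k : ℕ, k ≤ (List.replicate k (Z.map (DiagFix.shift a b))).flatten.length := by
    intro k
    have : 1 ≤ (Z.map (DiagFix.shift a b)).length := List.length_pos_iff.2 hne'
    simp only [List.length_flatten, List.map_replicate, List.sum_replicate, smul_eq_mul]
    nlinarith
  obtain ⟨T, hT⟩ := D.nested h2 (hpow A.length) hv (hlen _)
  have hTp : FPath R z' T (a ++ z ++ b) := by
    have h4 := (hpow A.length).1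
    rw [hT] at h4
    obtain ⟨y', q1, q2⟩ := isPath_append.1 h4
    have : y' = z' := q1.tgt_unique h2.1
    subst this
    exact ⟨q2, fun e he => (hpow A.length).2 e (by rw [hT]; exact List.mem_append_right _ he)⟩
  exact hne' (hc _ _ _ (h1.append hTp) hZ')

end mono

section weight

variable {R : Set (List ℕ × List ℕ)}

/-- the weight of an edge: the uses of the relation `r₀` with no head around and at most `m`
letters on the right -/
def wt (hd : ℕ → Bool) (r₀ : List ℕ × List ℕ) (m : ℕ) (e : Edge ℕ) : ℤ :=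
  if e.r = r₀ ∧ e.b.length ≤ m ∧ e.a.countP hd = 0 ∧ e.b.countP hd = 0 then
    (if e.fwd then 1 else -1) else 0

/-- the weight of a path -/
def ws (hd : ℕ → Bool) (r₀ : List ℕ × List ℕ) (m : ℕ) (L : List (Edge ℕ)) : ℤ :=
  (L.map (wt hd r₀ m)).sum

variable {hd : ℕ → Bool} {r₀ : List ℕ × List ℕ} {m : ℕ}

theorem ws_append (L L' : List (Edge ℕ)) :
    ws hd r₀ m (L ++ L') = ws hd r₀ m L + ws hd r₀ m L' := by
  simp [ws]

theorem ws_cons (e : Edge ℕ) (L : List (Edge ℕ)) :
    ws hd r₀ m (e :: L) = wt hd r₀ m e + ws hd r₀ m L := by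
  simp [ws]

theorem wt_inv (e : Edge ℕ) : wt hd r₀ m e.inv = - wt hd r₀ m e := by
  rcases e with ⟨a, r, b, f⟩
  unfold wt Edge.inv
  simp only
  split_ifs <;> simp_all

theorem ws_pinv (L : List (Edge ℕ)) : ws hd r₀ m (pinv L) = - ws hd r₀ m L := by
  induction L with
  | nil => rfl
  | cons e L ih =>
    rw [pinv_cons, ws_append, ih, ws_cons, ws_cons, wt_inv]
    simp [ws]

theorem side_head (hR : ∀ r ∈ R, 0 < r.1.countP hd ∧ 0 < r.2.countP hd)
    {r : List ℕ × List ℕ} (hr : r ∈ R) (s : Bool) : 0 < (side r s).countP hd := by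
  cases s
  · exact (hR r hr).2
  · exact (hR r hr).1

theorem Htpy.ws_eq (hR : ∀ r ∈ R, 0 < r.1.countP hd ∧ 0 < r.2.countP hd) {u v : List ℕ}
    {L L' : List (Edge ℕ)} (h : Htpy R u v L L') : ws hd r₀ m L = ws hd r₀ m L' := by
  induction h with
  | refl L h => rfl
  | elem L L' h h' e =>
    cases e with
    | cancel L₁ e L₂ =>
      rw [ws_append, ws_append, ws_cons, ws_cons, wt_inv]
      ring
    | square L₁ a r b s c p q L₂ =>
      obtain ⟨z, -, h1, -, h2, -⟩ := isPath_append.1 h
      simp only at h1 h2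
      have z1 : ∀ (x : Bool), wt hd r₀ m ⟨a, r, b ++ side s x ++ c, p⟩ = 0 := by
        intro x
        unfold wt
        rw [if_neg]
        rintro ⟨-, -, -, h3⟩
        have := side_head hR h2 x
        simp only [List.countP_append] at h3
        omega
      have z2 : ∀ (x : Bool), wt hd r₀ m ⟨a ++ side r x ++ b, s, c, q⟩ = 0 := by
        intro x
        unfold wt
        rw [if_neg]
        rintro ⟨-, -, h3, -⟩
        have := side_head hR h1 x
        simp only [List.countP_append] at h3
        omega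
      rw [ws_append, ws_append, ws_cons, ws_cons, ws_cons, ws_cons, z1, z1, z2, z2]
  | symm L L' _ ih => exact ih.symm
  | trans L L' L'' _ _ ih ih' => exact ih.trans ih'

/-- the weight as a homomorphism -/
def wh (hR : ∀ r ∈ R, 0 < r.1.countP hd ∧ 0 < r.2.countP hd) (r₀ : List ℕ × List ℕ) (m : ℕ)
    (w : List ℕ) : DiagramGroup R w →* Multiplicative ℤ where
  toFun := Quotient.lift (fun L : Loop R w => Multiplicative.ofAdd (ws hd r₀ m L.1))
    (fun _ _ h => congrArg Multiplicative.ofAdd (Htpy.ws_eq hR h))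
  map_one' := rfl
  map_mul' := by
    intro x y
    induction x using Quotient.inductionOn
    induction y using Quotient.inductionOn
    rename_i x y
    change Multiplicative.ofAdd (ws hd r₀ m (x.1 ++ y.1)) = _
    rw [ws_append]
    rfl

theorem wh_mk (hR : ∀ r ∈ R, 0 < r.1.countP hd ∧ 0 < r.2.countP hd) (w : List ℕ) (L : Loop R w) :
    wh hR r₀ m w (DiagramGroup.mk L) = Multiplicative.ofAdd (ws hd r₀ m L.1) := rfl

end weight

open TensorProduct in
/-- the rank of the abelianisation: the dimension of `G/[G,G] ⊗ ℚ` -/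
noncomputable def abRank (G : Type) [Group G] : Cardinal :=
  Module.rank ℚ (ℚ ⊗[ℤ] Additive (Abelianization G))

open TensorProduct in
theorem abRank_trivial (G : Type) [Group G] (h : Subsingleton G) : abRank G = 0 := by
  unfold abRank
  have : Subsingleton (Abelianization G) :=
    ⟨fun x y => by
      obtain ⟨a, rfl⟩ := QuotientGroup.mk_surjective x
      obtain ⟨b, rfl⟩ := QuotientGroup.mk_surjective y
      rw [Subsingleton.elim a b]⟩
  have h1 : Subsingleton (Additive (Abelianization G)) := this
  have h0 : ∀ x : ℚ ⊗[ℤ] Additive (Abelianization G), x = 0 := by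
    intro x
    induction x using TensorProduct.induction_on with
    | zero => rfl
    | tmul q a => rw [Subsingleton.elim a 0, TensorProduct.tmul_zero]
    | add x y hx hy => rw [hx, hy, add_zero]
  have h2 : Subsingleton (ℚ ⊗[ℤ] Additive (Abelianization G)) :=
    ⟨fun x y => (h0 x).trans (h0 y).symm⟩
  exact rank_subsingleton' ℚ _

open TensorProduct in
theorem abRank_fg (G : Type) [Group G] (h : Group.FG G) : abRank G < Cardinal.aleph0 := by
  unfold abRank
  have h1 : Group.FG (Abelianization G) := QuotientGroup.fg _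
  have h2 : AddGroup.FG (Additive (Abelianization G)) := inferInstance
  have h3 : Module.Finite ℤ (Additive (Abelianization G)) := Module.Finite.iff_addGroup_fg.2 h2
  have h4 : Module.Finite ℚ (ℚ ⊗[ℤ] Additive (Abelianization G)) := inferInstance
  exact Module.rank_lt_aleph0 ℚ _

open TensorProduct in
/-- a dual system makes the rank infinite -/
theorem abRank_infinite (G : Type) [Group G] (φ : ℕ → G →* Multiplicative ℤ) (g : ℕ → G)
    (h : ∀ m i, φ m (g i) = Multiplicative.ofAdd (if i = m then 1 else 0)) :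
    Cardinal.aleph0 ≤ abRank G := by
  classical
  let v : ℕ → ℚ ⊗[ℤ] Additive (Abelianization G) := fun i => Pool.Agent.H333R3.DG.tt (g i)
  let F : ℕ → (ℚ ⊗[ℤ] Additive (Abelianization G)) →ₗ[ℚ] ℚ := fun m =>
    Pool.Agent.H333R3.DG.func (φ m)
  have hF : ∀ m i, F m (v i) = if i = m then 1 else 0 := by
    intro m i
    simp only [F, v]
    rw [Pool.Agent.H333R3.DG.func_tt, h]
    by_cases him : i = m <;> simp [him]
  have hli : LinearIndependent ℚ v := by
    apply LinearIndependent.of_comp (LinearMap.pi F)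
    have : (LinearMap.pi F) ∘ v = fun i => Pi.single i (1 : ℚ) := by
      funext i m
      simp only [Function.comp, LinearMap.pi_apply, hF, Pi.single_apply]
      by_cases him : i = m
      · simp [him]
      · simp [him, Ne.symm him]
    rw [this]
    exact Pi.linearIndependent_single_one ℕ ℚ
  have := hli.cardinal_le_rank
  unfold abRank
  simpa using this

/-- the two new relations at `z` produce infinitely many independent loops -/
theorem infinite_rank {R : Set (List ℕ × List ℕ)} {hd : ℕ → Bool}
    (hR : ∀ r ∈ R, 0 < r.1.countP hd ∧ 0 < r.2.countP hd) {z : List ℕ} {t : ℕ}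
    (ht : hd t = false) (hz : 0 < z.length)
    (h1 : (z, t :: z) ∈ R) (h2 : (z, z ++ [t]) ∈ R) (h12 : t :: z ≠ z ++ [t]) {w : List ℕ}
    {A : List (Edge ℕ)} (hA : IsPath R w A z) : Cardinal.aleph0 ≤ abRank (DiagramGroup R w) := by
  classical
  have hne : ((z, z ++ [t]) : List ℕ × List ℕ) ≠ (z, t :: z) := by
    intro h
    exact h12 (Prod.mk.inj h).2.symm
  let T : ℕ → List ℕ := fun i => List.replicate i t
  have hT : ∀ i, T (i + 1) = T i ++ [t] := fun i => List.replicate_succ' ..
  have hT' : ∀ i, T (i + 1) = t :: T i := fun i => List.replicate_succ ..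
  let e1 : ℕ → Edge ℕ := fun i => ⟨[], (z, t :: z), T i, true⟩
  let e2 : ℕ → Edge ℕ := fun i => ⟨[t], (z, z ++ [t]), T i, true⟩
  let e3 : ℕ → Edge ℕ := fun i => ⟨[], (z, z ++ [t]), T i, true⟩
  have s1 : ∀ i, (e1 i).src = z ++ T i := fun i => by simp [e1, Edge.src, side]
  have t1 : ∀ i, (e1 i).tgt = t :: (z ++ T i) := fun i => by simp [e1, Edge.tgt, side]
  have s2 : ∀ i, (e2 i).src = t :: (z ++ T i) := fun i => by simp [e2, Edge.src, side]
  have t2 : ∀ i, (e2 i).tgt = t :: (z ++ T (i + 1)) := fun i => by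
    rw [hT']; simp [e2, Edge.tgt, side]
  have s3 : ∀ i, (e3 i).src = z ++ T i := fun i => by simp [e3, Edge.src, side]
  have t3 : ∀ i, (e3 i).tgt = z ++ T (i + 1) := fun i => by
    rw [hT']; simp [e3, Edge.tgt, side]
  have hgrow : ∀ i, ∃ B : List (Edge ℕ), IsPath R w B (z ++ T i) := by
    intro i
    induction i with
    | zero => exact ⟨A, by simpa [T] using hA⟩
    | succ i ih =>
      obtain ⟨B, hB⟩ := ih
      exact ⟨B ++ [e3 i], hB.append ⟨h2, s3 i, t3 i⟩⟩
  choose B hB using hgrow
  let Z : ℕ → List (Edge ℕ) := fun i => [e1 i, e2 i, (e1 (i + 1)).inv, (e3 i).inv]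
  have hZ : ∀ i, IsPath R (z ++ T i) (Z i) (z ++ T i) := by
    intro i
    refine ⟨h1, s1 i, h2, ?_, h1, ?_, h2, ?_, ?_⟩
    · rw [s2, t1]
    · rw [Edge.src_inv, t1, t2]
    · rw [Edge.src_inv, Edge.tgt_inv, s1, t3]
    · rw [Edge.tgt_inv, s3]; rfl
  have hcT : ∀ i, (T i).countP hd = 0 := by
    intro i
    simp [T, List.countP_replicate, ht]
  have hlT : ∀ i, (T i).length = i := fun i => by simp [T]
  have hws : ∀ m i, ws hd (z, t :: z) m (Z i) = if i = m then 1 else 0 := by
    intro m i
    have w1 : ∀ i, wt hd (z, t :: z) m (e1 i) = if i ≤ m then 1 else 0 := by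
      intro i
      simp [wt, e1, hcT, hlT]
    have w2 : ∀ i, wt hd (z, t :: z) m (e2 i) = 0 := by
      intro i
      unfold wt
      rw [if_neg]
      rintro ⟨h, -⟩
      exact hne h
    have w3 : ∀ i, wt hd (z, t :: z) m (e3 i) = 0 := by
      intro i
      unfold wt
      rw [if_neg]
      rintro ⟨h, -⟩
      exact hne h
    simp only [Z, ws_cons, wt_inv, w1, w2, w3]
    simp only [ws, List.map_nil, List.sum_nil]
    split_ifs <;> omega
  refine abRank_infinite _ (fun m => wh hR (z, t :: z) m w)
    (fun i => DiagramGroup.mk ⟨B i ++ Z i ++ pinv (B i), ((hB i).append (hZ i)).append (hB i).pinv⟩)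
    ?_
  intro m i
  rw [wh_mk]
  congr 1
  simp only [ws_append, ws_pinv, hws]
  ring

end Pool.Agent.Y669.TA.DiagFix
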