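import Pool.Agent.Y669.TA.DiagRank
import Pool.Agent.Y669.TA.DiagProp

/-!
One fixed presentation, the base word is the input: the diagram group is trivial or its
abelianisation has infinite rank.
-/

set_option autoImplicit false

namespace Pool.Agent.Y669.TA.DiagFix

open Pool.Agent.H476R3.Diag Pool.Agent.H476R3.DiagMach
open Pool.Agent.Helper599.Core Pool.Agent.Helper599.Source

/-- One fixed finite semigroup presentation; every r.e. set is reduced to the nontriviality of its
diagram groups, which are trivial or have infinite rank. -/
theorem exists_fixed_rank : ∃ (k : ℕ) (R : List (List ℕ × List ℕ)),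
    (∀ r ∈ R, r.1 ≠ [] ∧ r.2 ≠ [] ∧ (∀ x ∈ r.1, x < k) ∧ (∀ x ∈ r.2, x < k)) ∧
    (∀ r ∈ R, r.1 ≠ r.2 ∧ (r.2, r.1) ∉ R) ∧
    ∀ W : ℕ → Prop, REPred W → ∃ f : ℕ → List ℕ, Computable f ∧
      (∀ n, f n ≠ [] ∧ ∀ x ∈ f n, x < k) ∧
      (∀ n, W n → Cardinal.aleph0 ≤ abRank (DiagramGroup {r | r ∈ R} (f n))) ∧
      (∀ n, ¬ W n → Subsingleton (DiagramGroup {r | r ∈ R} (f n))) := by
  classical
  obtain ⟨Q, hQ, M, q0, ⟨N0, hN0⟩, hW⟩ := Pool.Agent.Y669.TA.SysU.exists_sys_re
  have hfin := sym_finite Q M.B
  obtain ⟨k, ⟨e⟩⟩ := Finite.exists_equiv_fin (Pool.Agent.H476R3.DiagMach.Sym Q M.B)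
  let code : Pool.Agent.H476R3.DiagMach.Sym Q M.B → ℕ := fun s => (e s : ℕ)
  have hc : Function.Injective code := fun s t h => e.injective (Fin.ext h)
  have hk : ∀ s, code s < k := fun s => (e s).2
  let F : List (List ℕ × List ℕ) := (fixedSet_finite M q0 code).toFinset.toList
  have hF : ∀ ρ, ρ ∈ F ↔ ρ ∈ fixedSet M q0 code := by
    intro ρ
    simp [F]
  have hR : {ρ | ρ ∈ inp M q0 code N0 :: F} = rels M q0 N0 code := rels_eq M q0 code N0 F hF
  let z : List ℕ := [code .X, code .pct]
  let R' : List (List ℕ × List ℕ) := (z, k :: z) :: (z, z ++ [k]) :: inp M q0 code N0 :: F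
  have hsub : rels M q0 N0 code ⊆ {r | r ∈ R'} := by
    rw [← hR]
    intro r hr
    exact List.mem_cons_of_mem _ (List.mem_cons_of_mem _ hr)
  let hd : ℕ → Bool := fun n => decide (actc M code n)
  have hdX : hd (code .X) = true := decide_eq_true ⟨.X, rfl, rfl⟩
  have hdk : hd k = false := by
    refine decide_eq_false ?_
    rintro ⟨s, -, h⟩
    have := hk s
    omega
  have hmem : ∀ r ∈ ({r | r ∈ R'} : Set (List ℕ × List ℕ)),
      r = (z, k :: z) ∨ r = (z, z ++ [k]) ∨ r ∈ rels M q0 N0 code := by
    intro r hr
    rcases List.mem_cons.1 hr with h | hr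
    · exact Or.inl h
    rcases List.mem_cons.1 hr with h | hr
    · exact Or.inr (Or.inl h)
    · refine Or.inr (Or.inr ?_)
      rw [← hR]
      exact hr
  have hheads : ∀ r ∈ ({r | r ∈ R'} : Set (List ℕ × List ℕ)),
      0 < r.1.countP hd ∧ 0 < r.2.countP hd := by
    intro r hr
    rcases hmem r hr with rfl | rfl | ⟨s, y, w, h, rfl⟩
    · simp [z, List.countP_cons, hdX]
    · simp [z, List.countP_cons, hdX]
    · have h1 := lhs_count N0 s y w h
      have h2 := (δ_act N0 s y w h).2.2
      have h3 := countP_map (M := M) hc (Pool.Agent.H476R3.DiagMach.lhs s y)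
      have h4 := countP_map (M := M) hc w
      constructor
      · change 0 < ((Pool.Agent.H476R3.DiagMach.lhs s y).map code).countP
          (fun n => decide (actc M code n))
        rw [h3, h1]; exact Nat.one_pos
      · change 0 < (w.map code).countP (fun n => decide (actc M code n))
        rw [h4, h2]; exact Nat.one_pos
  have hll : ∀ s y : Pool.Agent.H476R3.DiagMach.Sym Q M.B,
      (Pool.Agent.H476R3.DiagMach.lhs s y).length = 2 := by
    intro s y
    unfold lhs
    split_ifs <;> rfl
  refine ⟨k + 1, R', ?_, ?_, ?_⟩
  · intro r hr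
    rcases hmem r hr with rfl | rfl | ⟨s, y, w, h, rfl⟩
    · refine ⟨by simp [z], by simp, ?_, ?_⟩
      · intro x hx
        simp only [z, List.mem_cons, List.not_mem_nil, or_false] at hx
        have h1 := hk .X
        have h2 := hk .pct
        rcases hx with rfl | rfl <;> omega
      · intro x hx
        simp only [z, List.mem_cons, List.not_mem_nil, or_false] at hx
        have h1 := hk .X
        have h2 := hk .pct
        rcases hx with rfl | rfl | rfl <;> omega
    · refine ⟨by simp [z], by simp, ?_, ?_⟩
      · intro x hx
        simp only [z, List.mem_cons, List.not_mem_nil, or_false] at hx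
        have h1 := hk .X
        have h2 := hk .pct
        rcases hx with rfl | rfl <;> omega
      · intro x hx
        simp only [z, List.mem_append, List.mem_cons, List.not_mem_nil, or_false] at hx
        have h1 := hk .X
        have h2 := hk .pct
        rcases hx with (rfl | rfl) | rfl <;> omega
    · refine ⟨?_, ?_, ?_, ?_⟩
      · unfold lhs
        split_ifs <;> simp
      · intro h0
        have h1 := (δ_act N0 s y w h).2.2
        have h2 : w = [] := by simpa using h0
        rw [h2] at h1
        simp at h1
      · intro x hx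
        obtain ⟨t, -, rfl⟩ := List.mem_map.1 hx
        exact Nat.lt_succ_of_lt (hk t)
      · intro x hx
        obtain ⟨t, -, rfl⟩ := List.mem_map.1 hx
        exact Nat.lt_succ_of_lt (hk t)
  · intro r hr
    rcases hmem r hr with rfl | rfl | ⟨s, y, w, h, rfl⟩
    · refine ⟨fun h => by simpa using congrArg List.length h, fun h => ?_⟩
      rcases hmem _ h with h | h | ⟨s, y, w, -, h⟩
      · simpa using congrArg List.length (Prod.mk.inj h).1
      · simpa using congrArg List.length (Prod.mk.inj h).1
      · simpa [z, hll] using congrArg List.length (Prod.mk.inj h).1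
    · refine ⟨fun h => by simpa using congrArg List.length h, fun h => ?_⟩
      rcases hmem _ h with h | h | ⟨s, y, w, -, h⟩
      · simpa using congrArg List.length (Prod.mk.inj h).1
      · simpa using congrArg List.length (Prod.mk.inj h).1
      · simpa [z, hll] using congrArg List.length (Prod.mk.inj h).1
    · have hs := δ_act N0 s y w h
      refine ⟨fun h1 => ?_, fun h1 => ?_⟩
      · have h2 := List.map_injective_iff.2 hc h1
        exact rhs_ne_lhs s y w h s y hs.1 hs.2.1 h2.symm
      · rcases hmem _ h1 with h1 | h1 | ⟨s', y', w', h2, h1⟩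
        · simpa [z, hll] using congrArg List.length (Prod.mk.inj h1).2
        · simpa [z, hll] using congrArg List.length (Prod.mk.inj h1).2
        · have hs' := δ_act N0 s' y' w' h2
          have h3 := List.map_injective_iff.2 hc (Prod.mk.inj h1).1
          exact rhs_ne_lhs s y w h s' y' hs'.1 hs'.2.1 h3
  · intro W hWre
    obtain ⟨N, hN, hNW⟩ := hW W hWre
    have hcfg : ∀ N' : ℕ, (cfg M q0 (ini N') 0).map code =
        [code .dol, code (.R q0 (z0 M))] ++ (List.range N').map (fun _ => code .one) ++
          [code .hsh, code .pct] := by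
      intro N'
      rw [replicate_eq]
      simp [cfg, ini]
    refine ⟨fun n => (cfg M q0 (ini (N n)) 0).map code, ?_, ?_, ?_, ?_⟩
    · have h1 : Computable fun N' : ℕ =>
          [code .dol, code (.R q0 (z0 M))] ++ (List.range N').map (fun _ => code .one) ++
          [code .hsh, code .pct] := by
        apply Primrec.to_comp
        refine Primrec.list_append.comp (Primrec.list_append.comp (Primrec.const _) ?_)
          (Primrec.const _)
        exact Primrec.list_map Primrec.list_range (Primrec.const _).to₂
      exact (h1.comp hN).of_eq fun n => (hcfg (N n)).symm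
    · intro n
      refine ⟨by simp [cfg], ?_⟩
      intro x hx
      obtain ⟨t, -, rfl⟩ := List.mem_map.1 hx
      exact Nat.lt_succ_of_lt (hk t)
    · -- the machine stops: `X %` is reached
      intro n hn
      obtain ⟨L, hL⟩ := rt_fpath (code := code)
        (halts_reach (q0 := q0) (N := N0) ((hNW n).2 hn) q0 rfl 0)
      refine infinite_rank hheads hdk (z := z) (by simp [z]) List.mem_cons_self
        (List.mem_cons_of_mem _ List.mem_cons_self) ?_ (IsPath.mono hsub hL.1)
      intro h
      have h1 := hk .X
      simp only [z, List.cons_append, List.cons.injEq] at h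
      omega
    · -- the machine runs forever
      intro n hn
      have hv : Valid M code ((cfg M q0 (ini (N n)) 0).map code) := by
        unfold Valid
        rw [countP_map hc]
        simp [cfg, Pool.Agent.H476R3.DiagMach.Sym.act, List.countP_cons, List.countP_append, List.countP_replicate]
      have hD := det (M := M) (q0 := q0) (N := N0) hc
      obtain ⟨e1, he1⟩ := ts_fpath (code := code) (start_step (M := M) (q0 := q0) N0)
      obtain ⟨L1, hL1⟩ := rt_fpath (code := code)
        (halts_reach (q0 := q0) (N := N0) hN0 q0 rfl 0)
      have hh : ¬ M.Halts (some q0) (ini (N n)) := fun h => hn ((hNW n).1 h)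
      have hnc := hD.no_cycle hv (fun v => v.count (code .clk)) (by
        intro K
        obtain ⟨q, m, -, h2⟩ := not_halts_reach (q0 := q0) (N := N0) hh K
        obtain ⟨L, hL⟩ := rt_fpath (code := code) h2
        refine ⟨_, L, hL, ?_⟩
        have : (List.map code (cfg M q m K)).count (code .clk) = (cfg M q m K).count .clk :=
          List.count_map_of_injective _ code hc _
        rw [this]
        unfold cfg
        simp [List.count_cons, List.count_append, List.count_replicate])
      have h1 := hD.trivial hv hnc
      have h2 := trivial_mono (R' := {r | r ∈ R'}) hsub h1 (by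
        intro v L hL ed hed hsrc
        by_contra hcon
        have hz : ∃ a b : List ℕ, v = a ++ z ++ b := by
          rcases hmem _ hed with h | h | h
          · refine ⟨if ed.fwd then ed.a else ed.a ++ [k], ed.b, ?_⟩
            rw [← hsrc]
            unfold Edge.src side
            rw [h]
            cases ed.fwd <;> simp
          · refine ⟨ed.a, if ed.fwd then ed.b else [k] ++ ed.b, ?_⟩
            rw [← hsrc]
            unfold Edge.src side
            rw [h]
            cases ed.fwd <;> simp
          · exact absurd h hcon
        obtain ⟨a, b, rfl⟩ := hz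
        exact not_reach hD hv hnc (z := z) (he1.append hL1) (by simp) a b L hL)
      exact ⟨fun x y => (h2 x).trans (h2 y).symm⟩

end Pool.Agent.Y669.TA.DiagFix
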