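import Pool.Agent.Helper180.Grig.Final
import Pool.Agent.Y669.TA.DC180

/-! Every arithmetical set is many-one reducible to the elementary theory of the Grigorchuk
group. -/

namespace Pool.Agent.Y669.TA.GrigTh

open Pool.Agent.Helper180.Defs Pool.Agent.Helper180.Grig Pool.Agent.Helper180.ArithDef
open Pool.Agent.Helper180.FO Pool.Agent.Y669.TA

theorem reducible {A : ℕ → Prop} (hA : Arithmetical A) :
    A ≤₀ fun n : ℕ => ∃ φ ∈ theoryGr, φ.code = n := by
  obtain ⟨V0, fV0, hV0⟩ := mkV 0
  obtain ⟨V1, fV1, hV1⟩ := mkV 1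
  obtain ⟨Z, fZ, hZ⟩ := mk1 (DD.of0 (D2.zero 0))
  obtain ⟨S, fS, hS⟩ := mk2 (DD.of0 (D2.succ 1 0))
  obtain ⟨H, fH, hH⟩ := mk1 (DC180.dc_arith closed hA)
  have hrep := holds_repF hV0 hV1 hZ hS
  have hfree := free_repF fV0 fV1 fZ fS
  have hmem : ∀ n, sent V0 V1 Z S H n ∈ theoryGr ↔ A n := by
    intro n
    constructor
    · rintro ⟨_, h⟩
      obtain ⟨x, hx⟩ := exists_rep n
      have h1 := h (fun _ => x) x
      simp only [Formula.Holds] at h1
      rw [hrep] at h1
      have h2 := h1 (by rwa [Function.update_self])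
      exact (hH _ n (by rwa [Function.update_self])).1 h2
    · intro h
      refine ⟨?_, fun v x => ?_⟩
      · rw [← Finset.subset_empty]
        intro y hy
        simp only [sent, Formula.free, Finset.mem_erase, Finset.mem_union] at hy
        rcases hy with ⟨hy0, hy | hy⟩
        · exact absurd (Finset.mem_singleton.1 (hfree n hy)) hy0
        · exact absurd (Finset.mem_singleton.1 (fH hy)) hy0
      · simp only [Formula.Holds]
        rw [hrep]
        intro hx
        exact (hH _ n hx).2 h
  refine ⟨fun n => (sent V0 V1 Z S H n).code, primrec_sent.to_comp, fun n => ?_⟩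
  rw [← hmem]
  constructor
  · intro h
    exact ⟨_, h, rfl⟩
  · rintro ⟨φ, hφ, e⟩
    rwa [← code_injective _ _ e]

end Pool.Agent.Y669.TA.GrigTh
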