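import Mathlib.Computability.Halting
import Mathlib.Computability.Reduce
import Pool.Agent.Helper437.ArithDef

/-! Second-order arithmetic. A set to which every set definable in second-order arithmetic is
many-one reducible is not definable in second-order arithmetic. -/

namespace Pool.Agent.Y669.TA.SOA

open Pool.Agent.Helper437.ArithDef Nat.Partrec

/-- Formulas of second-order arithmetic. The number variables are `x_0, x_1, ...`, the set variables
are `X_0, X_1, ...`; a quantifier binds the variable `x_0` or `X_0`, and within its scope the other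
variables of the same sort are shifted by one (see `Sat`). -/
inductive SO : Type
  | add (i j k : ℕ) : SO
  | mul (i j k : ℕ) : SO
  | mem (i j : ℕ) : SO
  | neg (φ : SO) : SO
  | and (φ ψ : SO) : SO
  | exN (φ : SO) : SO
  | exS (φ : SO) : SO

/-- Truth of a formula of second-order arithmetic in the standard model: the number variables range
over `ℕ` and the set variables over all subsets of `ℕ`. -/
def SO.Sat : SO → (ℕ → ℕ) → (ℕ → Set ℕ) → Prop
  | .add i j k, x, _ => x i + x j = x k
  | .mul i j k, x, _ => x i * x j = x k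
  | .mem i j, x, X => x i ∈ X j
  | .neg φ, x, X => ¬ φ.Sat x X
  | .and φ ψ, x, X => φ.Sat x X ∧ ψ.Sat x X
  | .exN φ, x, X => ∃ a : ℕ, φ.Sat (cns a x) X
  | .exS φ, x, X => ∃ S : Set ℕ, φ.Sat x (cns S X)

/-- A set of natural numbers is definable in second-order arithmetic (analytical): membership of `n`
is expressed by a formula without free set variables, all free number variables having the value
`n`. -/
def Analytical (A : ℕ → Prop) : Prop :=
  ∃ φ : SO, ∀ (n : ℕ) (X : ℕ → Set ℕ), A n ↔ φ.Sat (fun _ => n) X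

/-- lifting of a renaming -/
def lift (ρ : ℕ → ℕ) : ℕ → ℕ := cns 0 (fun n => ρ n + 1)

/-- renaming of the number variables -/
def SO.ren : SO → (ℕ → ℕ) → SO
  | .add i j k, ρ => .add (ρ i) (ρ j) (ρ k)
  | .mul i j k, ρ => .mul (ρ i) (ρ j) (ρ k)
  | .mem i j, ρ => .mem (ρ i) j
  | .neg φ, ρ => .neg (φ.ren ρ)
  | .and φ ψ, ρ => .and (φ.ren ρ) (ψ.ren ρ)
  | .exN φ, ρ => .exN (φ.ren (lift ρ))
  | .exS φ, ρ => .exS (φ.ren ρ)

theorem SO.sat_ren (φ : SO) : ∀ (ρ : ℕ → ℕ) (x : ℕ → ℕ) (X : ℕ → Set ℕ),
    (φ.ren ρ).Sat x X ↔ φ.Sat (fun n => x (ρ n)) X := by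
  induction φ with
  | add i j k => intros; exact Iff.rfl
  | mul i j k => intros; exact Iff.rfl
  | mem i j => intros; exact Iff.rfl
  | neg φ ih => intro ρ x X; exact not_congr (ih ρ x X)
  | and φ ψ ih1 ih2 => intro ρ x X; exact and_congr (ih1 ρ x X) (ih2 ρ x X)
  | exN φ ih =>
    intro ρ x X
    refine exists_congr fun a => ?_
    refine (ih (lift ρ) (cns a x) X).trans ?_
    have : (fun n => cns a x (lift ρ n)) = cns a (fun n => x (ρ n)) := by
      funext n; cases n <;> rfl
    rw [this]
  | exS φ ih =>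
    intro ρ x X
    exact exists_congr fun S => ih ρ x (cns S X)

/-- predicates on numbers definable in second-order arithmetic -/
def DSO (R : (ℕ → ℕ) → Prop) : Prop := ∃ φ : SO, ∀ x X, φ.Sat x X ↔ R x

theorem closed : DC DSO where
  add := ⟨.add 0 1 2, fun _ _ => Iff.rfl⟩
  mul := ⟨.mul 0 1 2, fun _ _ => Iff.rfl⟩
  bot := ⟨.and (.add 0 0 0) (.neg (.add 0 0 0)), fun x X => by simp [SO.Sat]⟩
  imp := by
    rintro R S ⟨φ, hφ⟩ ⟨ψ, hψ⟩
    refine ⟨.neg (.and φ (.neg ψ)), fun x X => ?_⟩
    simp only [SO.Sat, hφ, hψ]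
    tauto
  all := by
    rintro R ⟨φ, hφ⟩
    refine ⟨.neg (.exN (.neg φ)), fun x X => ?_⟩
    simp only [SO.Sat, hφ, not_exists, not_not]
  ren := by
    rintro R ρ ⟨φ, hφ⟩
    exact ⟨φ.ren ρ, fun x X => by rw [SO.sat_ren, hφ]⟩

/-- A set to which all sets definable in second-order arithmetic are many-one reducible is not
definable in second-order arithmetic. -/
theorem not_analytical {T : ℕ → Prop} (h : ∀ A : ℕ → Prop, Analytical A → A ≤₀ T) :
    ¬ Analytical T := by
  rintro ⟨φT, hT⟩
  have hp : Nat.Partrec (fun n => Code.eval (Denumerable.ofNat Code n) n) := by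
    have : Partrec (fun n : ℕ => Code.eval (Denumerable.ofNat Code n) n) :=
      Code.eval_part.comp (Computable.ofNat _) Computable.id
    exact Partrec.nat_iff.1 this
  obtain ⟨E, hE⟩ := closed.ren (fun n => if n = 0 then 1 else 0) (closed.partrec hp)
  have hE' : ∀ x X, E.Sat x X ↔ x 0 ∈ Code.eval (Denumerable.ofNat Code (x 1)) (x 1) := hE
  have hA : Analytical (fun e => ¬ ∃ m, m ∈ Code.eval (Denumerable.ofNat Code e) e ∧ T m) := by
    refine ⟨.neg (.exN (.and E (φT.ren (fun _ => 0)))), fun e X => ?_⟩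
    simp only [SO.Sat, hE', SO.sat_ren, cns_zero]
    refine not_congr (exists_congr fun m => and_congr Iff.rfl (hT m X))
  obtain ⟨f, hf, hfT⟩ := h _ hA
  obtain ⟨c, hc⟩ := Code.exists_code.1 (Partrec.nat_iff.1 hf)
  have key : f (Encodable.encode c) ∈ Code.eval (Denumerable.ofNat Code (Encodable.encode c))
      (Encodable.encode c) := by
    rw [Denumerable.ofNat_encode, hc]
    exact Part.mem_some _
  have h1 : (¬ ∃ m, m ∈ Code.eval (Denumerable.ofNat Code (Encodable.encode c))
      (Encodable.encode c) ∧ T m) ↔ T (f (Encodable.encode c)) := hfT (Encodable.encode c)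
  have h2 : (∃ m, m ∈ Code.eval (Denumerable.ofNat Code (Encodable.encode c)) (Encodable.encode c) ∧
      T m) ↔ T (f (Encodable.encode c)) := by
    constructor
    · rintro ⟨m, hm, hT⟩
      rwa [← Part.mem_unique hm key]
    · intro hT
      exact ⟨_, key, hT⟩
  rw [h2] at h1
  tauto

/-- Every computable set is definable in second-order arithmetic. -/
theorem Analytical.of_computable {A : ℕ → Prop} (hA : ComputablePred A) : Analytical A := by
  obtain ⟨g, hg, rfl⟩ := ComputablePred.computable_iff.1 hA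
  have hf : Nat.Partrec (fun n => ((if g n = true then 0 else 1 : ℕ) : Part ℕ)) := by
    have h1 : Computable (fun n => if g n = true then 0 else 1) :=
      (Computable.cond hg (Computable.const 0) (Computable.const 1)).of_eq
        (fun n => by cases g n <;> rfl)
    exact Partrec.nat_iff.1 h1
  obtain ⟨φ, hφ⟩ := closed.app2 (R := fun x y => y ∈ ((if g x = true then 0 else 1 : ℕ) : Part ℕ))
    (closed.partrec hf) (closed.tvar 0) closed.tzero
  refine ⟨φ, fun n X => ?_⟩
  rw [hφ]
  by_cases hg0 : g n = true <;> simp [hg0]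

end Pool.Agent.Y669.TA.SOA
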