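import Pool.Agent.Results.MP_411a76_lc.LIdealTheory
import Pool.Agent.Y669.TA.SO

/-! Every set definable in second-order arithmetic is many-one reducible to the first-order theory
of the lattices of ℓ-ideals of ℓ-groups. -/

namespace Pool.Agent.Y669.TA.LIdl

open FirstOrder FirstOrder.Language
open Pool.Agent.Helper437.ArithDef Pool.Agent.Helper437.ModelDef
open Pool.Agent.Results.MP_411a76_lc.LIdealTheory Pool.Agent.Y669.TA.SOA

universe u

set_option linter.unusedVariables false

theorem nu_zero (i : CLx.{u}) : nu i 0 = i.1.p 4 := i.2.exists_nu.choose_spec.1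
theorem nu_inj (i : CLx.{u}) {a b : ℕ} (h : nu i a = nu i b) : a = b :=
  i.2.exists_nu.choose_spec.2.2.1 a b h
theorem num_nu (i : CLx.{u}) (x : i.1.F) : Num (i.1.p 0) x ↔ ∃ n, x = nu i n :=
  i.2.exists_nu.choose_spec.2.2.2.1 x

/-- representation of an assignment of the number variables (even places) and of the set variables
(odd places) -/
def Rep (i : CLx.{u}) (x : ℕ → ℕ) (X : ℕ → Set ℕ) (v : ℕ → i.1.F) : Prop :=
  (∀ n, v (2 * n) = nu i (x n)) ∧ ∀ n k, nu i k ≤ v (2 * n + 1) ↔ k ∈ X n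

/-- definability over the interpreted second-order arithmetic -/
def DS (R : (ℕ → ℕ) → (ℕ → Set ℕ) → Prop) : Prop :=
  ∃ Q : ∀ i : CLx.{u}, (ℕ → i.1.F) → Prop,
    DM Lat (M := fun i : CLx.{u} => i.1.F) parx Q ∧
    ∀ (i : CLx.{u}) (x : ℕ → ℕ) (X : ℕ → Set ℕ) (v : ℕ → i.1.F), Rep i x X v → (Q i v ↔ R x X)

/-- shift of the variables when a number variable is added -/
def rN (m : ℕ) : ℕ := if m = 0 then 0 else if m % 2 = 0 then m - 1 else m + 1
/-- shift of the variables when a set variable is added -/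
def rS (m : ℕ) : ℕ := if m % 2 = 0 then m + 1 else m - 1

theorem rep_N {i : CLx.{u}} {x : ℕ → ℕ} {X : ℕ → Set ℕ} {v : ℕ → i.1.F} (h : Rep i x X v)
    (k : ℕ) : Rep i (cns k x) X (fun m => cns (nu i k) v (rN m)) := by
  constructor
  · intro n
    cases n with
    | zero => rfl
    | succ n =>
      have : rN (2 * (n + 1)) = 2 * n + 1 := by unfold rN; rw [if_neg (by omega), if_pos (by omega)]; omega
      show cns (nu i k) v (rN (2 * (n + 1))) = _
      rw [this, cns_succ, cns_succ, h.1]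
  · intro n l
    have : rN (2 * n + 1) = 2 * n + 1 + 1 := by unfold rN; rw [if_neg (by omega), if_neg (by omega)]
    show nu i l ≤ cns (nu i k) v (rN (2 * n + 1)) ↔ _
    rw [this, cns_succ, h.2]

theorem rep_S {i : CLx.{u}} {x : ℕ → ℕ} {X : ℕ → Set ℕ} {v : ℕ → i.1.F} (h : Rep i x X v)
    (a : i.1.F) (S : Set ℕ) (hS : ∀ k, nu i k ≤ a ↔ k ∈ S) :
    Rep i x (cns S X) (fun m => cns a v (rS m)) := by
  constructor
  · intro n
    have : rS (2 * n) = 2 * n + 1 := by unfold rS; rw [if_pos (by omega)]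
    show cns a v (rS (2 * n)) = _
    rw [this, cns_succ, h.1]
  · intro n l
    cases n with
    | zero => exact hS l
    | succ n =>
      have : rS (2 * (n + 1) + 1) = 2 * n + 1 + 1 := by unfold rS; rw [if_neg (by omega)]; omega
      show nu i l ≤ cns a v (rS (2 * (n + 1) + 1)) ↔ _
      rw [this, cns_succ, cns_succ, h.2]

theorem ds_sat (φ : SO) : DS.{u} φ.Sat := by
  induction φ with
  | add a b c =>
    refine ⟨_, dm_restrict (dm_pl (2 * a) (2 * b) (2 * c)), fun i x X v h => ?_⟩
    obtain ⟨h0, h1, h2, h3, h4⟩ := i.2.exists_nu.choose_spec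
    simp only [h.1]
    exact i.2.plus h0 h1 h2 h3 h4 _ _ _
  | mul a b c =>
    refine ⟨_, dm_restrict (dm_tm (2 * a) (2 * b) (2 * c)), fun i x X v h => ?_⟩
    obtain ⟨h0, h1, h2, h3, h4⟩ := i.2.exists_nu.choose_spec
    simp only [h.1]
    exact i.2.times h0 h1 h2 h3 h4 _ _ _
  | mem a b =>
    refine ⟨_, dm_restrict (dm_le (2 * a) (2 * b + 1)), fun i x X v h => ?_⟩
    simp only [h.1]
    exact h.2 b (x a)
  | neg φ ih =>
    obtain ⟨Q, hQ, h⟩ := ih
    exact ⟨_, DM.not hQ, fun i x X v hv => not_congr (h i x X v hv)⟩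
  | and φ ψ ih1 ih2 =>
    obtain ⟨Q1, hQ1, h1⟩ := ih1
    obtain ⟨Q2, hQ2, h2⟩ := ih2
    exact ⟨_, DM.and hQ1 hQ2, fun i x X v hv => and_congr (h1 i x X v hv) (h2 i x X v hv)⟩
  | exN φ ih =>
    obtain ⟨Q, hQ, h⟩ := ih
    refine ⟨fun i v => ∃ a, Num (i.1.p 0) a ∧ Q i (fun m => cns a v (rN m)), ?_,
      fun i x X v hv => ?_⟩
    · refine DM.ex (S := fun (i : CLx.{u}) a v => Num (i.1.p 0) a ∧ Q i (fun m => cns a v (rN m)))
        (DM.and (dm_restrict (dm_nump 0 0)) ?_)
      refine DM.iff (fun i v => ?_) (DM.ren rN hQ)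
      rw [cns_eta]
    · constructor
      · rintro ⟨a, ha, hQa⟩
        obtain ⟨k, rfl⟩ := (num_nu i a).1 ha
        exact ⟨k, (h i _ _ _ (rep_N hv k)).1 hQa⟩
      · rintro ⟨k, hk⟩
        exact ⟨nu i k, (num_nu i _).2 ⟨k, rfl⟩, (h i _ _ _ (rep_N hv k)).2 hk⟩
  | exS φ ih =>
    obtain ⟨Q, hQ, h⟩ := ih
    refine ⟨fun i v => ∃ a, Q i (fun m => cns a v (rS m)), ?_, fun i x X v hv => ?_⟩
    · refine DM.ex (S := fun (i : CLx.{u}) a v => Q i (fun m => cns a v (rS m))) ?_
      refine DM.iff (fun i v => ?_) (DM.ren rS hQ)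
      rw [cns_eta]
    · constructor
      · rintro ⟨a, hQa⟩
        exact ⟨{k | nu i k ≤ a}, (h i _ _ _ (rep_S hv a _ fun k => Iff.rfl)).1 hQa⟩
      · rintro ⟨S, hS⟩
        obtain ⟨a, ha⟩ := compr1 (p := i.1.p) (fun x => ∃ k ∈ S, x = nu i k)
        refine ⟨a, (h i _ _ _ (rep_S hv a S fun k => ?_)).2 hS⟩
        rw [ha _ ((num_nu i _).2 ⟨k, rfl⟩)]
        constructor
        · rintro ⟨l, hl, e⟩
          rwa [nu_inj i e]
        · intro hk
          exact ⟨k, hk, rfl⟩

theorem realize_psi (B : ℕ → Prop) (φs φh : Lat.Formula (Fin 5 ⊕ ℕ))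
    (hs : ∀ (i : CL.{u}) (v : ℕ → i.F), φs.Realize (Sum.elim (par i) v) ↔ Sc i.p (v 0) (v 1))
    (hh : ∀ (i : CLx.{u}) (a : ℕ),
      φh.Realize (Sum.elim (parx i) (fun _ => nu i a)) ↔ B a)
    (i : CLx.{u}) (v : Empty → i.1.F) (j : ℕ) : ∀ (k : ℕ) (xs : Fin (5 + k) → i.1.F) (a : ℕ),
    (∀ s : Fin 5, xs (Fin.castAdd k s) = i.1.p s) → xs ⟨4 + k, by omega⟩ = nu i a →
    ((Psi φs φh j k).Realize v xs ↔ ¬ B (a + j)) := by
  induction j with
  | zero =>
    intro k xs a hp ha
    show (_ → False) ↔ _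
    refine not_congr ?_
    refine (realize_toBF (g0 k) φh v xs).trans ?_
    have e : (fun s => xs (Fin.castAdd 0 (g0 k s))) =
        Sum.elim (parx i) (fun _ => nu i a) := by
      funext s
      rcases s with s | s
      · exact hp s
      · exact ha
    rw [e]
    refine Iff.trans ?_ (hh i a)
    unfold Formula.Realize
    exact iff_of_eq (congrArg (BoundedFormula.Realize φh _) (Subsingleton.elim _ _))
  | succ j ih =>
    intro k xs a hp ha
    obtain ⟨h0, h1, h2, h3, h4⟩ := i.2.exists_nu.choose_spec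
    have hstep : ∀ y : i.1.F, (toBF (g1 k) φs).Realize v (Fin.snoc xs y : Fin (5 + k + 1) → i.1.F) ↔
        Sc i.1.p (nu i a) y := by
      intro y
      refine (realize_toBF (g1 k) φs v (Fin.snoc xs y : Fin (5 + k + 1) → i.1.F)).trans ?_
      have e : (fun s => (Fin.snoc xs y : Fin (5 + k + 1) → i.1.F) (Fin.castAdd 0 (g1 k s))) =
          Sum.elim (par i.1) (cns (nu i a) (fun _ => y)) := by
        funext s
        rcases s with s | s
        · refine Eq.trans ?_ (hp s)
          exact Fin.snoc_castSucc (α := fun _ => i.1.F) y xs (Fin.castAdd k s)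
        · cases s with
          | zero =>
            refine Eq.trans ?_ ha
            exact Fin.snoc_castSucc (α := fun _ => i.1.F) y xs ⟨4 + k, by omega⟩
          | succ s =>
            have e5 : (Fin.castAdd 0 (g1 k (Sum.inr (s + 1))) : Fin (5 + (k + 1))) =
                Fin.last (5 + k) := by
              apply Fin.ext
              show 4 + (k + 1) = 5 + k
              omega
            show (Fin.snoc xs y : Fin (5 + k + 1) → i.1.F)
              (Fin.castAdd 0 (g1 k (Sum.inr (s + 1))) : Fin (5 + (k + 1))) = y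
            rw [e5]
            exact Fin.snoc_last (α := fun _ => i.1.F) y xs
      rw [e]
      refine Iff.trans ?_ (hs i.1 (cns (nu i a) (fun _ => y)))
      unfold Formula.Realize
      exact iff_of_eq (congrArg (BoundedFormula.Realize φs _) (Subsingleton.elim _ _))
    have hrec : ∀ b : ℕ, (Psi φs φh j (k + 1)).Realize v
        (Fin.snoc xs (nu i b) : Fin (5 + k + 1) → i.1.F) ↔ ¬ B (b + j) := by
      intro b
      refine ih (k + 1) (Fin.snoc xs (nu i b) : Fin (5 + k + 1) → i.1.F) b ?_ ?_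
      · intro s
        refine Eq.trans ?_ (hp s)
        exact Fin.snoc_castSucc (α := fun _ => i.1.F) (nu i b) xs (Fin.castAdd k s)
      · have e5 : (⟨4 + (k + 1), by omega⟩ : Fin (5 + (k + 1))) = Fin.last (5 + k) := by
          apply Fin.ext
          show 4 + (k + 1) = 5 + k
          omega
        rw [e5]
        exact Fin.snoc_last (α := fun _ => i.1.F) (nu i b) xs
    show (∀ y, _ → _) ↔ _
    constructor
    · intro h
      have h5 := h (nu i (a + 1)) ((hstep _).2 (h1 a))
      have h6 := (hrec (a + 1)).1 h5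
      rwa [show a + 1 + j = a + (j + 1) by ring] at h6
    · intro h y hy
      have h5 := (hstep y).1 hy
      obtain ⟨b, rfl⟩ := (h3 y).1 h5.2.1
      have h6 := (h4 a b).1 h5
      refine (hrec b).2 ?_
      rw [h6, show a + 1 + j = a + (j + 1) by ring]
      exact h

/-- For every set `A` definable in second-order arithmetic there is a computable sequence of
sentences whose `n`-th member holds in a complete lattice `F` iff `n ∈ A`, if some parameters in
`F` satisfy the axioms; and holds in `F` otherwise. -/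
theorem exists_reduction {A : ℕ → Prop} (hA : Analytical A) :
    ∃ σ : ℕ → Lat.Sentence, Primrec (fun n => code (σ n)) ∧
      ∀ n (F : Type u) [CompleteLattice F], F ⊨ σ n ↔ ∀ p : Fin 5 → F, Chi p → A n := by
  obtain ⟨φ, hφ⟩ := hA
  obtain ⟨φx, hx⟩ := dm_chi.{u}
  obtain ⟨φs, hs⟩ := dm_sc.{u} 0 1
  obtain ⟨Q, ⟨φh, hφh⟩, hQ⟩ := ds_sat.{u} (.neg φ)
  have hh : ∀ (i : CLx.{u}) (a : ℕ),
      φh.Realize (Sum.elim (parx i) (fun _ => nu i a)) ↔ ¬ A a := by
    intro i a
    rw [hφh, hQ i (fun _ => a) (fun _ => {k | nu i k ≤ nu i a}) (fun _ => nu i a)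
      ⟨fun _ => rfl, fun _ _ => Iff.rfl⟩, hφ a (fun _ => {k | nu i k ≤ nu i a})]
    exact Iff.rfl
  have key : ∀ n (F : Type u) [CompleteLattice F], F ⊨ sig φx φs φh n ↔
      ∀ p : Fin 5 → F, Chi p → A n := by
    intro n F _
    unfold sig Sentence.Realize
    rw [BoundedFormula.realize_alls]
    refine forall_congr' fun p => ?_
    show (_ → _) ↔ _
    have h1 : (toBF gx φx : Lat.BoundedFormula Empty 5).Realize default p ↔ Chi p := by
      refine (realize_toBF gx φx default p).trans ?_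
      refine Iff.trans ?_ (hx ⟨F, p⟩ (fun _ => p 0))
      have e : (fun s => p (Fin.castAdd 0 (gx s))) = Sum.elim (par ⟨F, p⟩) (fun _ => p 0) := by
        funext s
        rcases s with s | s <;> rfl
      rw [e]
      unfold Formula.Realize
      exact iff_of_eq (congrArg (BoundedFormula.Realize φx _) (Subsingleton.elim _ _))
    constructor
    · intro h hC
      have h2 := h (h1.2 hC)
      have h3 := (realize_psi (fun a => ¬ A a) φs φh hs hh ⟨⟨F, p⟩, hC⟩ default n 0 p 0
        (fun s => rfl) ?_).1 h2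
      · rwa [zero_add, not_not] at h3
      · exact (Chi.exists_nu hC).choose_spec.1.symm
    · intro h hC
      have hC' := h1.1 hC
      refine (realize_psi (fun a => ¬ A a) φs φh hs hh ⟨⟨F, p⟩, hC'⟩ default n 0 p 0
        (fun s => rfl) ?_).2 ?_
      · exact (Chi.exists_nu hC').choose_spec.1.symm
      · rw [zero_add, not_not]
        exact h hC'
  exact ⟨sig φx φs φh, primrec_sig φx φs φh, key⟩

/-- every set definable in second-order arithmetic is many-one reducible to the theory -/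
theorem reducible {A : ℕ → Prop} (hA : Analytical A) :
    A ≤₀ fun n : ℕ => ∃ σ : Lat.Sentence, code σ = n ∧
      ∀ (G : Type u) [Group G] [Lattice G] [MulLeftMono G] [MulRightMono G], LIdeal G ⊨ σ := by
  obtain ⟨σ, hσ, h⟩ := exists_reduction.{u} hA
  refine ⟨fun n => code (σ n), hσ.to_comp, fun n => ?_⟩
  constructor
  · intro hn
    exact ⟨σ n, rfl, fun G _ _ _ _ => (h n (LIdeal G)).2 fun _ _ => hn⟩
  · rintro ⟨τ, hτ, hh⟩
    rw [code_injective _ _ hτ] at hh
    exact (h n (LIdeal (G0 Ix.{u}))).1 (hh (G0 Ix.{u})) pr chi_pr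

end Pool.Agent.Y669.TA.LIdl
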