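import Pool.Agent.Results.MP_b13462_lc.Undecidable

/-! Quasi-identities with fixed premises: the consequences in all Lie rings are recursively
inseparable from the non-consequences in finite nilpotent Lie rings of exponent two. -/

set_option autoImplicit false

namespace Pool.Agent.Y669.TA.LieQ

open Pool.Agent.H662R2.SM
open Pool.Agent.Results.MP_b13462_lc.Undecidable

section filtration

variable (K Γ Q : Type) (N : ℕ)

/-- total length of a family of stacks -/
noncomputable def tot {K Γ Q : Type} (U : Option K → List (Let Γ Q)) : ℕ :=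
  ∑ᶠ s, (U s).length

/-- the top level -/
noncomputable def top (K : Type) (N : ℕ) : ℕ := Nat.card (Option K) * N + 1

theorem tot_push {K Γ Q : Type} [Finite K] [DecidableEq K] (U : Option K → List (Let Γ Q))
    (x : Option K × Let Γ Q) : tot (push U x) = tot U + 1 := by
  classical
  have := Fintype.ofFinite (Option K)
  unfold tot
  rw [finsum_eq_sum_of_fintype, finsum_eq_sum_of_fintype,
    ← Finset.add_sum_erase _ _ (Finset.mem_univ x.1), ← Finset.add_sum_erase _ (fun s => (U s).length) (Finset.mem_univ x.1)]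
  have h1 : (push U x x.1).length = (U x.1).length + 1 := by
    unfold push
    rw [Function.update_self]
    rfl
  have h2 : ∑ s ∈ Finset.univ.erase x.1, (push U x s).length =
      ∑ s ∈ Finset.univ.erase x.1, (U s).length := by
    refine Finset.sum_congr rfl fun s hs => ?_
    unfold push
    rw [Function.update_of_ne (Finset.ne_of_mem_erase hs)]
  rw [h1, h2]
  omega

theorem tot_lt {K Γ Q : Type} [Finite K] {N : ℕ} {U : Option K → List (Let Γ Q)}
    (h : ∀ s, (U s).length ≤ N) : tot U < top K N := by
  classical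
  have := Fintype.ofFinite (Option K)
  unfold tot top
  rw [finsum_eq_sum_of_fintype, Nat.card_eq_fintype_card]
  have := Finset.sum_le_card_nsmul Finset.univ (fun s => (U s).length) N (fun s _ => h s)
  rw [smul_eq_mul, Finset.card_univ] at this
  omega

/-- the filtration of `W` -/
def Wf (l : ℕ) (w : W K Γ Q N) : Prop :=
  (∀ U, l ≤ tot U → w.1.1 U = 0) ∧ (l ≤ top K N → w.2 = 0)

variable {K Γ Q N}

theorem Wf.zero (l : ℕ) : Wf K Γ Q N l 0 := ⟨fun _ _ => rfl, fun _ => rfl⟩

theorem Wf.add {l : ℕ} {w w' : W K Γ Q N} (h : Wf K Γ Q N l w) (h' : Wf K Γ Q N l w') :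
    Wf K Γ Q N l (w + w') := by
  refine ⟨fun U hU => ?_, fun hl => ?_⟩
  · show w.1.1 U + w'.1.1 U = 0
    rw [h.1 U hU, h'.1 U hU, add_zero]
  · show w.2 + w'.2 = 0
    rw [h.2 hl, h'.2 hl, add_zero]

theorem Wf.neg {l : ℕ} {w : W K Γ Q N} (h : Wf K Γ Q N l w) : Wf K Γ Q N l (-w) := by
  refine ⟨fun U hU => ?_, fun hl => ?_⟩
  · show -(w.1.1 U) = 0
    rw [h.1 U hU, neg_zero]
  · show -w.2 = 0
    rw [h.2 hl, neg_zero]

theorem Wf.eq_zero {w : W K Γ Q N} (h : Wf K Γ Q N 0 w) : w = 0 := by
  refine Prod.ext (Subtype.ext (funext fun U => h.1 U (Nat.zero_le _))) (h.2 (Nat.zero_le _))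

theorem Wf.all [Finite K] (w : W K Γ Q N) : Wf K Γ Q N (top K N + 1) w := by
  refine ⟨fun U hU => ?_, fun hl => absurd hl (by omega)⟩
  apply w.1.2
  by_contra hcon
  push Not at hcon
  have := tot_lt hcon
  omega

/-- the value of an operator -/
def app (X : R K Γ Q N) (w : W K Γ Q N) : W K Γ Q N :=
  (show Module.End (ZMod 2) (W K Γ Q N) from X) w

theorem app_ext {X Y : R K Γ Q N} (h : ∀ w, app X w = app Y w) : X = Y :=
  LinearMap.ext (f := (show Module.End (ZMod 2) (W K Γ Q N) from X)) h

/-- operators which lower the filtration by `k` -/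
def Low (k : ℕ) (X : R K Γ Q N) : Prop :=
  ∀ l (w : W K Γ Q N), Wf K Γ Q N (l + k) w → Wf K Γ Q N l (app X w)

theorem Low.zero (k : ℕ) : Low k (0 : R K Γ Q N) := fun l _ _ => Wf.zero l

theorem Low.add {k : ℕ} {X Y : R K Γ Q N} (h : Low k X) (h' : Low k Y) : Low k (X + Y) :=
  fun l w hw => (h l w hw).add (h' l w hw)

theorem Low.neg {k : ℕ} {X : R K Γ Q N} (h : Low k X) : Low k (-X) :=
  fun l w hw => (h l w hw).neg

theorem Low.mul {k m : ℕ} {X Y : R K Γ Q N} (h : Low k X) (h' : Low m Y) : Low (k + m) (X * Y) :=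
  fun l w hw => h l _ (h' (l + k) w (by rwa [add_assoc]))

theorem Low.lie {k m : ℕ} {X Y : R K Γ Q N} (h : Low k X) (h' : Low m Y) :
    Low (k + m) ⁅X, Y⁆ := by
  have e : ⁅X, Y⁆ = X * Y + -(Y * X) := by rw [LieRing.of_associative_ring_bracket, sub_eq_add_neg]
  rw [e]
  refine (h.mul h').add (Low.neg ?_)
  rw [add_comm]
  exact h'.mul h

theorem Low.zsmul {k : ℕ} {X : R K Γ Q N} (h : Low k X) (c : ℤ) : Low k (c • X) := by
  induction c using Int.induction_on with
  | zero => rw [zero_smul]; exact Low.zero k
  | succ n ih => rw [add_smul, one_smul]; exact ih.add h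
  | pred n ih => rw [sub_smul, one_smul, sub_eq_add_neg]; exact ih.add h.neg

variable (K Γ Q N)

/-- the Lie ring of the operators which lower the filtration by one -/
noncomputable def Nil : LieSubalgebra ℤ (R K Γ Q N) where
  carrier := {X | Low 1 X}
  add_mem' h h' := h.add h'
  zero_mem' := Low.zero 1
  smul_mem' c _ h := h.zsmul c
  lie_mem' {X Y} h h' := by
    intro l w hw
    have h2 : Low (1 + 1) ⁅X, Y⁆ := Low.lie (show Low 1 X from h) (show Low 1 Y from h')
    refine h2 l w ?_
    refine ⟨fun U hU => hw.1 U (by omega), fun hl => hw.2 (by omega)⟩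

variable {K Γ Q}

theorem lift_T_mem [DecidableEq K] [Finite K] (x : Option K × Let Γ Q) :
    lift N (T N x) ∈ Nil K Γ Q N := by
  show Low 1 (lift N (T N x))
  intro l w hw
  refine ⟨fun U hU => ?_, fun _ => rfl⟩
  show w.1.1 (push U x) = 0
  refine hw.1 _ ?_
  rw [tot_push]
  omega

theorem col_mem [Finite K] (F : V K Γ Q N) : col N F ∈ Nil K Γ Q N := by
  show Low 1 (col N F)
  intro l w hw
  refine ⟨fun U hU => ?_, fun _ => rfl⟩
  show (w.2 • F).1 U = 0
  by_cases hl : l + 1 ≤ top K N
  · rw [hw.2 hl, zero_smul]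
    rfl
  · have h1 : F.1 U = 0 := by
      apply F.2
      by_contra hcon
      push Not at hcon
      have := tot_lt hcon
      omega
    show w.2 * F.1 U = 0
    rw [h1, mul_zero]

theorem isNilpotent [Finite K] : LieRing.IsNilpotent (Nil K Γ Q N) := by
  refine ⟨⟨top K N, ?_⟩⟩
  have key : ∀ k, ∀ X ∈ LieModule.lowerCentralSeries ℤ (Nil K Γ Q N) (Nil K Γ Q N) k,
      Low (k + 1) (X : R K Γ Q N) := by
    intro k
    induction k with
    | zero => intro X _; exact show Low 1 X.1 from X.2
    | succ k ih =>
      intro X hX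
      rw [LieModule.lowerCentralSeries_succ, ← LieSubmodule.mem_toSubmodule,
        LieSubmodule.lieIdeal_oper_eq_linear_span'] at hX
      induction hX using Submodule.span_induction with
      | mem X hX =>
        obtain ⟨Y, -, Z, hZ, rfl⟩ := hX
        have h1 : Low (1 + (k + 1)) ⁅(Y : R K Γ Q N), (Z : R K Γ Q N)⁆ :=
          Low.lie (show Low 1 Y.1 from Y.2) (ih Z hZ)
        rw [add_comm 1] at h1
        exact h1
      | zero => exact Low.zero _
      | add X Y _ _ h1 h2 => exact h1.add h2
      | smul c X _ h1 => exact h1.zsmul c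
  rw [LieSubmodule.eq_bot_iff]
  intro X hX
  refine Subtype.ext (app_ext fun w => ?_)
  have := key _ X hX 0 w (by rw [zero_add]; exact Wf.all w)
  exact this.eq_zero

theorem exp_two (X : Nil K Γ Q N) : X + X = 0 := by
  refine Subtype.ext (app_ext fun w => ?_)
  show app X.1 w + app X.1 w = 0
  generalize app X.1 w = u
  have : (2 : ZMod 2) • u = 0 := by
    rw [show (2 : ZMod 2) = 0 from by decide, zero_smul]
  rwa [two_smul] at this

instance finite_Nil [Finite K] [Finite Γ] [Finite Q] : Finite (Nil K Γ Q N) :=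
  Finite.of_injective (fun X : Nil K Γ Q N => (X : R K Γ Q N)) Subtype.val_injective

theorem eval_coe (v : ℕ → Nil K Γ Q N) (t : Term) :
    ((t.eval v : Nil K Γ Q N) : R K Γ Q N) = t.eval (fun i => (v i : R K Γ Q N)) := by
  induction t with
  | var i => rfl
  | zero => rfl
  | add s t h1 h2 => simp only [Term.eval, ← h1, ← h2]; rfl
  | neg s h1 => simp only [Term.eval, ← h1]; rfl
  | br s t h1 h2 => simp only [Term.eval, ← h1, ← h2]; rfl

end filtration

theorem reject' {K Γ Q : Type} [DecidableEq K] [Finite K] [Finite Γ] [Finite Q] (M : Mach K Γ Q)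
    (acc : Q → Γ → Prop) (hacc : ∀ q o, acc q o → M.δ q o = none) (e : Gen K Γ Q → ℕ)
    (he : Function.Injective e) (ks : List K) (hks : ks.Nodup) (hall : ∀ k, k ∈ ks) (q₀ : Q)
    (S₀ : K → List Γ) (r : Q × (K → List Γ)) (hr : M.Reaches (q₀, S₀) r) (hh : M.step r = none)
    (hna : ∀ o z, r.2 (M.κ r.1) = o :: z → ¬ acc r.1 o) :
    ∃ (N : ℕ) (v : ℕ → R K Γ Q N), (∀ i, v i ∈ Nil K Γ Q N) ∧
      (∀ p, IsPrem M acc e p → p.1.eval v = p.2.eval v) ∧
        (cfgTerm ks e q₀ S₀).eval v ≠ 0 := by
  classical
  obtain ⟨N, hN⟩ := orb_bound M (q₀, S₀) r hr hh []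
  let f : Q → V K Γ Q N := fun q =>
    ⟨fun U => if ∃ S h, Orb M q₀ S₀ (q, S, h) ∧ encode S h = U then 1 else 0, by
      rintro U ⟨s, hs⟩
      refine if_neg ?_
      rintro ⟨S, h, hO, rfl⟩
      exact absurd (hN _ hO s) (not_le.2 hs)⟩
  let ρ : Gen K Γ Q → R K Γ Q N := fun x =>
    match x with
    | .inl x => lift N (T N x)
    | .inr q => col N (f q)
  let v : ℕ → R K Γ Q N := Function.extend e ρ 0
  have hv : ∀ x, v (e x) = ρ x := fun x => he.extend_apply ρ 0 x
  have hv1 : ∀ x, v (e (.inl x)) = lift N (T N x) := fun x => hv _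
  have hv2 : ∀ q, v (e (.inr q)) = col N (f q) := fun q => hv _
  refine ⟨N, v, ?_, ?_, ?_⟩
  · intro i
    by_cases hi : ∃ x, e x = i
    · obtain ⟨x, rfl⟩ := hi
      rcases x with x | q
      · rw [hv1]
        exact lift_T_mem N x
      · rw [hv2]
        exact col_mem N (f q)
    · have : v i = 0 := Function.extend_apply' ρ (0 : ℕ → R K Γ Q N) i hi
      rw [this]
      exact (Nil K Γ Q N).zero_mem
  · rintro p (⟨s, t, a, b, hst, rfl⟩ | ⟨q, o, q', w, hδ, rfl⟩ | ⟨q, o, ha, rfl⟩)
    · simp only [Term.eval]
      rw [hv1, hv1]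
      exact lift_lift N _ _ (T_comm N (s, a) (t, b) hst)
    · have h1 : (Term.br (.var (e (.inl (none, .inr (q, o))))) (.var (e (.inr q'))) : Term).eval v =
          col N (T N (none, .inr (q, o)) (f q')) := by
        simp only [Term.eval]
        rw [hv1, hv2, lift_col]
      have h2 := eval_chain_col N e v hv1 _ _ h1
        (w.reverse.map fun x => ((some (M.κ q), .inl x) : Option K × Let Γ Q))
      simp only [List.map_map] at h2
      have h3 : (fun x => Term.var (e (Sum.inl x))) ∘
          (fun x => ((some (M.κ q), .inl x) : Option K × Let Γ Q)) =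
          fun x => Term.var (e (.inl (some (M.κ q), .inl x))) := rfl
      rw [h3] at h2
      show (Term.br _ _).eval v = _
      rw [h2]
      simp only [Term.eval]
      rw [hv1, hv2, lift_col]
      congr 1
      apply Subtype.ext
      funext U
      rw [foldr_T, foldl_push_word]
      show (if ∃ S h, Orb M q₀ S₀ (q, S, h) ∧ encode S h = push U (some (M.κ q), .inl o)
          then (1 : ZMod 2) else 0) =
        (if ∃ S h, Orb M q₀ S₀ (q', S, h) ∧ encode S h =
          push (Function.update U (some (M.κ q)) (w.map Sum.inl ++ U (some (M.κ q))))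
            (none, .inr (q, o)) then (1 : ZMod 2) else 0)
      simp only [orb_key M q₀ S₀ hδ U]
    · simp only [Term.eval]
      rw [hv1, hv2, lift_col]
      have : T N (some (M.κ q), .inl o) (f q) = 0 := by
        apply Subtype.ext
        funext U
        show (if ∃ S h, Orb M q₀ S₀ (q, S, h) ∧ encode S h = push U (some (M.κ q), .inl o)
          then (1 : ZMod 2) else 0) = 0
        rw [if_neg]
        rintro ⟨S, h, hO, heq⟩
        have e1 : (S (M.κ q)).map Sum.inl = Sum.inl o :: U (some (M.κ q)) := by
          have := congrFun heq (some (M.κ q))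
          simpa [encode, push] using this
        rcases hS : S (M.κ q) with _ | ⟨o', z⟩
        · simp [hS] at e1
        · rw [hS, List.map_cons, List.cons.injEq] at e1
          have h1 : o' = o := Sum.inl_injective e1.1
          subst h1
          have h2 : M.step (q, S) = none := by
            simp [Mach.step, hS, hacc q o' ha]
          have h3 := halt_unique (orb_proj hO) hr h2 hh
          simp only at h3
          subst h3
          exact hna o' z hS ha
      rw [this]
      exact col_zero N
  · intro h0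
    have h1 := eval_chain_col N e v hv1 (.var (e (.inr q₀))) (f q₀)
      (by simp only [Term.eval]; exact hv2 q₀) (word ks S₀)
    have h2 : (cfgTerm ks e q₀ S₀).eval v =
        col N ((word ks S₀).foldr (fun x G => T N x G) (f q₀)) := h1
    rw [h2] at h0
    have h3 := col_inj N h0
    have h4 : ((word ks S₀).foldr (fun x G => T N x G) (f q₀)).1 (fun _ => []) = 0 := by
      rw [h3]; rfl
    rw [foldr_T, foldl_push_all ks hks] at h4
    have h5 : (f q₀).1 (fun s => match s with
        | some k => if k ∈ ks then (S₀ k).map Sum.inl ++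
            ((fun _ => []) : Option K → List (Let Γ Q)) (some k) else
            ((fun _ => []) : Option K → List (Let Γ Q)) (some k)
        | none => ((fun _ => []) : Option K → List (Let Γ Q)) none) = 1 := by
      show (if _ then (1 : ZMod 2) else 0) = 1
      rw [if_pos]
      refine ⟨S₀, [], Relation.ReflTransGen.refl, ?_⟩
      funext s
      cases s with
      | none => simp [encode]
      | some k => simp [encode, hall k]
    exact absurd (h5.symm.trans h4) (by decide)


/-- right-normed monomials `[x_{i_1}, [x_{i_2}, ..., [x_{i_k}, x_j]...]]` -/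
def mono (w : List ℕ) (j : ℕ) : Term := w.foldr (fun i t => .br (.var i) t) (.var j)

open Turing in
open PartrecToTM2 (K' trNat) in
/-- fixed premises, recursive inseparability -/
theorem exists_prem : ∃ (P : List (Term × Term)) (j : ℕ) (w : ℕ → List ℕ),
    Computable w ∧
    (∀ n, 0 ∈ diag n → ∀ (L : Type) [LieRing L],
      (QuasiId.mk P (mono (w n) j, .zero)).TrueIn L) ∧
    (∀ n, 1 ∈ diag n → ∃ (L : Type) (_ : LieRing L), Finite L ∧ LieRing.IsNilpotent L ∧
      (∀ x : L, x + x = 0) ∧ ¬ (QuasiId.mk P (mono (w n) j, .zero)).TrueIn L) := by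
  obtain ⟨Q, finQ, M, q0, acc, hacc, hA, hR⟩ := exists_mach diag diag_partrec
  have finK : Finite K' := by
    refine Finite.of_injective (fun k : K' => match k with
      | .main => (0 : Fin 4)
      | .rev => 1
      | .aux => 2
      | .stack => 3) ?_
    intro a b h
    cases a <;> cases b <;> simp_all
  obtain ⟨N, ⟨eq⟩⟩ := Finite.exists_equiv_fin (Gen K' (Option PartrecToTM2.Γ') Q)
  let e : Gen K' (Option PartrecToTM2.Γ') Q → ℕ := fun x => (eq x : ℕ)
  have he : Function.Injective e := fun a b h => eq.injective (Fin.ext h)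
  let ks : List K' := [.rev, .aux, .stack, .main]
  have hks : ks.Nodup := by decide
  have hall : ∀ k, k ∈ ks := by intro k; cases k <;> simp [ks]
  let P : List (Term × Term) := (finite_prem M acc e).toFinset.toList
  have hP : ∀ p, p ∈ P ↔ IsPrem M acc e p := by
    intro p
    simp [P]
  let κ : PartrecToTM2.Γ' → ℕ := fun a => e (.inl (some .main, .inl (some a)))
  let pre : List ℕ := [e (.inl (some .rev, .inl none)), e (.inl (some .aux, .inl none)),
    e (.inl (some .stack, .inl none)), e (.inl (some .main, .inl none)), κ .cons]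
  let w : ℕ → List ℕ := fun n => pre ++ ((trNat n).map κ).reverse
  have hw : ∀ n, mono (w n) (e (.inr q0)) = cfgTerm ks e q0 (start n) := by
    intro n
    have hch : ∀ (l : List (Option K' × Let (Option PartrecToTM2.Γ') Q)) (t : Term),
        (l.map fun x => e (.inl x)).foldr (fun i t => .br (.var i) t) t =
          chain (l.map fun x => .var (e (.inl x))) t := by
      intro l t
      induction l with
      | nil => rfl
      | cons x l ih =>
        rw [List.map_cons, List.foldr_cons, ih]
        rfl
    have h2 : (word ks (start n) : List (Option K' × Let (Option PartrecToTM2.Γ') Q)) =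
        (some .rev, .inl none) :: (some .aux, .inl none) :: (some .stack, .inl none) ::
        (some .main, .inl none) :: (some .main, .inl (some .cons)) ::
        ((trNat n).map fun a => (some K'.main, .inl (some a))).reverse := by
      simp [word, ks, start, List.map_reverse]
    have h3 : w n = (word ks (start n) :
        List (Option K' × Let (Option PartrecToTM2.Γ') Q)).map fun x => e (.inl x) := by
      rw [h2]
      simp [w, pre, κ, Function.comp_def]
    unfold mono cfgTerm
    rw [h3, hch]
  have hcomp : Computable w :=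
    Computable.list_append.comp (Computable.const _)
      (Computable.list_reverse.comp (Pool.Agent.Helper147.Univ.digits_computable κ))
  refine ⟨P, e (.inr q0), w, hcomp, ?_, ?_⟩
  · intro n hn L _ v hv
    show (mono (w n) (e (.inr q0))).eval v = 0
    rw [hw]
    obtain ⟨q, S, o, z, h1, h2, h3⟩ := hA n hn
    exact accept M acc e v (fun p hp => hv p ((hP p).2 hp)) ks hks hall _ _ h1 o z h2 h3
  · intro n hn
    obtain ⟨q, S, h1, h2, h3⟩ := hR n hn
    obtain ⟨N, v, hv, h4, h5⟩ :=
      reject' M acc hacc e he ks hks hall q0 (start n) _ h1 h2 h3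
    refine ⟨Nil K' (Option PartrecToTM2.Γ') Q N, inferInstance, inferInstance, isNilpotent N,
      exp_two N, fun h => h5 ?_⟩
    have h6 := h (fun i => ⟨v i, hv i⟩) (fun p hp => Subtype.ext (by
      rw [eval_coe, eval_coe]
      exact h4 p ((hP p).1 hp)))
    have h7 := congrArg (Subtype.val) h6
    rw [eval_coe] at h7
    rw [← hw]
    exact h7

end Pool.Agent.Y669.TA.LieQ
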