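import Pool.Agent.Results.MP_6fdd0d_al.Unsolvable

/-! One finite presentation for which the consequences in all orthomodular lattices are recursively
inseparable from the non-consequences in the subspace lattices of Euclidean spaces. -/

set_option autoImplicit false
set_option linter.unusedSectionVars false

namespace Pool.Agent.Y669.TA.Oml

open Pool.Agent.H662R2.SM Pool.Agent.H662R2.Orbit
open Pool.Agent.Results.MP_6fdd0d_al.Unsolvable

theorem reject' {K Γ Q : Type} {n : ℕ} [DecidableEq K] [Finite K] [Finite Γ] [Finite Q] (M : Mach K Γ Q)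
    (acc : Q → Γ → Prop) (hacc : ∀ q o, acc q o → M.δ q o = none) (e : Gen K Γ Q → Fin n)
    (he : Function.Injective e) (ks : List K) (hks : ks.Nodup) (hall : ∀ k, k ∈ ks) (q₀ : Q)
    (S₀ : K → List Γ) (r : Q × (K → List Γ)) (hr : M.Reaches (q₀, S₀) r) (hh : M.step r = none)
    (hna : ∀ o z, r.2 (M.κ r.1) = o :: z → ¬ acc r.1 o) :
    ∃ (ι : Type) (_ : Fintype ι) (v : Fin n → Submodule ℝ (EuclideanSpace ℝ ι)),
      (∀ p, IsRel M acc e p → p.1.eval v = p.2.eval v) ∧
        (cfgTerm ks e q₀ S₀).eval v ≠ ⊥ := by
  classical
  obtain ⟨N, hN⟩ := orb_bound M (q₀, S₀) r hr hh []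
  have := finite_I (K := K) (Γ := Γ) (Q := Q) N
  have : Fintype (I K Γ Q N) := Fintype.ofFinite _
  let f : Q → (Option K → List (Let Γ Q)) → ℝ := fun q U =>
    if ∃ S h, Orb M q₀ S₀ (q, S, h) ∧ encode S h = U then 1 else 0
  have hf : ∀ q U, (∃ s, N < (U s).length) → f q U = 0 := by
    rintro q U ⟨s, hs⟩
    refine if_neg ?_
    rintro ⟨S, h, hO, rfl⟩
    exact absurd (hN _ hO s) (not_le.2 hs)
  let ρ : Gen K Γ Q → Submodule ℝ (EuclideanSpace ℝ (I K Γ Q N)) := fun x =>
    match x with
    | .inl (s, none) => S N s (muN N)
    | .inl (s, some none) => S N s (muM N)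
    | .inl (s, some (some a)) => S N s (muL N a)
    | .inr q => Submodule.span ℝ {emb N (f q)}
  let v : Fin n → Submodule ℝ (EuclideanSpace ℝ (I K Γ Q N)) := Function.extend e ρ ⊥
  have hv : ∀ x, v (e x) = ρ x := fun x => he.extend_apply ρ ⊥ x
  have h1 : ∀ s, v (e (.inl (s, none))) = S N s (muN N) := fun s => hv _
  have h2 : ∀ s, v (e (.inl (s, some none))) = S N s (muM N) := fun s => hv _
  have h3 : ∀ s a, v (e (.inl (s, some (some a)))) = S N s (muL N a) := fun s a => hv _
  have h4 : ∀ q, v (e (.inr q)) = Submodule.span ℝ {emb N (f q)} := fun q => hv _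
  have main := span_emb_foldr N e v h1 h2 h3
  have hop : ∀ x (F : (Option K → List (Let Γ Q)) → ℝ)
      (_ : ∀ U, (∃ s, N < (U s).length) → F U = 0), opE e v x (Submodule.span ℝ {emb N F}) =
        Submodule.span ℝ {emb N fun U => F (push U x)} := by
    intro x F hF
    exact (main [x] F hF).1
  refine ⟨I K Γ Q N, inferInstance, v, ?_, ?_⟩
  · rintro p (⟨s, t, a, b, hst, rfl⟩ | ⟨q, o, q', w, hδ, rfl⟩ | ⟨q, o, ha, rfl⟩)
    · show Com (v (e (.inl (s, a)))) (v (e (.inl (t, b))))
      rw [hv, hv]
      rcases a with _ | _ | a <;> rcases b with _ | _ | b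
      · exact com_S N hst (inv_muN N)
      · exact com_S N hst (inv_muM N)
      · exact com_S N hst (inv_muL N b)
      · exact com_S N hst (inv_muN N)
      · exact com_S N hst (inv_muM N)
      · exact com_S N hst (inv_muL N b)
      · exact com_S N hst (inv_muN N)
      · exact com_S N hst (inv_muM N)
      · exact com_S N hst (inv_muL N b)
    · show (tauT e (some (M.κ q), .inl o) (.var (e (.inr q)))).eval v =
        (chain e (w.reverse.map fun x => (some (M.κ q), .inl x))
        (tauT e (none, .inr (q, o)) (.var (e (.inr q'))))).eval v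
      rw [eval_tauT, eval_chain, eval_tauT]
      show opE e v _ (v (e (.inr q))) =
        ((w.reverse.map fun x => ((some (M.κ q), .inl x) : Option K × Let Γ Q)).map
          (opE e v)).prod (opE e v _ (v (e (.inr q'))))
      rw [h4, h4, hop _ _ (hf q), hop _ _ (hf q'), (main _ _ ?_).1]
      · congr 3
        funext U
        rw [foldl_push_word]
        show (if ∃ S h, Orb M q₀ S₀ (q, S, h) ∧ encode S h = push U (some (M.κ q), .inl o)
            then (1 : ℝ) else 0) =
          (if ∃ S h, Orb M q₀ S₀ (q', S, h) ∧ encode S h =
            push (Function.update U (some (M.κ q)) (w.map Sum.inl ++ U (some (M.κ q))))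
              (none, .inr (q, o)) then (1 : ℝ) else 0)
        simp only [orb_key M q₀ S₀ hδ U]
      · rintro U ⟨s, hs⟩
        apply hf
        refine ⟨s, hs.trans_le ?_⟩
        unfold push
        by_cases h : s = none
        · subst h; simp
        · rw [Function.update_of_ne h]
    · show (tauT e (some (M.κ q), .inl o) (.var (e (.inr q)))).eval v = ⊥
      rw [eval_tauT]
      show opE e v _ (v (e (.inr q))) = ⊥
      rw [h4, hop _ _ (hf q), Submodule.span_singleton_eq_bot]
      ext i
      rw [emb_apply]
      simp only [PiLp.zero_apply, ite_eq_right_iff]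
      intro _
      exact if_neg (orb_acc hacc hr hh hna ha _)
  · intro h0
    have h5 : (cfgTerm ks e q₀ S₀).eval v =
        ((word ks S₀).map (opE e v)).prod (v (e (.inr q₀))) := eval_chain e v _ _
    rw [h5, h4, (main _ _ (hf q₀)).1, Submodule.span_singleton_eq_bot] at h0
    have h6 := congrArg (fun g : EuclideanSpace ℝ (I K Γ Q N) =>
      g (fun _ => (⟨[], Nat.zero_le _⟩, false))) h0
    simp only [PiLp.zero_apply] at h6
    rw [emb_apply, if_pos (fun _ => rfl), foldl_push_all ks hks] at h6
    have h7 : f q₀ (fun s => match s with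
        | some k => if k ∈ ks then (S₀ k).map Sum.inl ++
            ((fun _ => []) : Option K → List (Let Γ Q)) (some k) else
            ((fun _ => []) : Option K → List (Let Γ Q)) (some k)
        | none => ((fun _ => []) : Option K → List (Let Γ Q)) none) = 1 := by
      show (if _ then (1 : ℝ) else 0) = 1
      rw [if_pos]
      refine ⟨S₀, [], Relation.ReflTransGen.refl, ?_⟩
      funext s
      cases s with
      | none => simp [encode]
      | some k => simp [encode, hall k]
    exact one_ne_zero (h7.symm.trans h6)


open Turing in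
open PartrecToTM2 (K' trNat) in
/-- one presentation, recursive inseparability -/
theorem exists_pres : ∃ (N : ℕ) (R : List (Term N × Term N)) (t : ℕ → Term N),
    (Computable fun n => (t n).code) ∧
    (∀ n, 0 ∈ diag n → ∀ (L : Type) [OML L] (v : Fin N → L), Satisfies R v → (t n).eval v = ⊥) ∧
    (∀ n, 1 ∈ diag n → ∃ (ι : Type) (_ : Fintype ι)
      (v : Fin N → Submodule ℝ (EuclideanSpace ℝ ι)), Satisfies R v ∧ (t n).eval v ≠ ⊥) := by
  obtain ⟨Q, finQ, M, q0, acc, hacc, hA, hR⟩ := exists_mach diag diag_partrec
  have finK : Finite K' := by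
    refine Finite.of_injective (fun k : K' => match k with
      | .main => (0 : Fin 4)
      | .rev => 1
      | .aux => 2
      | .stack => 3) ?_
    intro a b h
    cases a <;> cases b <;> simp_all
  obtain ⟨N, ⟨eq⟩⟩ := Finite.exists_equiv_fin (Gen K' (Option PartrecToTM2.Γ') Q)
  let e : Gen K' (Option PartrecToTM2.Γ') Q → Fin N := eq
  have he : Function.Injective e := eq.injective
  let ks : List K' := [.rev, .aux, .stack, .main]
  have hks : ks.Nodup := by decide
  have hall : ∀ k, k ∈ ks := by intro k; cases k <;> simp [ks]
  let R : List (Term N × Term N) := (finite_rel M acc e).toFinset.toList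
  have hRel : ∀ p, p ∈ R ↔ IsRel M acc e p := by
    intro p
    simp [R]
  let t : ℕ → Term N := fun n => cfgTerm ks e q0 (start n)
  -- the code of the operator of a letter
  let tc0 : K' → List ℕ := fun k =>
    [2, (e (.inl (some k, none)) : ℕ) + 5, 3, 4, (e (.inl (some k, none)) : ℕ) + 5,
      2, (e (.inl (some k, some none)) : ℕ) + 5, 3, 4, (e (.inl (some k, some none)) : ℕ) + 5,
      2, 4, (e (.inl (some k, none)) : ℕ) + 5, 3, 4, 4, (e (.inl (some k, none)) : ℕ) + 5, 2]
  let tc : K' → ℕ → List ℕ := fun k i => tc0 k ++ ((i + 5) :: 3 :: 4 :: [i + 5])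
  let κ : PartrecToTM2.Γ' → ℕ := fun a => e (.inl (some .main, some (some (.inl (some a)))))
  let pre : List ℕ := tc .rev (e (.inl (some .rev, some (some (.inl none))))) ++
    (tc .aux (e (.inl (some .aux, some (some (.inl none))))) ++
    (tc .stack (e (.inl (some .stack, some (some (.inl none))))) ++
    (tc .main (e (.inl (some .main, some (some (.inl none))))) ++ tc .main (κ .cons))))
  have tau_code : ∀ (k : K') (a : Let (Option PartrecToTM2.Γ') Q) (t : Term N),
      (tauT e (some k, a) t).code = tc k (e (.inl (some k, some (some a)))) ++ t.code := by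
    intro k a t
    simp [tauT, phiT, Term.code, tc, tc0]
  have hcode : ∀ n, (t n).code = pre ++ ((((trNat n).map κ).reverse.flatMap (tc .main)) ++
      [(e (.inr q0) : ℕ) + 5]) := by
    intro n
    have hw : (word ks (start n) : List (Option K' × Let (Option PartrecToTM2.Γ') Q)) =
        (some .rev, .inl none) :: (some .aux, .inl none) :: (some .stack, .inl none) ::
        (some .main, .inl none) :: (some .main, .inl (some .cons)) ::
        ((trNat n).map fun a => (some K'.main, .inl (some a))).reverse := by
      simp [word, ks, start, List.map_reverse]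
    have hch : ∀ (l : List PartrecToTM2.Γ') (t : Term N),
        (chain e (l.map fun a => (some K'.main, .inl (some a))) t).code =
          (l.map κ).flatMap (tc .main) ++ t.code := by
      intro l t
      induction l with
      | nil => rfl
      | cons a l ih =>
        have : chain e ((a :: l).map fun a => (some K'.main, .inl (some a))) t =
          tauT e (some .main, .inl (some a))
            (chain e (l.map fun a => (some K'.main, .inl (some a))) t) := rfl
        rw [this, tau_code, ih]
        simp [κ]
    have h1 : t n = tauT e (some .rev, .inl none) (tauT e (some .aux, .inl none)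
        (tauT e (some .stack, .inl none) (tauT e (some .main, .inl none)
        (tauT e (some .main, .inl (some .cons)) (chain e
          ((trNat n).reverse.map fun a => (some K'.main, .inl (some a)))
          (.var (e (.inr q0)))))))) := by
      show chain e (word ks (start n)) _ = _
      rw [hw, ← List.map_reverse]
      rfl
    rw [h1, tau_code, tau_code, tau_code, tau_code, tau_code, hch]
    simp only [pre, List.append_assoc, List.map_reverse, Term.code]
    rfl
  have hcomp : Computable fun n => (t n).code := by
    have hfm : Computable (fun l : List ℕ => l.flatMap (tc .main)) := by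
      apply Primrec.to_comp
      refine Primrec.list_flatMap Primrec.id ?_
      have h5 : Primrec (fun x : ℕ => x + 5) := Primrec.nat_add.comp Primrec.id (Primrec.const 5)
      have : Primrec (fun x : ℕ => tc .main x) := by
        exact Primrec.list_append.comp (Primrec.const _) (Primrec.list_cons.comp h5
          (Primrec.list_cons.comp (Primrec.const 3) (Primrec.list_cons.comp (Primrec.const 4)
            (Primrec.list_cons.comp h5 (Primrec.const [])))))
      exact this.comp Primrec.snd
    have hd : Computable fun n => (((trNat n).map κ).reverse.flatMap (tc .main)) :=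
      hfm.comp (Computable.list_reverse.comp (Pool.Agent.Helper147.Univ.digits_computable κ))
    simp only [hcode]
    refine Computable.list_append.comp (Computable.const _) ?_
    exact Computable.list_append.comp hd (Computable.const _)
  refine ⟨N, R, t, hcomp, ?_, ?_⟩
  · intro n hn L _ v hv
    obtain ⟨q, S, o, z, h1, h2, h3⟩ := hA n hn
    exact accept M acc e v (fun p hp => hv p ((hRel p).2 hp)) ks hks hall _ _ h1 o z h2 h3
  · intro n hn
    obtain ⟨q, S, h1, h2, h3⟩ := hR n hn
    obtain ⟨ι, i1, v, h4, h5⟩ :=
      reject' M acc hacc e he ks hks hall q0 (start n) _ h1 h2 h3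
    exact ⟨ι, i1, v, fun p hp => h4 p ((hRel p).1 hp), h5⟩

end Pool.Agent.Y669.TA.Oml
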