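import Pool.Agent.H358R3.Plac3
import Pool.Agent.Y669.TA.DC967
set_option autoImplicit false

/-! Every arithmetical set is many-one reducible to the first-order theory of the plactic monoid
on an infinite totally ordered set. -/

namespace Pool.Agent.Y669.TA.Plac

open FirstOrder FirstOrder.Language
open Pool.Agent.Helper967.ArithDef Pool.Agent.Helper967.ModelDef
open Pool.Agent.H358R3.Plac Pool.Agent.Y669.TA

section

variable {A : Type} [LinearOrder A] {C : Type} (g : C → A)

theorem exists_formula [Infinite A] {B : ℕ → Prop} (hB : Arithmetical B) :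
    ∃ Ψ : (LC C).BoundedFormula Empty 2, ∀ n : ℕ, TrueIn g (sig Ψ n) ↔ B n := by
  letI := str g
  obtain ⟨ψ, hψ⟩ := DC967.dc_arith
    (@DN.closed (LC C) A (fam A) (strf g) Unit (par A) (nu A) interp) hB
  obtain ⟨χ, hχ⟩ := isGen0 (A := A) g
  let r1 : Unit ⊕ ℕ → Empty ⊕ Fin 2 := fun s => match s with
    | .inl _ => .inr 0
    | .inr _ => .inr 1
  let r2 : Empty ⊕ ℕ → Empty ⊕ Fin 2 := fun s => match s with
    | .inl e => e.elim
    | .inr _ => .inr 0
  refine ⟨(BoundedFormula.relabel (n := 2) r2 χ).imp (BoundedFormula.relabel (n := 2) r1 ψ), fun n => ?_⟩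
  have key1 : ∀ (v0 : Empty → PL A) (x0 : Fin 0 → PL A) (a b : PL A),
      (BoundedFormula.relabel (n := 2) r1 ψ : (LC C).BoundedFormula Empty 2).Realize v0
        (Fin.snoc (Fin.snoc x0 a : Fin 1 → PL A) b : Fin 2 → PL A) ↔
        ψ.Realize (Sum.elim (fun _ => a) (fun _ => b)) := by
    intro v0 x0 a b
    rw [BoundedFormula.realize_relabel]
    have h1 : (Sum.elim v0 ((Fin.snoc (Fin.snoc x0 a : Fin 1 → PL A) b : Fin 2 → PL A) ∘ Fin.castAdd 0) ∘ r1) =
        Sum.elim (fun _ => a) (fun _ => b) := by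
      funext s
      rcases s with e | k
      · rfl
      · rfl
    rw [h1]
    unfold Formula.Realize
    exact iff_of_eq (congrArg (BoundedFormula.Realize ψ _) (Subsingleton.elim _ _))
  have key2 : ∀ (v0 : Empty → PL A) (x0 : Fin 0 → PL A) (a b : PL A),
      (BoundedFormula.relabel (n := 2) r2 χ : (LC C).BoundedFormula Empty 2).Realize v0
        (Fin.snoc (Fin.snoc x0 a : Fin 1 → PL A) b : Fin 2 → PL A) ↔ IsGen a := by
    intro v0 x0 a b
    rw [BoundedFormula.realize_relabel]
    have h1 : (Sum.elim v0 ((Fin.snoc (Fin.snoc x0 a : Fin 1 → PL A) b : Fin 2 → PL A) ∘ Fin.castAdd 0) ∘ r2) =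
        Sum.elim (fun e : Empty => e.elim) (fun _ => a) := by
      funext s
      rcases s with e | k
      · exact e.elim
      · rfl
    rw [h1]
    refine Iff.trans ?_ (hχ () (fun _ => a))
    unfold Formula.Realize
    exact iff_of_eq (congrArg (BoundedFormula.Realize χ _) (Subsingleton.elim _ _))
  unfold TrueIn sig Sentence.Realize Formula.Realize
  rw [BoundedFormula.realize_all]
  simp only [BoundedFormula.realize_all, BoundedFormula.realize_imp]
  constructor
  · intro hh
    obtain ⟨i⟩ : Nonempty A := inferInstance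
    refine (hψ i (fun _ => n)).1 ?_
    refine (key1 _ _ (gen i) (gen i ^ n)).1 (hh (gen i) (gen i ^ n) ?_ ((key2 _ _ _ _).2 ⟨i, rfl⟩))
    show _ = _
    rw [realize_num]
    rfl
  · intro hh a b hab hgen
    obtain ⟨i, rfl⟩ := (key2 _ _ _ _).1 hgen
    refine (key1 _ _ _ _).2 ?_
    have h1 : b = gen i ^ n := Eq.trans (b := _) hab (realize_num g n _)
    rw [h1]
    exact (hψ i (fun _ => n)).2 hh

/-- every arithmetical set is many-one reducible to the theory -/
theorem reducible [Infinite A] [Encodable C] {B : ℕ → Prop} (hB : Arithmetical B) :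
    B ≤₀ fun n : ℕ => ∃ φ : (LC C).Sentence, code φ = n ∧ TrueIn g φ := by
  obtain ⟨Ψ, hΨ⟩ := exists_formula (A := A) g hB
  refine ⟨fun n => code (sig Ψ n), (primrec_sig Ψ).to_comp, fun n => ?_⟩
  rw [← hΨ n]
  constructor
  · intro hh
    exact ⟨sig Ψ n, rfl, hh⟩
  · rintro ⟨ψ, hψ, hh⟩
    rw [← code_injective _ _ hψ]
    exact hh

end

end Pool.Agent.Y669.TA.Plac
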